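import Pool.Agent.N469.LP.Good

set_option autoImplicit false

/-! The number of admissible classes. -/

namespace Pool.Agent.N469.LP
open Finset
open Pool.Agent.H373R2.T7
open Pool.Agent.W93.PP (Cnt per_card)

/-- the number of the classes `x mod q` such that `x` and `C x + Y` are coprime to `q` -/
def adm (C Y : ℤ) (q : ℕ) : ℕ := ((range q).filter (fun x : ℕ => Nat.Coprime x q ∧ Int.gcd (C * (x : ℤ) + Y) q = 1)).card

open Classical in
lemma card_gen (q : ℕ) (hq : 1 ≤ q) (F : ℕ → ℕ → Prop) :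
    ((range q).filter (fun b => ∀ p ∈ q.primeFactors, F p (b % p))).card =
      (q / ∏ p ∈ q.primeFactors, p) * ∏ p ∈ q.primeFactors, ((range p).filter (F p)).card := by
  obtain ⟨R, hR⟩ : ∃ R, R = ∏ p ∈ q.primeFactors, p := ⟨_, rfl⟩
  have hSp : ∀ p ∈ q.primeFactors, p.Prime := fun p hp => Nat.prime_of_mem_primeFactors hp
  have hRq : R ∣ q := by rw [hR]; exact Nat.prod_primeFactors_dvd q
  obtain ⟨m, hm⟩ := hRq
  have hR1 : 1 ≤ R := by rw [hR]; exact Nat.pos_of_ne_zero (prod_ne_zero_iff.2 fun p hp => (hSp p hp).ne_zero)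
  have hdiv : q / R = m := by rw [hm]; exact Nat.mul_div_cancel_left m hR1
  rw [← hR, hdiv]
  have hper : ∀ b, (∀ p ∈ q.primeFactors, F p ((b + R) % p)) ↔ (∀ p ∈ q.primeFactors, F p (b % p)) := by
    intro b
    have hh : ∀ p ∈ q.primeFactors, (b + R) % p = b % p := by
      intro p hp
      have hpR : p ∣ R := by rw [hR]; exact dvd_prod_of_mem _ hp
      obtain ⟨t, ht⟩ := hpR
      rw [ht, Nat.add_mul_mod_self_left]
    constructor
    · intro h1 p hp
      rw [← hh p hp]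
      exact h1 p hp
    · intro h1 p hp
      rw [hh p hp]
      exact h1 p hp
  have h1 := crt_card F q.primeFactors hSp
  rw [← h1, ← hR]
  have h2 := per_card (fun b => ∀ p ∈ q.primeFactors, F p (b % p)) R hper m
  have e : m * R = q := by rw [hm]; ring
  rw [e] at h2
  exact h2

lemma cop_iff (q x : ℕ) (hq : 1 ≤ q) : Nat.Coprime x q ↔ ∀ p ∈ q.primeFactors, ¬ p ∣ x := by
  constructor
  · intro h1 p hp h2
    have h3 := Nat.dvd_gcd h2 (Nat.dvd_of_mem_primeFactors hp)
    rw [h1] at h3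
    exact (Nat.prime_of_mem_primeFactors hp).one_lt.ne' (Nat.dvd_one.1 h3)
  · intro h1
    by_contra hne
    obtain ⟨p, hp, hpx, hpq⟩ := Nat.Prime.not_coprime_iff_dvd.1 hne
    exact h1 p (Nat.mem_primeFactors.2 ⟨hp, hpq, by omega⟩) hpx

open Classical in
lemma adm_prod (C Y : ℤ) (q : ℕ) (hq : 1 ≤ q) : adm C Y q =
    (q / ∏ p ∈ q.primeFactors, p) * ∏ p ∈ q.primeFactors, ((range p).filter (fun r => ¬ p ∣ r ∧ ¬ AL C Y p r)).card := by
  have hgen := card_gen q hq (fun p r => ¬ p ∣ r ∧ ¬ AL C Y p r)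
  refine Eq.trans ?_ (hgen.trans (by congr!))
  unfold adm
  apply congrArg card
  ext x
  simp only [mem_filter]
  apply and_congr_right
  intro _
  have h1 : Int.gcd (C * (x : ℤ) + Y) q = 1 ↔ ∀ p ∈ q.primeFactors, ¬ (p : ℤ) ∣ C * (x : ℤ) + Y := by
    have h2 : Int.gcd (C * (x : ℤ) + Y) q = Nat.gcd (C * (x : ℤ) + Y).natAbs q := by
      unfold Int.gcd
      rw [Int.natAbs_natCast]
    rw [h2]
    have h3 := cop_iff q (C * (x : ℤ) + Y).natAbs hq
    unfold Nat.Coprime at h3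
    rw [h3]
    constructor
    · intro h p hp hd
      exact h p hp (Int.natCast_dvd.1 hd)
    · intro h p hp hd
      exact h p hp (Int.natCast_dvd.2 hd)
  rw [h1, cop_iff q x hq]
  constructor
  · rintro ⟨h2, h3⟩ p hp
    refine ⟨fun h4 => h2 p hp ((Nat.dvd_mod_iff dvd_rfl).1 h4), fun h4 => h3 p hp ((AL_mod C Y p x).1 h4)⟩
  · intro h
    refine ⟨fun p hp h4 => (h p hp).1 ((Nat.dvd_mod_iff dvd_rfl).2 h4), fun p hp h4 => (h p hp).2 ((AL_mod C Y p x).2 h4)⟩

open Classical in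
lemma card_rho (A : ℕ → ℕ → Prop) (p : ℕ) : ((range p).filter (fun r => ¬ p ∣ r ∧ ¬ A p r)).card + rho A p = ((range p).filter (fun r => ¬ p ∣ r)).card := by
  unfold rho
  rw [← card_union_of_disjoint]
  · congr 1
    ext r
    simp only [mem_union, mem_filter]
    tauto
  · rw [disjoint_left]
    intro r h1 h2
    rw [mem_filter] at h1 h2
    exact h1.2.2 h2.2.2

theorem adm_eq (C Y : ℤ) (hg : Int.gcd C Y = 1) (q : ℕ) (hq : 1 ≤ q) : adm C Y q = Cnt q (C * Y).natAbs := by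
  classical
  have h1 : Cnt q (C * Y).natAbs = adm 1 ((C * Y).natAbs : ℤ) q := by
    unfold Cnt adm
    congr 1
    apply filter_congr
    intro x _
    have e : (1 : ℤ) * (x : ℤ) + ((C * Y).natAbs : ℤ) = ((x + (C * Y).natAbs : ℕ) : ℤ) := by push_cast; ring
    rw [e, Int.gcd_natCast_natCast]
  rw [h1, adm_prod C Y q hq, adm_prod 1 _ q hq]
  congr 1
  apply prod_congr rfl
  intro p hp
  have hpp := Nat.prime_of_mem_primeFactors hp
  have a1 := card_rho (AL C Y) p
  have a2 := card_rho (AL 1 ((C * Y).natAbs : ℤ)) p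
  have a3 := rho_lin C Y hg p hpp
  have a4 := rho_lin 1 ((C * Y).natAbs : ℤ) (by simp) p hpp
  rw [one_mul, Int.natAbs_natCast] at a4
  omega

end Pool.Agent.N469.LP
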