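import Pool.Agent.N469.LP.Lin

set_option autoImplicit false

/-! From weights to the number of pairs of primes `n`, `C n + Y`. -/

namespace Pool.Agent.N469.LP
open Finset
open Pool.Agent.H373R2.T7

/-- the contribution of proper prime powers along a linear form -/
lemma pp_lin (C Y : ℤ) (hC : C ≠ 0) (W : Finset ℕ) (X : ℕ) (hX : 1 ≤ X) (h : ∀ n ∈ W, C * (n : ℤ) + Y ≤ X) :
    ∑ n ∈ W, (lamI (C * (n : ℤ) + Y) - lamP (C * (n : ℤ) + Y)) ≤ 2 * √(X : ℝ) * Real.log X := by
  have h0 := Chebyshev.psi_sub_theta_le (x := (X : ℝ)) (by exact_mod_cast hX)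
  rw [Chebyshev.psi_sub_theta_eq_sum_not_prime, Nat.floor_natCast] at h0
  refine le_trans ?_ h0
  have h1 : ∀ n ∈ W, lamI (C * (n : ℤ) + Y) - lamP (C * (n : ℤ) + Y) =
      if 1 ≤ C * (n : ℤ) + Y ∧ ¬ (C * (n : ℤ) + Y).toNat.Prime then ArithmeticFunction.vonMangoldt (C * (n : ℤ) + Y).toNat else 0 := by
    intro n _
    obtain ⟨k, hk⟩ : ∃ k, k = C * (n : ℤ) + Y := ⟨_, rfl⟩
    rw [← hk]
    unfold lamI lamP
    by_cases h2 : 1 ≤ k
    · by_cases h3 : (k.toNat).Prime
      · rw [if_pos h2, if_pos h3, if_neg (fun h => h.2 h3), ArithmeticFunction.vonMangoldt_apply_prime h3, sub_self]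
      · rw [if_pos h2, if_neg h3, if_pos ⟨h2, h3⟩, sub_zero]
    · have h3 : ¬ (k.toNat).Prime := by
        have : k.toNat = 0 := by omega
        rw [this]; exact Nat.not_prime_zero
      rw [if_neg h2, if_neg h3, if_neg (fun h => h2 h.1), sub_self]
  rw [sum_congr rfl h1, ← sum_filter]
  have h2 : ∑ n ∈ W.filter (fun n : ℕ => 1 ≤ C * (n : ℤ) + Y ∧ ¬ (C * (n : ℤ) + Y).toNat.Prime),
      ArithmeticFunction.vonMangoldt (C * (n : ℤ) + Y).toNat =
      ∑ j ∈ (W.filter (fun n : ℕ => 1 ≤ C * (n : ℤ) + Y ∧ ¬ (C * (n : ℤ) + Y).toNat.Prime)).image (fun n : ℕ => (C * (n : ℤ) + Y).toNat),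
      ArithmeticFunction.vonMangoldt j := by
    rw [sum_image]
    intro n hn m hm hnm
    simp only [coe_filter, Set.mem_ofPred_eq] at hn hm
    simp only at hnm
    have e : C * (n : ℤ) = C * (m : ℤ) := by omega
    exact_mod_cast mul_left_cancel₀ hC e
  rw [h2]
  apply sum_le_sum_of_subset_of_nonneg
  · intro j hj
    rw [mem_image] at hj
    obtain ⟨n, hn, rfl⟩ := hj
    rw [mem_filter] at hn
    have h3 := h n hn.1
    rw [mem_filter, mem_Ioc]
    exact ⟨⟨by omega, by omega⟩, hn.2.2⟩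
  · intro _ _ _
    exact ArithmeticFunction.vonMangoldt_nonneg

/-- the number of pairs of primes `n`, `C n + Y` with `n ∈ W` -/
def cp (C Y : ℤ) (W : Finset ℕ) : ℕ := (W.filter fun n : ℕ => n.Prime ∧ (C * (n : ℤ) + Y).toNat.Prime).card

lemma weight_le (C Y : ℤ) (hC : C ≠ 0) (W : Finset ℕ) (X1 X2 : ℕ) (h1 : 1 ≤ X1) (h2 : 1 ≤ X2)
    (hW : ∀ n ∈ W, n ≤ X1 ∧ C * (n : ℤ) + Y ≤ X2) :
    ∑ n ∈ W, ArithmeticFunction.vonMangoldt n * lamI (C * (n : ℤ) + Y) ≤ Real.log X1 * Real.log X2 * cp C Y W +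
      (2 * √(X1 : ℝ) * Real.log X1) * Real.log X2 + Real.log X1 * (2 * √(X2 : ℝ) * Real.log X2) := by
  classical
  have l1 : 0 ≤ Real.log X1 := Real.log_natCast_nonneg _
  have l2 : 0 ≤ Real.log X2 := Real.log_natCast_nonneg _
  have a1 := pp_lin 1 0 one_ne_zero W X1 h1 (fun n hn => by rw [one_mul, add_zero]; exact_mod_cast (hW n hn).1)
  have a2 := pp_lin C Y hC W X2 h2 (fun n hn => (hW n hn).2)
  have e : (cp C Y W : ℝ) = ∑ n ∈ W, (if n.Prime ∧ (C * (n : ℤ) + Y).toNat.Prime then (1 : ℝ) else 0) := by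
    unfold cp
    rw [card_filter]
    push_cast
    rfl
  rw [e, mul_sum]
  refine le_trans ?_ (add_le_add (add_le_add le_rfl (mul_le_mul_of_nonneg_right a1 l2)) (mul_le_mul_of_nonneg_left a2 l1))
  rw [sum_mul, mul_sum, ← sum_add_distrib, ← sum_add_distrib]
  apply sum_le_sum
  intro n hn
  rw [one_mul, add_zero]
  obtain ⟨k, hk⟩ : ∃ k, k = C * (n : ℤ) + Y := ⟨_, rfl⟩
  have hn1 := (hW n hn).1
  have hn2 := (hW n hn).2
  rw [← hk] at hn2 ⊢
  have a0 : lamI (n : ℤ) = ArithmeticFunction.vonMangoldt n := Pool.Agent.W93.GB.lam_nat n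
  have b1 := lamP_le (n : ℤ)
  have b2 := lamP_le k
  have b3 := lamP_nonneg (n : ℤ)
  have b4 := lamP_nonneg k
  have b5 : lamI (n : ℤ) ≤ Real.log X1 := lamI_le _ _ (by exact_mod_cast h1) (by exact_mod_cast hn1)
  have b6 : lamI k ≤ Real.log X2 := lamI_le _ _ (by exact_mod_cast h2) (by exact_mod_cast hn2)
  have b7 := lamI_nonneg (n : ℤ)
  have b8 := lamI_nonneg k
  rw [← a0]
  have c1 : 0 ≤ (lamI (n : ℤ) - lamP (n : ℤ)) * Real.log X2 := mul_nonneg (by linarith) l2
  have c2 : 0 ≤ Real.log X1 * (lamI k - lamP k) := mul_nonneg l1 (by linarith)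
  by_cases h3 : n.Prime
  · by_cases h4 : (k.toNat).Prime
    · rw [if_pos ⟨h3, h4⟩, mul_one]
      have : lamI (n : ℤ) * lamI k ≤ Real.log X1 * Real.log X2 := mul_le_mul b5 b6 b8 l1
      linarith
    · rw [if_neg (fun h => h4 h.2), mul_zero, zero_add]
      have h5 : lamP k = 0 := by unfold lamP; rw [if_neg h4]
      have : lamI (n : ℤ) * lamI k ≤ Real.log X1 * (lamI k - lamP k) := by
        rw [h5, sub_zero]
        exact mul_le_mul_of_nonneg_right b5 b8
      linarith
  · rw [if_neg (fun h => h3 h.1), mul_zero, zero_add]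
    have h5 : lamP (n : ℤ) = 0 := by unfold lamP; rw [Int.toNat_natCast, if_neg h3]
    have : lamI (n : ℤ) * lamI k ≤ (lamI (n : ℤ) - lamP (n : ℤ)) * Real.log X2 := by
      rw [h5, sub_zero]
      exact mul_le_mul_of_nonneg_left b6 b7
    linarith

lemma count_le (C Y : ℤ) (hC : C ≠ 0) (W : Finset ℕ) (T : ℕ) (hT : 1 ≤ T) :
    Real.log T ^ 2 * cp C Y W ≤ ∑ n ∈ W, ArithmeticFunction.vonMangoldt n * lamI (C * (n : ℤ) + Y) + Real.log T ^ 2 * (2 * T) := by
  classical
  have e : (cp C Y W : ℝ) = ∑ n ∈ W, (if n.Prime ∧ (C * (n : ℤ) + Y).toNat.Prime then (1 : ℝ) else 0) := by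
    unfold cp
    rw [card_filter]
    push_cast
    rfl
  have hl : 0 ≤ Real.log T := Real.log_natCast_nonneg _
  have c1 : ∑ n ∈ W, (if n < T then (1 : ℝ) else 0) ≤ T := by
    rw [← sum_filter, sum_const, nsmul_eq_mul, mul_one]
    have : (W.filter fun n : ℕ => n < T).card ≤ (range T).card := card_le_card (by
      intro n hn
      rw [mem_filter] at hn
      exact mem_range.2 hn.2)
    rw [card_range] at this
    exact_mod_cast this
  have c2 : ∑ n ∈ W, (if 0 < C * (n : ℤ) + Y ∧ C * (n : ℤ) + Y < T then (1 : ℝ) else 0) ≤ T := by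
    rw [← sum_filter, sum_const, nsmul_eq_mul, mul_one]
    have : (W.filter fun n : ℕ => 0 < C * (n : ℤ) + Y ∧ C * (n : ℤ) + Y < T).card ≤ (range T).card := by
      apply card_le_card_of_injOn (fun n : ℕ => (C * (n : ℤ) + Y).toNat)
      · intro n hn
        simp only [coe_filter, Set.mem_ofPred_eq] at hn
        rw [mem_coe, mem_range]
        simp only
        omega
      · intro n hn m hm hnm
        simp only [coe_filter, Set.mem_ofPred_eq] at hn hm
        simp only at hnm
        have e : C * (n : ℤ) = C * (m : ℤ) := by omega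
        exact_mod_cast mul_left_cancel₀ hC e
    rw [card_range] at this
    exact_mod_cast this
  have key : Real.log T ^ 2 * cp C Y W ≤ ∑ n ∈ W, (ArithmeticFunction.vonMangoldt n * lamI (C * (n : ℤ) + Y) +
      (Real.log T ^ 2 * (if n < T then (1 : ℝ) else 0) + Real.log T ^ 2 * (if 0 < C * (n : ℤ) + Y ∧ C * (n : ℤ) + Y < T then (1 : ℝ) else 0))) := by
    rw [e, mul_sum]
    apply sum_le_sum
    intro n _
    obtain ⟨k, hk⟩ : ∃ k, k = C * (n : ℤ) + Y := ⟨_, rfl⟩
    rw [← hk]
    have b1 : 0 ≤ ArithmeticFunction.vonMangoldt n * lamI k := mul_nonneg ArithmeticFunction.vonMangoldt_nonneg (lamI_nonneg k)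
    have b2 : 0 ≤ Real.log T ^ 2 * (if n < T then (1 : ℝ) else 0) := by split_ifs <;> positivity
    have b3 : 0 ≤ Real.log T ^ 2 * (if 0 < k ∧ k < T then (1 : ℝ) else 0) := by split_ifs <;> positivity
    by_cases h3 : n.Prime ∧ (k.toNat).Prime
    · rw [if_pos h3, mul_one]
      have hk1 : 1 < k := by
        have := h3.2.one_lt
        omega
      by_cases h4 : n < T
      · rw [if_pos h4, mul_one]
        linarith
      · by_cases h5 : 0 < k ∧ k < T
        · rw [if_pos h5, mul_one]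
          linarith
        · have h6 : T ≤ n := by omega
          have h7 : T ≤ k.toNat := by
            have : ¬ k < T := fun h => h5 ⟨by omega, h⟩
            omega
          have h8 : lamI k = Real.log k.toNat := by
            unfold lamI
            rw [if_pos (by omega), ArithmeticFunction.vonMangoldt_apply_prime h3.2]
          have h9 : Real.log T ≤ Real.log n := Real.log_le_log (by exact_mod_cast hT) (by exact_mod_cast h6)
          have h10 : Real.log T ≤ Real.log k.toNat := Real.log_le_log (by exact_mod_cast hT) (by exact_mod_cast h7)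
          have h11 : Real.log T ^ 2 ≤ ArithmeticFunction.vonMangoldt n * lamI k := by
            rw [h8, ArithmeticFunction.vonMangoldt_apply_prime h3.1, pow_two]
            exact mul_le_mul h9 h10 hl (hl.trans h9)
          linarith
    · rw [if_neg h3, mul_zero]
      linarith
  refine key.trans ?_
  rw [sum_add_distrib, sum_add_distrib, ← mul_sum, ← mul_sum]
  have d1 := mul_le_mul_of_nonneg_left c1 (sq_nonneg (Real.log T))
  have d2 := mul_le_mul_of_nonneg_left c2 (sq_nonneg (Real.log T))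
  linarith

theorem asym (η : ℝ) (hη : 0 < η) (hη1 : η < 1) (B J : ℕ) (hB : 1 ≤ B) : ∃ N₀ : ℕ, ∀ N : ℕ, N₀ ≤ N → ∀ C Y : ℤ, C ≠ 0 → ∀ W : Finset ℕ,
    (∀ n ∈ W, n ≤ B * N ∧ C * (n : ℤ) + Y ≤ (B * N : ℕ)) →
    ∑ n ∈ W, ArithmeticFunction.vonMangoldt n * lamI (C * (n : ℤ) + Y) ≤ (1 + η) * Real.log N ^ 2 * cp C Y W + N / Real.log N ^ J ∧
    (1 - η) * Real.log N ^ 2 * cp C Y W ≤ ∑ n ∈ W, ArithmeticFunction.vonMangoldt n * lamI (C * (n : ℤ) + Y) + N / Real.log N ^ J := by
  obtain ⟨n1, h1⟩ := ev_L' (16 * (J + 3 : ℝ) ^ 2 / η ^ 2 + 4 * Real.log B / η + Real.log B + 8)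
  obtain ⟨n2, h2⟩ := ev_log' (J + 6) (16 * B)
  refine ⟨max n1 n2 + 4, fun N hN C Y hC W hW => ?_⟩
  have hL := h1 N (by omega)
  have hS := h2 N (by omega)
  have hN0 : (0 : ℝ) < N := by exact_mod_cast (by omega : 0 < N)
  obtain ⟨L, hLd⟩ : ∃ L, L = Real.log (N : ℝ) := ⟨_, rfl⟩
  rw [← hLd] at hL hS ⊢
  have hBr : (1 : ℝ) ≤ B := by exact_mod_cast hB
  have hlB : 0 ≤ Real.log B := Real.log_natCast_nonneg _
  have p1 : 0 ≤ 16 * (J + 3 : ℝ) ^ 2 / η ^ 2 := by positivity
  have p2 : 0 ≤ 4 * Real.log B / η := by positivity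
  have hL8 : 8 ≤ L := by linarith
  have hL1 : 1 ≤ L := by linarith
  have hL0 : 0 < L := by linarith
  have hss : √(N : ℝ) * √(N : ℝ) = N := Real.mul_self_sqrt hN0.le
  have hs0 : 0 < √(N : ℝ) := Real.sqrt_pos.2 hN0
  have hs1 : 1 ≤ √(N : ℝ) := by
    rw [Real.one_le_sqrt]
    exact_mod_cast (by omega : 1 ≤ N)
  have hc0 : (0 : ℝ) ≤ cp C Y W := Nat.cast_nonneg _
  constructor
  · have a1 := weight_le C Y hC W (B * N) (B * N) (Nat.mul_pos hB (by omega)) (Nat.mul_pos hB (by omega)) hW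
    refine a1.trans ?_
    have e : Real.log ((B * N : ℕ) : ℝ) = Real.log B + L := by
      push_cast
      rw [Real.log_mul (by linarith) hN0.ne', ← hLd]
    have e2 : √((B * N : ℕ) : ℝ) ≤ B * √(N : ℝ) := by
      push_cast
      rw [Real.sqrt_mul (by linarith)]
      apply mul_le_mul_of_nonneg_right _ hs0.le
      rw [Real.sqrt_le_left (by linarith)]
      nlinarith
    rw [e]
    have q1 : Real.log B ≤ η / 4 * L := by
      have : 4 * Real.log B / η ≤ L := by linarith
      rw [div_le_iff₀ hη] at this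
      linarith
    have q2 : (Real.log B + L) * (Real.log B + L) ≤ (1 + η) * L ^ 2 := by
      have q3 : Real.log B + L ≤ (1 + η / 4) * L := by linarith
      calc (Real.log B + L) * (Real.log B + L) ≤ ((1 + η / 4) * L) * ((1 + η / 4) * L) := mul_le_mul q3 q3 (by positivity) (by positivity)
        _ = (1 + η / 2 + η ^ 2 / 16) * L ^ 2 := by ring
        _ ≤ (1 + η) * L ^ 2 := by
            apply mul_le_mul_of_nonneg_right _ (by positivity)
            nlinarith
    have q4 : Real.log B + L ≤ 2 * L := by linarith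
    have q5 : 2 * √((B * N : ℕ) : ℝ) * (Real.log B + L) * (Real.log B + L) + (Real.log B + L) * (2 * √((B * N : ℕ) : ℝ) * (Real.log B + L)) ≤ N / L ^ J := by
      have e3 : 2 * √((B * N : ℕ) : ℝ) * (Real.log B + L) * (Real.log B + L) + (Real.log B + L) * (2 * √((B * N : ℕ) : ℝ) * (Real.log B + L)) =
        4 * √((B * N : ℕ) : ℝ) * (Real.log B + L) ^ 2 := by ring
      rw [e3, le_div_iff₀ (by positivity)]
      calc 4 * √((B * N : ℕ) : ℝ) * (Real.log B + L) ^ 2 * L ^ J ≤ 4 * (B * √(N : ℝ)) * (2 * L) ^ 2 * L ^ J := by gcongr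
        _ = √N * (16 * B * L ^ (J + 2)) := by ring
        _ ≤ √N * (16 * B * L ^ (J + 6)) := by
            have : L ^ (J + 2) ≤ L ^ (J + 6) := pow_le_pow_right₀ hL1 (by omega)
            gcongr
        _ ≤ √N * √N := mul_le_mul_of_nonneg_left hS hs0.le
        _ = N := hss
    have q6 := mul_le_mul_of_nonneg_right q2 hc0
    linarith
  · -- the other direction
    obtain ⟨T, hT⟩ : ∃ T : ℕ, T = ⌊(N : ℝ) / L ^ (J + 3)⌋₊ + 1 := ⟨_, rfl⟩
    have t1 : (N : ℝ) / L ^ (J + 3) ≤ T := by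
      rw [hT]
      push_cast
      exact (Nat.lt_floor_add_one _).le
    have t2 : (T : ℝ) ≤ N / L ^ (J + 3) + 1 := by
      rw [hT]
      push_cast
      have := Nat.floor_le (show 0 ≤ (N : ℝ) / L ^ (J + 3) by positivity)
      linarith
    have t3 : 1 ≤ T := by omega
    have a1 := count_le C Y hC W T t3
    have t4 : (1 - η / 2) * L ≤ Real.log T := by
      have u1 : Real.log ((N : ℝ) / L ^ (J + 3)) ≤ Real.log T := Real.log_le_log (by positivity) t1
      rw [Real.log_div hN0.ne' (by positivity), Real.log_pow, ← hLd] at u1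
      have u2 : Real.log L ≤ 2 * √L := by
        have h5 : Real.log (√L) = Real.log L / 2 := Real.log_sqrt hL0.le
        have h6 : Real.log (√L) ≤ √L := by
          have := Real.log_le_sub_one_of_pos (Real.sqrt_pos.2 hL0)
          linarith
        linarith
      have u3 : 4 * (J + 3 : ℝ) / η ≤ √L := by
        apply Real.le_sqrt_of_sq_le
        have : (4 * (J + 3 : ℝ) / η) ^ 2 = 16 * (J + 3 : ℝ) ^ 2 / η ^ 2 := by ring
        rw [this]
        linarith
      rw [div_le_iff₀ hη] at u3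
      have u4 : ((J + 3 : ℕ) : ℝ) * Real.log L ≤ η / 2 * L := by
        push_cast
        have hsL : √L * √L = L := Real.mul_self_sqrt hL0.le
        have hsL0 : 0 ≤ √L := Real.sqrt_nonneg _
        calc ((J : ℝ) + 3) * Real.log L ≤ (J + 3) * (2 * √L) := mul_le_mul_of_nonneg_left u2 (by positivity)
          _ = (4 * (J + 3 : ℝ)) * √L / 2 := by ring
          _ ≤ (√L * η) * √L / 2 := by gcongr
          _ = η / 2 * (√L * √L) := by ring
          _ = η / 2 * L := by rw [hsL]
      linarith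
    have t5 : Real.log T ≤ L := by
      rw [hLd]
      apply Real.log_le_log (by exact_mod_cast t3)
      refine t2.trans ?_
      have u1 : (N : ℝ) / L ^ (J + 3) ≤ N / 2 := by
        apply div_le_div_of_nonneg_left hN0.le (by norm_num)
        calc (2 : ℝ) ≤ L := by linarith
          _ ≤ L ^ (J + 3) := le_self_pow₀ hL1 (by omega)
      have u2 : (4 : ℝ) ≤ N := by exact_mod_cast (by omega : 4 ≤ N)
      linarith
    have t6 : 0 ≤ Real.log T := Real.log_natCast_nonneg _
    have t7 : (1 - η) * L ^ 2 ≤ Real.log T ^ 2 := by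
      have u1 : 0 ≤ (1 - η / 2) * L := mul_nonneg (by linarith) hL0.le
      have u2 := pow_le_pow_left₀ u1 t4 2
      refine le_trans ?_ u2
      have : ((1 - η / 2) * L) ^ 2 = (1 - η + η ^ 2 / 4) * L ^ 2 := by ring
      rw [this]
      apply mul_le_mul_of_nonneg_right _ (by positivity)
      nlinarith
    have t8 : Real.log T ^ 2 * (2 * T) ≤ N / L ^ J := by
      have u1 : Real.log T ^ 2 ≤ L ^ 2 := pow_le_pow_left₀ t6 t5 2
      have u2 : (1 : ℝ) ≤ N / L ^ (J + 3) := by
        rw [le_div_iff₀ (by positivity), one_mul]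
        have v1 : L ^ (J + 3) ≤ L ^ (J + 6) := pow_le_pow_right₀ hL1 (by omega)
        have v2 : L ^ (J + 6) ≤ 16 * B * L ^ (J + 6) := le_mul_of_one_le_left (by positivity) (by linarith)
        calc L ^ (J + 3) ≤ √N := by linarith
          _ ≤ √N * √N := by nlinarith
          _ = N := hss
      calc Real.log T ^ 2 * (2 * T) ≤ L ^ 2 * (2 * (2 * (N / L ^ (J + 3)))) := by
            apply mul_le_mul u1 _ (by positivity) (by positivity)
            linarith
        _ = (4 / L) * (N / L ^ J) := by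
            rw [pow_add L J 3]
            field_simp
            try ring
        _ ≤ 1 * (N / L ^ J) := by
            apply mul_le_mul_of_nonneg_right _ (by positivity)
            rw [div_le_one hL0]
            linarith
        _ = _ := one_mul _
    have t9 := mul_le_mul_of_nonneg_right t7 hc0
    linarith

end Pool.Agent.N469.LP
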