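import Pool.Agent.N469.LP.Page
import Pool.Agent.Helper256.KM.Mertens

set_option autoImplicit false

/-! Chains `n, 2 n + Y` of exact length two: a second moment argument shows that `4 n + 3 Y` is almost always composite. -/

namespace Pool.Agent.N469.LP
open Finset
open Pool.Agent.H373R2.T7
open Pool.Agent.H560R3.GB (sing C₂)
open Pool.Agent.W93.PP (Cnt cnt_eq)

/-- the method of Turan -/
lemma turan {ι : Type*} (S : Finset ι) (R : Finset ℕ) (D : ℕ → ι → Prop) [∀ r, DecidablePred (D r)] (g : ℕ → ℝ) (T e : ℝ) (hT : 0 ≤ T) (he : 0 ≤ e) (he1 : e ≤ 1)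
    (hg : ∀ r ∈ R, 0 ≤ g r) (h0 : (S.card : ℝ) ≤ (1 + e) * T)
    (h1 : ∀ r ∈ R, (1 - e) * T * g r ≤ ((S.filter (D r)).card : ℝ))
    (h2 : ∀ r ∈ R, ((S.filter (D r)).card : ℝ) ≤ (1 + e) * T * g r)
    (h3 : ∀ r ∈ R, ∀ r' ∈ R, r ≠ r' → ((S.filter (fun n => D r n ∧ D r' n)).card : ℝ) ≤ (1 + e) * T * (g r * g r')) :
    (∑ r ∈ R, g r) ^ 2 * ((S.filter (fun n => ∀ r ∈ R, ¬ D r n)).card : ℝ) ≤ T * (2 * (∑ r ∈ R, g r) + 4 * e * (∑ r ∈ R, g r) ^ 2) := by
  obtain ⟨σ, hσ⟩ : ∃ σ, σ = ∑ r ∈ R, g r := ⟨_, rfl⟩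
  rw [← hσ]
  have hσ0 : 0 ≤ σ := by rw [hσ]; exact sum_nonneg hg
  obtain ⟨om, hom⟩ : ∃ om : ι → ℝ, om = fun n => ∑ r ∈ R, (if D r n then (1 : ℝ) else 0) := ⟨_, rfl⟩
  have e1 : σ ^ 2 * ((S.filter (fun n => ∀ r ∈ R, ¬ D r n)).card : ℝ) ≤ ∑ n ∈ S, (om n - σ) ^ 2 := by
    rw [card_filter]
    push_cast
    rw [mul_sum]
    apply sum_le_sum
    intro n _
    split_ifs with h
    · have : om n = 0 := by
        rw [hom]
        apply sum_eq_zero
        intro r hr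
        rw [if_neg (h r hr)]
      rw [this]
      nlinarith
    · rw [mul_zero]
      positivity
  refine e1.trans ?_
  have e2 : ∑ n ∈ S, (om n - σ) ^ 2 = ∑ n ∈ S, om n ^ 2 - 2 * σ * ∑ n ∈ S, om n + σ ^ 2 * S.card := by
    rw [mul_sum, ← sum_sub_distrib, ← nsmul_eq_mul', ← sum_const, ← sum_add_distrib]
    apply sum_congr rfl
    intro n _
    ring
  have e3 : ∑ n ∈ S, om n = ∑ r ∈ R, ((S.filter (D r)).card : ℝ) := by
    rw [hom]
    simp only
    rw [sum_comm]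
    apply sum_congr rfl
    intro r _
    rw [card_filter]
    push_cast
    rfl
  have e4 : ∑ n ∈ S, om n ^ 2 = ∑ r ∈ R, ∑ r' ∈ R, ((S.filter (fun n => D r n ∧ D r' n)).card : ℝ) := by
    have e5 : ∀ n, om n ^ 2 = ∑ r ∈ R, ∑ r' ∈ R, (if D r n ∧ D r' n then (1 : ℝ) else 0) := by
      intro n
      rw [hom]
      simp only
      rw [pow_two, sum_mul_sum]
      apply sum_congr rfl
      intro r _
      apply sum_congr rfl
      intro r' _
      by_cases a1 : D r n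
      · by_cases a2 : D r' n
        · simp [a1, a2]
        · simp [a2]
      · simp [a1]
    rw [sum_congr rfl fun n _ => e5 n, sum_comm]
    apply sum_congr rfl
    intro r _
    rw [sum_comm]
    apply sum_congr rfl
    intro r' _
    rw [card_filter]
    push_cast
    rfl
  have b1 : (1 - e) * T * σ ≤ ∑ n ∈ S, om n := by
    rw [e3, hσ, mul_sum]
    exact sum_le_sum h1
  have b2 : ∑ n ∈ S, om n ^ 2 ≤ (1 + e) * T * (σ ^ 2 + σ) := by
    rw [e4]
    have c1 : ∀ r ∈ R, ∀ r' ∈ R, ((S.filter (fun n => D r n ∧ D r' n)).card : ℝ) ≤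
        (1 + e) * T * (g r * g r') + (if r = r' then (1 + e) * T * g r else 0) := by
      intro r hr r' hr'
      have c2 : 0 ≤ (1 + e) * T * (g r * g r') := mul_nonneg (by positivity) (mul_nonneg (hg r hr) (hg r' hr'))
      by_cases h : r = r'
      · subst h
        rw [if_pos rfl]
        have c3 : (S.filter (fun n => D r n ∧ D r n)) = S.filter (D r) := by
          ext n
          simp only [mem_filter, and_self]
        rw [c3]
        have := h2 r hr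
        linarith
      · rw [if_neg h, add_zero]
        exact h3 r hr r' hr' h
    refine (sum_le_sum fun r hr => sum_le_sum fun r' hr' => c1 r hr r' hr').trans (le_of_eq ?_)
    have c4 : ∀ r ∈ R, ∑ r' ∈ R, ((1 + e) * T * (g r * g r') + (if r = r' then (1 + e) * T * g r else 0)) =
        (1 + e) * T * (g r * σ) + (1 + e) * T * g r := by
      intro r hr
      rw [sum_add_distrib, ← mul_sum, ← mul_sum, ← hσ, sum_ite_eq, if_pos hr]
    rw [sum_congr rfl c4, sum_add_distrib, ← mul_sum, ← mul_sum, ← sum_mul, ← hσ]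
    ring
  rw [e2]
  have b3 := mul_le_mul_of_nonneg_left b1 (show 0 ≤ 2 * σ by positivity)
  have b4 := mul_le_mul_of_nonneg_left h0 (show 0 ≤ σ ^ 2 by positivity)
  have b5 : (1 + e) * T * (σ ^ 2 + σ) - 2 * σ * ((1 - e) * T * σ) + σ ^ 2 * ((1 + e) * T) = T * ((1 + e) * σ + 4 * e * σ ^ 2) := by ring
  have b6 : T * ((1 + e) * σ + 4 * e * σ ^ 2) ≤ T * (2 * σ + 4 * e * σ ^ 2) := by
    apply mul_le_mul_of_nonneg_left _ hT
    nlinarith
  linarith

/-- the class of the `n` with `q ∣ 4 n + 3 Y` -/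
lemma third_class (q : ℕ) (Y : ℤ) (hq : 1 ≤ q) (hodd : Odd q) (hY : IsCoprime (q : ℤ) (3 * Y)) : ∃ x₀ : ℕ, Nat.Coprime x₀ q ∧
    Int.gcd (2 * (x₀ : ℤ) + Y) q = 1 ∧ ∀ n : ℕ, n ≡ x₀ [MOD q] ↔ (q : ℤ) ∣ 4 * (n : ℤ) + 3 * Y := by
  have h4 : IsCoprime (4 : ℤ) (q : ℤ) := by
    have h2 : IsCoprime (2 : ℤ) (q : ℤ) := by
      obtain ⟨k, hk⟩ := hodd
      refine ⟨-k, 1, ?_⟩
      rw [hk]
      push_cast
      ring
    have := h2.pow_left (m := 2)
    norm_num at this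
    exact this
  obtain ⟨u, w, huw⟩ := h4
  have hq0 : (0 : ℤ) < q := by exact_mod_cast hq
  obtain ⟨x, hx⟩ : ∃ x : ℕ, x = ((-(u * (3 * Y))) % (q : ℤ)).toNat := ⟨_, rfl⟩
  have hx0 : 0 ≤ (-(u * (3 * Y))) % (q : ℤ) := Int.emod_nonneg _ hq0.ne'
  have hxz : (x : ℤ) = (-(u * (3 * Y))) % (q : ℤ) := by rw [hx, Int.toNat_of_nonneg hx0]
  have hroot : (q : ℤ) ∣ 4 * x + 3 * Y := by
    have h1 : (q : ℤ) ∣ x + u * (3 * Y) := by
      have h2 := Int.emod_add_mul_ediv (-(u * (3 * Y))) (q : ℤ)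
      refine ⟨-((-(u * (3 * Y))) / (q : ℤ)), ?_⟩
      rw [hxz]
      linarith
    have e : 4 * (x : ℤ) + 3 * Y = 4 * (x + u * (3 * Y)) + q * (w * (3 * Y)) := by
      have : 4 * (x : ℤ) + 3 * Y = 4 * x + (3 * Y) * (u * 4 + w * q) := by rw [huw, mul_one]
      rw [this]
      ring
    rw [e]
    exact dvd_add (Dvd.dvd.mul_left h1 _) (dvd_mul_right _ _)
  have hcopq : ∀ p : ℕ, p.Prime → (p : ℤ) ∣ q → ¬ (p : ℤ) ∣ 3 * Y := by
    intro p hp h1 h2
    have h3 := hY.isUnit_of_dvd' h1 h2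
    rw [Int.isUnit_iff] at h3
    have := hp.one_lt
    omega
  refine ⟨x, ?_, ?_, ?_⟩
  · by_contra hne
    obtain ⟨p, hp, hpx, hpq⟩ := Nat.Prime.not_coprime_iff_dvd.1 hne
    have h1 : (p : ℤ) ∣ q := by exact_mod_cast hpq
    have h2 : (p : ℤ) ∣ 4 * (x : ℤ) := Dvd.dvd.mul_left (by exact_mod_cast hpx) _
    exact hcopq p hp h1 ((Int.dvd_add_right h2).1 (h1.trans hroot))
  · by_contra hne
    obtain ⟨p, hp, hpd⟩ := Nat.exists_prime_and_dvd hne
    have h1 : (p : ℤ) ∣ 2 * (x : ℤ) + Y := (Int.natCast_dvd_natCast.2 hpd).trans (Int.gcd_dvd_left _ _)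
    have h2 : (p : ℤ) ∣ q := (Int.natCast_dvd_natCast.2 hpd).trans (Int.gcd_dvd_right _ _)
    have h3 : (p : ℤ) ∣ 4 * (x : ℤ) + 3 * Y := h2.trans hroot
    have h4 : (p : ℤ) ∣ Y := by
      have := dvd_sub h3 (Dvd.dvd.mul_left h1 2)
      have e : 4 * (x : ℤ) + 3 * Y - 2 * (2 * (x : ℤ) + Y) = Y := by ring
      rwa [e] at this
    exact hcopq p hp h2 (Dvd.dvd.mul_left h4 _)
  · intro n
    rw [Nat.modEq_iff_dvd]
    constructor
    · intro h1
      have e : 4 * (n : ℤ) + 3 * Y = (4 * x + 3 * Y) - 4 * ((x : ℤ) - n) := by ring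
      rw [e]
      exact dvd_sub hroot (Dvd.dvd.mul_left h1 _)
    · intro h1
      have h2 : (q : ℤ) ∣ 4 * ((x : ℤ) - n) := by
        have := dvd_sub hroot h1
        have e : 4 * (x : ℤ) + 3 * Y - (4 * n + 3 * Y) = 4 * ((x : ℤ) - n) := by ring
        rwa [e] at this
      have h5 : IsCoprime (q : ℤ) 4 := IsCoprime.symm ⟨u, w, huw⟩
      exact h5.dvd_of_dvd_mul_left h2

lemma cnt_one (h : ℕ) : Cnt 1 h = 1 := by
  unfold Cnt
  have e : (range 1).filter (fun x : ℕ => Nat.Coprime x 1 ∧ Nat.Coprime (x + h) 1) = range 1 := by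
    apply filter_true_of_mem
    intro x _
    exact ⟨Nat.coprime_one_right x, Nat.coprime_one_right _⟩
  rw [e, card_range]

lemma cnt_r (r h : ℕ) (hr : r.Prime) (hd : ¬ r ∣ h) : (Cnt r h : ℝ) = (r : ℝ) - 2 := by
  have h1 := cnt_eq r h hr.one_le
  rw [hr.primeFactors, prod_singleton, if_neg hd, Nat.totient_prime hr, Nat.cast_sub hr.one_le] at h1
  rw [h1]
  push_cast
  have : (r : ℝ) - 1 ≠ 0 := by
    have : (2 : ℝ) ≤ r := by exact_mod_cast hr.two_le
    linarith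
  field_simp
  ring

lemma cnt_rr (r s h : ℕ) (hr : r.Prime) (hs : s.Prime) (hne : r ≠ s) (hd : ¬ r ∣ h) (hd' : ¬ s ∣ h) :
    (Cnt (r * s) h : ℝ) = ((r : ℝ) - 2) * ((s : ℝ) - 2) := by
  have h1 := cnt_eq (r * s) h (Nat.mul_pos hr.pos hs.pos)
  have hc : Nat.Coprime r s := (Nat.coprime_primes hr hs).2 hne
  rw [Nat.primeFactors_mul hr.ne_zero hs.ne_zero, hr.primeFactors, hs.primeFactors, prod_union (by rwa [disjoint_singleton]),
    prod_singleton, prod_singleton, if_neg hd, if_neg hd', Nat.totient_mul hc, Nat.totient_prime hr, Nat.totient_prime hs] at h1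
  rw [h1]
  push_cast [Nat.cast_sub hr.one_le, Nat.cast_sub hs.one_le]
  have a1 : (r : ℝ) - 1 ≠ 0 := by
    have : (2 : ℝ) ≤ r := by exact_mod_cast hr.two_le
    linarith
  have a2 : (s : ℝ) - 1 ≠ 0 := by
    have : (2 : ℝ) ≤ s := by exact_mod_cast hs.two_le
    linarith
  field_simp
  ring

end Pool.Agent.N469.LP
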