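import Pool.Agent.N469.LP.Exact

set_option autoImplicit false

/-! Chains `n, 2 n + Y` of exact length two. -/

namespace Pool.Agent.N469.LP
open Finset
open Pool.Agent.H373R2.T7
open Pool.Agent.H560R3.GB (sing C₂)
open Pool.Agent.W93.PP (Cnt cnt_eq)

/-- the number of primes `n` in `(M, M']` with `2 n + Y` prime and `4 n + 3 Y` composite -/
def ex (Y : ℤ) (M M' : ℕ) : ℕ :=
  ((Ioc M M').filter fun n : ℕ => n.Prime ∧ (2 * (n : ℤ) + Y).toNat.Prime ∧ 1 < 4 * (n : ℤ) + 3 * Y ∧ ¬ (4 * (n : ℤ) + 3 * Y).toNat.Prime).card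

def ExactL (ε : ℝ) (B W N : ℕ) (Y : ℤ) : Prop :=
  ∀ M M' : ℕ, M' ≤ B * N → 4 * (M' : ℤ) + 3 * Y ≤ B * N → 0 ≤ 4 * (M : ℤ) + 3 * Y → (M : ℝ) + N / Real.log N ^ W ≤ M' →
    |(ex Y M M' : ℝ) - dens 2 Y 1 * (((M' : ℝ) - M) / Real.log N ^ 2)| ≤ ε * (dens 2 Y 1 * (((M' : ℝ) - M) / Real.log N ^ 2))

/-- the sum over the primes of a long interval which do not divide `Y` -/
lemma sigma_lower (Cm : ℝ) (hCm : ∀ N : ℕ, 3 ≤ N → |∑ p ∈ (Finset.Icc 1 N).filter Nat.Prime, (1 : ℝ) / p - Real.log (Real.log N)| ≤ Cm)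
    (w b : ℕ) (hw : 3 ≤ w) (hb : 1 ≤ b) (Y : ℤ) (hY : Y ≠ 0) (hYw : (Nat.log 2 Y.natAbs : ℝ) ≤ w) :
    Real.log b - 2 * Cm - 1 ≤ ∑ r ∈ (Ioc w (w ^ b)).filter (fun r : ℕ => r.Prime ∧ ¬ (r : ℤ) ∣ Y), 1 / ((r : ℝ) - 2) := by
  have hwr : (3 : ℝ) ≤ w := by exact_mod_cast hw
  have hz : w ≤ w ^ b := Nat.le_self_pow (by omega) w
  have h1 := abs_le.1 (hCm w hw)
  have h2 := abs_le.1 (hCm (w ^ b) (hw.trans hz))
  have hlw : 0 < Real.log w := Real.log_pos (by linarith)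
  have hb0 : (0 : ℝ) < b := by exact_mod_cast hb
  have e1 : Real.log (Real.log ((w ^ b : ℕ) : ℝ)) = Real.log b + Real.log (Real.log w) := by
    push_cast
    rw [Real.log_pow, Real.log_mul hb0.ne' hlw.ne']
  rw [e1] at h2
  have e2 : (Icc 1 (w ^ b)).filter Nat.Prime = (Icc 1 w).filter Nat.Prime ∪ (Ioc w (w ^ b)).filter Nat.Prime := by
    ext n
    rw [mem_union, mem_filter, mem_filter, mem_filter, mem_Icc, mem_Icc, mem_Ioc]
    constructor
    · rintro ⟨⟨a1, a2⟩, a3⟩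
      by_cases h : n ≤ w
      · exact Or.inl ⟨⟨a1, h⟩, a3⟩
      · exact Or.inr ⟨⟨by omega, a2⟩, a3⟩
    · rintro (⟨⟨a1, a2⟩, a3⟩ | ⟨⟨a1, a2⟩, a3⟩)
      · exact ⟨⟨a1, a2.trans hz⟩, a3⟩
      · exact ⟨⟨by omega, a2⟩, a3⟩
  have e3 : Disjoint ((Icc 1 w).filter Nat.Prime) ((Ioc w (w ^ b)).filter Nat.Prime) := by
    rw [disjoint_left]
    intro n h3 h4
    rw [mem_filter, mem_Icc] at h3
    rw [mem_filter, mem_Ioc] at h4
    omega
  rw [e2, sum_union e3] at h2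
  have e4 : ∑ r ∈ (Ioc w (w ^ b)).filter Nat.Prime, 1 / (r : ℝ) =
      ∑ r ∈ (Ioc w (w ^ b)).filter (fun r : ℕ => r.Prime ∧ ¬ (r : ℤ) ∣ Y), 1 / (r : ℝ) +
      ∑ r ∈ (Ioc w (w ^ b)).filter (fun r : ℕ => r.Prime ∧ (r : ℤ) ∣ Y), 1 / (r : ℝ) := by
    rw [← sum_filter_add_sum_filter_not ((Ioc w (w ^ b)).filter Nat.Prime) (fun r : ℕ => ¬ (r : ℤ) ∣ Y), filter_filter, filter_filter]
    congr 1
    apply sum_congr _ fun _ _ => rfl
    ext r
    simp only [mem_filter, not_not]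
  have e5 : ∑ r ∈ (Ioc w (w ^ b)).filter (fun r : ℕ => r.Prime ∧ (r : ℤ) ∣ Y), 1 / (r : ℝ) ≤ 1 := by
    have c1 : ∀ r ∈ (Ioc w (w ^ b)).filter (fun r : ℕ => r.Prime ∧ (r : ℤ) ∣ Y), 1 / (r : ℝ) ≤ 1 / w := by
      intro r hr
      rw [mem_filter, mem_Ioc] at hr
      apply one_div_le_one_div_of_le (by linarith)
      exact_mod_cast hr.1.1.le
    refine (sum_le_sum c1).trans ?_
    rw [sum_const, nsmul_eq_mul]
    have c2 : ((Ioc w (w ^ b)).filter (fun r : ℕ => r.Prime ∧ (r : ℤ) ∣ Y)).card ≤ Y.natAbs.primeFactors.card := by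
      apply card_le_card
      intro r hr
      rw [mem_filter] at hr
      rw [Nat.mem_primeFactors]
      exact ⟨hr.2.1, Int.natCast_dvd.1 hr.2.2, by rwa [Int.natAbs_ne_zero]⟩
    have c3 := Pool.Agent.N469.SM.omega_le Y.natAbs (Nat.pos_of_ne_zero (by rwa [Int.natAbs_ne_zero]))
    have c4 : (((Ioc w (w ^ b)).filter (fun r : ℕ => r.Prime ∧ (r : ℤ) ∣ Y)).card : ℝ) ≤ Nat.log 2 Y.natAbs := by exact_mod_cast c2.trans c3
    rw [mul_one_div, div_le_one (by linarith)]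
    linarith
  have e6 : ∑ r ∈ (Ioc w (w ^ b)).filter (fun r : ℕ => r.Prime ∧ ¬ (r : ℤ) ∣ Y), 1 / (r : ℝ) ≤
      ∑ r ∈ (Ioc w (w ^ b)).filter (fun r : ℕ => r.Prime ∧ ¬ (r : ℤ) ∣ Y), 1 / ((r : ℝ) - 2) := by
    apply sum_le_sum
    intro r hr
    rw [mem_filter, mem_Ioc] at hr
    have : (w : ℝ) < r := by exact_mod_cast hr.1.1
    exact one_div_le_one_div_of_le (by linarith) (by linarith)
  linarith [h1.1, h1.2, h2.1, h2.2]

theorem exact_of (ε : ℝ) (hε : 0 < ε) (hε1 : ε ≤ 1) (B W : ℕ) : ∃ D N₀ : ℕ, ∀ N, N₀ ≤ N → ∀ Y : ℤ, Odd Y →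
    GoodL (ε / 16) B D W 2 N Y → ExactL ε B W N Y := by
  classical
  obtain ⟨Cm, hCm⟩ := Pool.Agent.Helper256.KM.mertens_inv
  obtain ⟨b, hb⟩ : ∃ b : ℕ, b = ⌈Real.exp (2 * Cm + 1 + 16 / ε)⌉₊ + 1 := ⟨_, rfl⟩
  have hb1 : 1 ≤ b := by omega
  have hlb : 2 * Cm + 1 + 16 / ε ≤ Real.log b := by
    have h1 : Real.exp (2 * Cm + 1 + 16 / ε) ≤ b := by
      rw [hb]
      push_cast
      have := Nat.le_ceil (Real.exp (2 * Cm + 1 + 16 / ε))
      linarith
    have h2 := Real.log_le_log (Real.exp_pos _) h1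
    rwa [Real.log_exp] at h2
  obtain ⟨n1, h1⟩ := ev_L' (Real.log ((2 * B + 1 : ℕ) : ℝ) + 16)
  obtain ⟨n2, h2⟩ := ev_log' (3 * b + W + 2) (8 / ε)
  refine ⟨6 * b, n1 + n2 + 4, fun N hN Y hodd hgood => ?_⟩
  have hL := h1 N (by omega)
  have hs := h2 N (by omega)
  have hN0 : (0 : ℝ) < N := by exact_mod_cast (by omega : 0 < N)
  obtain ⟨L, hLd⟩ : ∃ L, L = Real.log (N : ℝ) := ⟨_, rfl⟩
  intro M M' hM' hB4 hpos hMM'
  unfold GoodL at hgood
  rw [← hLd] at hL hs hgood hMM' ⊢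
  have p1 : 0 ≤ Real.log ((2 * B + 1 : ℕ) : ℝ) := Real.log_natCast_nonneg _
  have hL16 : 16 ≤ L := by linarith
  have hL1 : 1 ≤ L := by linarith
  have hL0 : 0 < L := by linarith
  have hss : √(N : ℝ) * √(N : ℝ) = N := Real.mul_self_sqrt hN0.le
  have hs1 : 1 ≤ √(N : ℝ) := by
    rw [Real.one_le_sqrt]
    exact_mod_cast (by omega : 1 ≤ N)
  have hY0 : Y ≠ 0 := by
    rintro rfl
    simp at hodd
  have hg : Int.gcd 2 Y = 1 := by
    obtain ⟨k, hk⟩ := hodd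
    rw [hk]
    simp
  have hMle : M ≤ M' := by
    have h3 : (M : ℝ) ≤ M' := by
      have : 0 < (N : ℝ) / L ^ W := by positivity
      linarith
    exact_mod_cast h3
  have hwpos : ∀ n ∈ Ioc M M', 0 < 2 * (n : ℤ) + Y := by
    intro n hn
    rw [mem_Ioc] at hn
    omega
  -- parameters
  obtain ⟨w, hw⟩ : ∃ w : ℕ, w = ⌈L ^ 2⌉₊ := ⟨_, rfl⟩
  have hw1 : L ^ 2 ≤ w := by rw [hw]; exact Nat.le_ceil _
  have hw2 : (w : ℝ) ≤ L ^ 3 := by
    have q1 : (w : ℝ) < L ^ 2 + 1 := by rw [hw]; exact Nat.ceil_lt_add_one (by positivity)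
    have q2 : 1 ≤ L ^ 2 := one_le_pow₀ hL1
    have q3 : L ^ 3 = L * L ^ 2 := by ring
    rw [q3]
    nlinarith
  have hw16 : 16 ≤ w := by
    have : (16 : ℝ) ≤ w := by nlinarith
    exact_mod_cast this
  obtain ⟨z, hz⟩ : ∃ z, z = w ^ b := ⟨_, rfl⟩
  have hzL : (z : ℝ) ≤ L ^ (3 * b) := by
    rw [hz, pow_mul]
    push_cast
    exact pow_le_pow_left₀ (Nat.cast_nonneg _) hw2 _
  have hwz : w ≤ z := by rw [hz]; exact Nat.le_self_pow (by omega) w
  obtain ⟨R, hR⟩ : ∃ R, R = (Ioc w z).filter (fun r : ℕ => r.Prime ∧ ¬ (r : ℤ) ∣ Y) := ⟨_, rfl⟩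
  have hRm : ∀ r ∈ R, r.Prime ∧ w < r ∧ r ≤ z ∧ ¬ (r : ℤ) ∣ Y := by
    intro r hr
    rw [hR, mem_filter, mem_Ioc] at hr
    exact ⟨hr.2.1, hr.1.1, hr.1.2, hr.2.2⟩
  have hRc : ∀ r ∈ R, IsCoprime (r : ℤ) (3 * Y) := by
    intro r hr
    obtain ⟨a1, a2, a3, a4⟩ := hRm r hr
    rw [Prime.coprime_iff_not_dvd (Nat.prime_iff_prime_int.1 a1)]
    intro h
    rcases (Nat.prime_iff_prime_int.1 a1).dvd_or_dvd h with h5 | h5
    · have := Int.le_of_dvd (by norm_num) h5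
      omega
    · exact a4 h5
  have hRd : ∀ r ∈ R, ¬ r ∣ (2 * Y).natAbs := by
    intro r hr h
    obtain ⟨a1, a2, a3, a4⟩ := hRm r hr
    have h5 : (r : ℤ) ∣ 2 * Y := Int.natCast_dvd.2 h
    rcases (Nat.prime_iff_prime_int.1 a1).dvd_or_dvd h5 with h6 | h6
    · have := Int.le_of_dvd (by norm_num) h6
      omega
    · exact a4 h6
  have hRo : ∀ r ∈ R, Odd r := by
    intro r hr
    obtain ⟨a1, a2, a3, a4⟩ := hRm r hr
    exact a1.odd_of_ne_two (by omega)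
  -- the sum
  obtain ⟨σ, hσ⟩ : ∃ σ : ℝ, σ = ∑ r ∈ R, 1 / ((r : ℝ) - 2) := ⟨_, rfl⟩
  have hσ1 : 16 / ε ≤ σ := by
    have h3 := sigma_lower Cm hCm w b (by omega) hb1 Y hY0 (by
      have q1 : 2 ^ (Nat.log 2 Y.natAbs) ≤ Y.natAbs := Nat.pow_log_le_self 2 (by rwa [Int.natAbs_ne_zero])
      have q2 : (2 : ℝ) ^ (Nat.log 2 Y.natAbs) ≤ Y.natAbs := by exact_mod_cast q1
      have q3 : (Nat.log 2 Y.natAbs : ℝ) * Real.log 2 ≤ Real.log Y.natAbs := by
        have := Real.log_le_log (by positivity) q2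
        rwa [Real.log_pow] at this
      have q4 : Y.natAbs ≤ (2 * B + 1) * N := by
        have e1 : ((B * N : ℕ) : ℤ) = B * N := by push_cast; ring
        have e2 : (((2 * B + 1) * N : ℕ) : ℤ) = 2 * ((B * N : ℕ) : ℤ) + N := by push_cast; ring
        rw [← e1] at hB4
        omega
      have q5 : Real.log Y.natAbs ≤ Real.log ((2 * B + 1 : ℕ) : ℝ) + L := by
        rw [hLd, ← Real.log_mul (by exact_mod_cast (by omega : (2 * B + 1 : ℕ) ≠ 0)) hN0.ne']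
        apply Real.log_le_log (by exact_mod_cast Nat.pos_of_ne_zero (by rwa [Int.natAbs_ne_zero]))
        exact_mod_cast q4
      have q6 := Real.log_two_gt_d9
      have q7 : (0 : ℝ) ≤ (Nat.log 2 Y.natAbs : ℝ) := Nat.cast_nonneg _
      have q8 : (Nat.log 2 Y.natAbs : ℝ) * 0.69 ≤ (Nat.log 2 Y.natAbs : ℝ) * Real.log 2 := mul_le_mul_of_nonneg_left (by linarith) q7
      have q9 : (Nat.log 2 Y.natAbs : ℝ) ≤ 3 * L := by linarith
      refine q9.trans (le_trans ?_ hw1)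
      nlinarith)
    rw [← hz, ← hR, ← hσ] at h3
    linarith
  have hσ0 : 0 < σ := lt_of_lt_of_le (by positivity) hσ1
  -- the counts
  obtain ⟨S, hS⟩ : ∃ S, S = (Ioc M M').filter (fun n : ℕ => n.Prime ∧ (2 * (n : ℤ) + Y).toNat.Prime) := ⟨_, rfl⟩
  obtain ⟨T, hT⟩ : ∃ T, T = dens 2 Y 1 * (((M' : ℝ) - M) / L ^ 2) := ⟨_, rfl⟩
  rw [← hT]
  have hd1 : dens 2 Y 1 = sing (2 * Y).natAbs := by
    unfold dens
    rw [cnt_one, Nat.cast_one, div_one]
  have hsing := Pool.Agent.W93.GB.one_le_sing (2 * Y).natAbs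
  have hMM0 : (N : ℝ) / L ^ W ≤ (M' : ℝ) - M := by linarith
  have hMM1 : 0 < (M' : ℝ) - M := lt_of_lt_of_le (by positivity) hMM0
  have hT0 : 0 < T := by
    rw [hT, hd1]
    have : 0 < sing (2 * Y).natAbs := by linarith
    positivity
  have hcount : ∀ q : ℕ, 1 ≤ q → (q : ℝ) ≤ L ^ (6 * b) → Odd q → IsCoprime (q : ℤ) (3 * Y) → ∀ G : ℝ, (Cnt q (2 * Y).natAbs : ℝ) * G = 1 →
      |((S.filter (fun n : ℕ => (q : ℤ) ∣ 4 * (n : ℤ) + 3 * Y)).card : ℝ) - T * G| ≤ ε / 16 * (T * G) := by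
    intro q hq hqL hqo hqc G hG
    obtain ⟨x₀, c1, c2, c3⟩ := third_class q Y hq hqo hqc
    have hkey := hgood q x₀ M M' hq hqL c1 c2 hM' hMM' hwpos
    have e1 : cpw 2 Y q x₀ M M' = (S.filter (fun n : ℕ => (q : ℤ) ∣ 4 * (n : ℤ) + 3 * Y)).card := by
      unfold cpw
      rw [hS, filter_filter]
      congr 1
      ext n
      rw [mem_filter, mem_filter, c3 n]
      tauto
    have e2 : dens 2 Y q * (((M' : ℝ) - M) / L ^ 2) = T * G := by
      have hc0 : (Cnt q (2 * Y).natAbs : ℝ) ≠ 0 := by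
        intro h0
        rw [h0, zero_mul] at hG
        exact zero_ne_one hG
      have hG' : G = 1 / (Cnt q (2 * Y).natAbs : ℝ) := by
        rw [eq_div_iff hc0, mul_comm]
        exact hG
      rw [hT, hd1, hG']
      unfold dens
      ring
    rw [e1, e2] at hkey
    exact hkey
  have hS0 : |(S.card : ℝ) - T| ≤ ε / 16 * T := by
    have h3 := hcount 1 le_rfl (by rw [Nat.cast_one]; exact one_le_pow₀ hL1) odd_one (by rw [Nat.cast_one]; exact isCoprime_one_left) 1 (by rw [cnt_one]; simp)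
    have e1 : S.filter (fun n : ℕ => ((1 : ℕ) : ℤ) ∣ 4 * (n : ℤ) + 3 * Y) = S := by
      apply filter_true_of_mem
      intro n _
      simp
    rw [e1, mul_one] at h3
    exact h3
  have hzz : (z : ℝ) * z ≤ L ^ (6 * b) := by
    calc (z : ℝ) * z ≤ L ^ (3 * b) * L ^ (3 * b) := mul_le_mul hzL hzL (Nat.cast_nonneg _) (by positivity)
      _ = L ^ (6 * b) := by rw [← pow_add]; congr 1; ring
  have hz1 : (1 : ℝ) ≤ z := by exact_mod_cast (by omega : 1 ≤ z)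
  have htur := turan S R (fun r (n : ℕ) => (r : ℤ) ∣ 4 * (n : ℤ) + 3 * Y) (fun r => 1 / ((r : ℝ) - 2)) T (ε / 16) hT0.le (by positivity)
    (by linarith) (by
      intro r hr
      beta_reduce
      have : (w : ℝ) < r := by exact_mod_cast (hRm r hr).2.1
      have h16 : (16 : ℝ) ≤ w := by exact_mod_cast hw16
      apply div_nonneg zero_le_one
      linarith) (by
      have := (abs_le.1 hS0).2
      linarith) (by
      intro r hr
      beta_reduce
      obtain ⟨a1, a2, a3, a4⟩ := hRm r hr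
      have hr2 : (w : ℝ) < r := by exact_mod_cast a2
      have h16 : (16 : ℝ) ≤ w := by exact_mod_cast hw16
      have hrz : (r : ℝ) ≤ z := by exact_mod_cast a3
      have h3 := hcount r a1.one_le (by nlinarith) (hRo r hr) (hRc r hr) (1 / ((r : ℝ) - 2)) (by
        rw [cnt_r r _ a1 (hRd r hr), mul_one_div, div_self (by linarith)])
      have h4 := (abs_le.1 h3).1
      have e : (1 - ε / 16) * T * (1 / ((r : ℝ) - 2)) = T * (1 / ((r : ℝ) - 2)) - ε / 16 * (T * (1 / ((r : ℝ) - 2))) := by ring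
      rw [e]
      linarith) (by
      intro r hr
      beta_reduce
      obtain ⟨a1, a2, a3, a4⟩ := hRm r hr
      have hr2 : (w : ℝ) < r := by exact_mod_cast a2
      have h16 : (16 : ℝ) ≤ w := by exact_mod_cast hw16
      have hrz : (r : ℝ) ≤ z := by exact_mod_cast a3
      have h3 := hcount r a1.one_le (by nlinarith) (hRo r hr) (hRc r hr) (1 / ((r : ℝ) - 2)) (by
        rw [cnt_r r _ a1 (hRd r hr), mul_one_div, div_self (by linarith)])
      have h4 := (abs_le.1 h3).2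
      have e : (1 + ε / 16) * T * (1 / ((r : ℝ) - 2)) = T * (1 / ((r : ℝ) - 2)) + ε / 16 * (T * (1 / ((r : ℝ) - 2))) := by ring
      rw [e]
      linarith) (by
      intro r hr s hs' hne
      beta_reduce
      obtain ⟨a1, a2, a3, a4⟩ := hRm r hr
      obtain ⟨b1, b2, b3, b4⟩ := hRm s hs'
      have hr2 : (w : ℝ) < r := by exact_mod_cast a2
      have hs2 : (w : ℝ) < s := by exact_mod_cast b2
      have h16 : (16 : ℝ) ≤ w := by exact_mod_cast hw16
      have hrz : (r : ℝ) ≤ z := by exact_mod_cast a3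
      have hsz : (s : ℝ) ≤ z := by exact_mod_cast b3
      have hcop : IsCoprime (r : ℤ) (s : ℤ) := Nat.isCoprime_iff_coprime.2 ((Nat.coprime_primes a1 b1).2 hne)
      have h3 := hcount (r * s) (Nat.mul_pos a1.pos b1.pos) (by
        push_cast
        calc (r : ℝ) * s ≤ z * z := mul_le_mul hrz hsz (Nat.cast_nonneg _) (Nat.cast_nonneg _)
          _ ≤ _ := hzz) ((hRo r hr).mul (hRo s hs')) (by
        push_cast
        exact (hRc r hr).mul_left (hRc s hs')) (1 / ((r : ℝ) - 2) * (1 / ((s : ℝ) - 2))) (by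
        rw [cnt_rr r s _ a1 b1 hne (hRd r hr) (hRd s hs')]
        have c1 : (r : ℝ) - 2 ≠ 0 := by linarith
        have c2 : (s : ℝ) - 2 ≠ 0 := by linarith
        field_simp)
      have h4 := (abs_le.1 h3).2
      have e0 : S.filter (fun n : ℕ => (r : ℤ) ∣ 4 * (n : ℤ) + 3 * Y ∧ (s : ℤ) ∣ 4 * (n : ℤ) + 3 * Y) =
          S.filter (fun n : ℕ => ((r * s : ℕ) : ℤ) ∣ 4 * (n : ℤ) + 3 * Y) := by
        apply filter_congr
        intro n _
        push_cast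
        constructor
        · rintro ⟨d1, d2⟩
          exact hcop.mul_dvd d1 d2
        · intro d
          exact ⟨(dvd_mul_right _ _).trans d, (dvd_mul_left _ _).trans d⟩
      rw [e0]
      have e : (1 + ε / 16) * T * (1 / ((r : ℝ) - 2) * (1 / ((s : ℝ) - 2))) = T * (1 / ((r : ℝ) - 2) * (1 / ((s : ℝ) - 2))) +
        ε / 16 * (T * (1 / ((r : ℝ) - 2) * (1 / ((s : ℝ) - 2)))) := by ring
      rw [e]
      linarith)
  beta_reduce at htur
  rw [← hσ] at htur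
  obtain ⟨Z, hZ⟩ : ∃ Z : ℝ, Z = ((S.filter (fun n : ℕ => ∀ r ∈ R, ¬ (r : ℤ) ∣ 4 * (n : ℤ) + 3 * Y)).card : ℝ) := ⟨_, rfl⟩
  have hZ1 : Z ≤ T * (3 * ε / 8) := by
    have h3 : σ ^ 2 * Z ≤ σ ^ 2 * (T * (3 * ε / 8)) := by
      refine le_trans (le_trans (le_of_eq ?_) htur) ?_
      · rw [hZ]
      · have h4 : 16 ≤ ε * σ := by
          rw [div_le_iff₀ hε] at hσ1
          linarith
        have h5 : T * (2 * σ + 4 * (ε / 16) * σ ^ 2) ≤ T * (σ ^ 2 * (3 * ε / 8)) := by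
          apply mul_le_mul_of_nonneg_left _ hT0.le
          have h6 : 16 * σ ≤ ε * σ * σ := mul_le_mul_of_nonneg_right h4 hσ0.le
          nlinarith
        linarith
    exact le_of_mul_le_mul_left h3 (by positivity)
  -- small values
  have hzT : (z : ℝ) ≤ ε / 8 * T := by
    have h3 : N / L ^ (W + 2) ≤ T := by
      rw [hT, hd1]
      calc (N : ℝ) / L ^ (W + 2) = 1 * ((N / L ^ W) / L ^ 2) := by rw [pow_add]; field_simp
        _ ≤ sing (2 * Y).natAbs * (((M' : ℝ) - M) / L ^ 2) := by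
            apply mul_le_mul hsing _ (by positivity) (by linarith)
            exact div_le_div_of_nonneg_right hMM0 (by positivity)
    have h4 : (z : ℝ) ≤ ε / 8 * (N / L ^ (W + 2)) := by
      rw [← mul_div_assoc, le_div_iff₀ (by positivity)]
      have h5 : 8 / ε * L ^ (3 * b + W + 2) ≤ N := by nlinarith
      rw [div_mul_eq_mul_div, div_le_iff₀ hε] at h5
      calc (z : ℝ) * L ^ (W + 2) ≤ L ^ (3 * b) * L ^ (W + 2) := mul_le_mul_of_nonneg_right hzL (by positivity)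
        _ = L ^ (3 * b + W + 2) := by rw [← pow_add]; rfl
        _ ≤ ε / 8 * N := by linarith
    refine h4.trans (mul_le_mul_of_nonneg_left h3 (by positivity))
  -- the three sets
  obtain ⟨E, hE⟩ : ∃ E, E = (Ioc M M').filter (fun n : ℕ => n.Prime ∧ (2 * (n : ℤ) + Y).toNat.Prime ∧ 1 < 4 * (n : ℤ) + 3 * Y ∧
    ¬ (4 * (n : ℤ) + 3 * Y).toNat.Prime) := ⟨_, rfl⟩
  have hexE : ex Y M M' = E.card := by rw [hE]; rfl
  have hES : E ⊆ S := by
    intro n hn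
    rw [hE, mem_filter] at hn
    rw [hS, mem_filter]
    exact ⟨hn.1, hn.2.1, hn.2.2.1⟩
  have hcov : S ⊆ (E ∪ S.filter (fun n : ℕ => ∀ r ∈ R, ¬ (r : ℤ) ∣ 4 * (n : ℤ) + 3 * Y)) ∪ (Ioc M M').filter (fun n : ℕ => 4 * (n : ℤ) + 3 * Y ≤ z) := by
    intro n hn
    rw [mem_union, mem_union]
    by_cases c1 : 4 * (n : ℤ) + 3 * Y ≤ z
    · right
      rw [mem_filter]
      refine ⟨?_, c1⟩
      rw [hS, mem_filter] at hn
      exact hn.1
    · left
      by_cases c2 : ∀ r ∈ R, ¬ (r : ℤ) ∣ 4 * (n : ℤ) + 3 * Y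
      · right
        rw [mem_filter]
        exact ⟨hn, c2⟩
      · left
        push Not at c2
        obtain ⟨r, hr, hd⟩ := c2
        obtain ⟨a1, a2, a3, a4⟩ := hRm r hr
        rw [hS, mem_filter] at hn
        rw [hE, mem_filter]
        refine ⟨hn.1, hn.2.1, hn.2.2, by omega, fun hp => ?_⟩
        have h3 : r ∣ (4 * (n : ℤ) + 3 * Y).toNat := by
          have h4 : (((4 * (n : ℤ) + 3 * Y).toNat : ℕ) : ℤ) = 4 * (n : ℤ) + 3 * Y := Int.toNat_of_nonneg (by omega)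
          rw [← h4] at hd
          exact_mod_cast hd
        rcases (Nat.dvd_prime hp).1 h3 with h4 | h4
        · exact a1.one_lt.ne' h4
        · omega
  have hsm : ((Ioc M M').filter (fun n : ℕ => 4 * (n : ℤ) + 3 * Y ≤ z)).card ≤ z := by
    have h3 : ((Ioc M M').filter (fun n : ℕ => 4 * (n : ℤ) + 3 * Y ≤ z)).card ≤ (Icc 1 z).card := by
      apply card_le_card_of_injOn (fun n : ℕ => (4 * (n : ℤ) + 3 * Y).toNat)
      · intro n hn
        simp only [coe_filter, mem_Ioc, Set.mem_ofPred_eq] at hn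
        rw [mem_coe, mem_Icc]
        simp only
        omega
      · intro n hn m hm hnm
        simp only [coe_filter, mem_Ioc, Set.mem_ofPred_eq] at hn hm
        simp only at hnm
        omega
    rw [Nat.card_Icc] at h3
    omega
  have hc1 := (card_le_card hcov).trans ((card_union_le _ _).trans (add_le_add (card_union_le _ _) hsm))
  have hc2 : (S.card : ℝ) ≤ E.card + Z + z := by
    rw [hZ]
    exact_mod_cast hc1
  have hc3 : (E.card : ℝ) ≤ S.card := by exact_mod_cast card_le_card hES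
  rw [hexE]
  have hS1 := abs_le.1 hS0
  rw [abs_le]
  have hT1 : 0 ≤ ε * T := by positivity
  constructor <;> nlinarith [hS1.1, hS1.2]

end Pool.Agent.N469.LP
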