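import Pool.Agent.N469.LP.Lin

set_option autoImplicit false

/-! From a grid to all windows on which the linear form is positive. -/

namespace Pool.Agent.N469.LP
open Finset
open Pool.Agent.H373R2.T7
open Pool.Agent.W93.PP (MT PS mem_PS Cnt MT_sing)
open Pool.Agent.H560R3.GB (sing)

/-- the sum of `F (C n + Y)` along the primes of a progression -/
noncomputable def GS (F : ℤ → ℝ) (C Y : ℤ) (q x₀ t : ℕ) : ℝ :=
  ∑ n ∈ Icc 1 t, (if n ≡ x₀ [MOD q] then ArithmeticFunction.vonMangoldt n else 0) * F (C * (n : ℤ) + Y)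

/-- the model without the condition of positivity -/
noncomputable def hhI (z : ℕ) (k : ℤ) : ℝ := if ∀ p ∈ pz z, ¬ (p : ℤ) ∣ k then (Vz z)⁻¹ else 0

lemma HH_GS (C Y : ℤ) (z q x₀ t : ℕ) : HH C Y z q x₀ t = GS (hhI z) C Y q x₀ t := rfl

lemma lamz_hh (z : ℕ) (k : ℤ) (hk : 1 ≤ k) : lamzI z k = hhI z k := by
  unfold lamzI hhI lamz
  rw [if_pos hk]
  have e : (∀ p ∈ pz z, ¬ p ∣ k.toNat) ↔ ∀ p ∈ pz z, ¬ (p : ℤ) ∣ k := by
    have h1 : ((k.toNat : ℕ) : ℤ) = k := Int.toNat_of_nonneg (by omega)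
    constructor
    · intro h p hp hd
      apply h p hp
      rw [← h1] at hd
      exact_mod_cast hd
    · intro h p hp hd
      apply h p hp
      rw [← h1]
      exact_mod_cast hd
  by_cases h : ∀ p ∈ pz z, ¬ (p : ℤ) ∣ k
  · rw [if_pos h, if_pos (e.2 h)]
  · rw [if_neg h, if_neg (fun h' => h (e.1 h'))]

lemma lamz_le_hh (z : ℕ) (k : ℤ) : lamzI z k ≤ hhI z k := by
  rcases lt_or_ge k 1 with h | h
  · unfold lamzI
    rw [if_neg (by omega)]
    unfold hhI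
    split_ifs
    · exact (inv_pos.2 (Vz_pos z)).le
    · exact le_rfl
  · rw [lamz_hh z k h]

lemma Icc_eq (t : ℕ) : Icc 1 t = Ioc 0 t := by
  ext n
  rw [mem_Icc, mem_Ioc]
  omega

lemma GS_sub (F : ℤ → ℝ) (C Y : ℤ) (q x₀ : ℕ) {a b : ℕ} (hab : a ≤ b) : GS F C Y q x₀ b - GS F C Y q x₀ a =
    ∑ n ∈ Ioc a b, (if n ≡ x₀ [MOD q] then ArithmeticFunction.vonMangoldt n else 0) * F (C * (n : ℤ) + Y) := by
  unfold GS
  rw [Icc_eq, Icc_eq, ← sum_Ioc_consecutive _ (Nat.zero_le a) hab]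
  ring

lemma w_nonneg (q x₀ n : ℕ) : (0 : ℝ) ≤ (if n ≡ x₀ [MOD q] then ArithmeticFunction.vonMangoldt n else 0) := by
  split_ifs
  · exact ArithmeticFunction.vonMangoldt_nonneg
  · exact le_rfl

lemma GS_le (F F' : ℤ → ℝ) (C Y : ℤ) (q x₀ : ℕ) {a b : ℕ} (hab : a ≤ b) (h : ∀ n ∈ Ioc a b, F (C * (n : ℤ) + Y) ≤ F' (C * (n : ℤ) + Y)) :
    GS F C Y q x₀ b - GS F C Y q x₀ a ≤ GS F' C Y q x₀ b - GS F' C Y q x₀ a := by
  rw [GS_sub F C Y q x₀ hab, GS_sub F' C Y q x₀ hab]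
  exact sum_le_sum fun n hn => mul_le_mul_of_nonneg_left (h n hn) (w_nonneg q x₀ n)

lemma GS_mono (F : ℤ → ℝ) (hF : ∀ k, 0 ≤ F k) (C Y : ℤ) (q x₀ : ℕ) {a b : ℕ} (hab : a ≤ b) : GS F C Y q x₀ a ≤ GS F C Y q x₀ b := by
  have h := GS_sub F C Y q x₀ hab
  have h2 : 0 ≤ ∑ n ∈ Ioc a b, (if n ≡ x₀ [MOD q] then ArithmeticFunction.vonMangoldt n else 0) * F (C * (n : ℤ) + Y) :=
    sum_nonneg fun n _ => mul_nonneg (w_nonneg q x₀ n) (hF _)
  linarith

/-- from a grid to windows -/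
theorem window (C Y : ℤ) (z q x₀ X s : ℕ) (hs : 1 ≤ s) (E E' mt : ℝ) (hmt : 0 ≤ mt) (hE : 0 ≤ E) (hE' : 0 ≤ E')
    (h1 : ∀ i : ℕ, i * s ≤ X → |GS lamI C Y q x₀ (i * s) - GS (lamzI z) C Y q x₀ (i * s)| ≤ E)
    (h2 : ∀ t : ℕ, t ≤ X → |GS (hhI z) C Y q x₀ t - mt * t| ≤ E')
    (M M' : ℕ) (hM : M ≤ M') (hX : M' + s ≤ X) (hpos : ∀ n ∈ Ioc M M', 0 < C * (n : ℤ) + Y) :
    |GS lamI C Y q x₀ M' - GS lamI C Y q x₀ M - mt * ((M' : ℝ) - M)| ≤ 2 * s * mt + 2 * E + 2 * E' := by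
  have hs0 : (0 : ℝ) < s := by exact_mod_cast hs
  have hMr : (M : ℝ) ≤ M' := by exact_mod_cast hM
  -- division facts
  have d1 : M / s * s ≤ M := Nat.div_mul_le_self M s
  have d2 : M < (M / s + 1) * s := by
    have := Nat.lt_div_mul_add (a := M) (b := s) (by omega)
    linarith
  have d3 : M' / s * s ≤ M' := Nat.div_mul_le_self M' s
  have d4 : M' < (M' / s + 1) * s := by
    have := Nat.lt_div_mul_add (a := M') (b := s) (by omega)
    linarith
  have hle : M / s ≤ M' / s := Nat.div_le_div_right hM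
  obtain ⟨a, ha⟩ : ∃ a, a = M / s := ⟨_, rfl⟩
  obtain ⟨b, hb⟩ : ∃ b, b = M' / s := ⟨_, rfl⟩
  rw [← ha] at d1 d2 hle
  rw [← hb] at d3 d4 hle
  have r1 : (a : ℝ) * s ≤ M := by exact_mod_cast d1
  have r2 : (M : ℝ) < (a + 1) * s := by exact_mod_cast d2
  have r3 : (b : ℝ) * s ≤ M' := by exact_mod_cast d3
  have r4 : (M' : ℝ) < (b + 1) * s := by exact_mod_cast d4
  have hbX : (b + 1) * s ≤ X := by
    have : (b + 1) * s = b * s + s := by ring
    omega
  have habs := fun (u v : ℕ) (hu : u * s ≤ X) (hv : v * s ≤ X) => And.intro (abs_le.1 (h1 u hu)) (abs_le.1 (h1 v hv))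
  -- the upper bound
  have up : GS lamI C Y q x₀ M' - GS lamI C Y q x₀ M ≤ mt * ((M' : ℝ) - M) + (2 * s * mt + 2 * E + 2 * E') := by
    have m1 := GS_mono lamI lamI_nonneg C Y q x₀ (show M' ≤ (b + 1) * s by omega)
    have m2 := GS_mono lamI lamI_nonneg C Y q x₀ (show a * s ≤ M from d1)
    have hab : a * s ≤ (b + 1) * s := Nat.mul_le_mul_right _ (by omega)
    have m3 := GS_le (lamzI z) (hhI z) C Y q x₀ hab (fun n _ => lamz_le_hh z _)
    obtain ⟨⟨k1, k2⟩, k3, k4⟩ := habs a (b + 1) (hab.trans hbX) hbX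
    have k5 := abs_le.1 (h2 (a * s) (hab.trans hbX))
    have k6 := abs_le.1 (h2 ((b + 1) * s) hbX)
    push_cast at k5 k6
    have k7 : mt * (((b : ℝ) + 1) * s) - mt * (a * s) ≤ mt * ((M' : ℝ) - M) + 2 * s * mt := by
      have : ((b : ℝ) + 1) * s - a * s ≤ (M' - M) + 2 * s := by
        have e1 : ((b : ℝ) + 1) * s = b * s + s := by ring
        have e2 : ((a : ℝ) + 1) * s = a * s + s := by ring
        linarith
      have k8 := mul_le_mul_of_nonneg_left this hmt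
      linarith
    linarith [k5.1, k5.2, k6.1, k6.2]
  have lo : mt * ((M' : ℝ) - M) - (2 * s * mt + 2 * E + 2 * E') ≤ GS lamI C Y q x₀ M' - GS lamI C Y q x₀ M := by
    rcases Nat.lt_or_ge b (a + 1) with hba | hba
    · -- a short window
      have m1 := GS_mono lamI lamI_nonneg C Y q x₀ hM
      have hba' : b = a := by omega
      have k1 : (M' : ℝ) - M ≤ 2 * s := by
        rw [hba'] at r4
        have e2 : ((a : ℝ) + 1) * s = a * s + s := by ring
        linarith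
      have k2 := mul_le_mul_of_nonneg_left k1 hmt
      linarith
    · have m1 := GS_mono lamI lamI_nonneg C Y q x₀ (show b * s ≤ M' from d3)
      have m2 := GS_mono lamI lamI_nonneg C Y q x₀ (show M ≤ (a + 1) * s by omega)
      have hab : (a + 1) * s ≤ b * s := Nat.mul_le_mul_right _ hba
      have m3 := GS_le (hhI z) (lamzI z) C Y q x₀ hab (fun n hn => by
        rw [mem_Ioc] at hn
        have h5 := hpos n (mem_Ioc.2 ⟨by omega, by omega⟩)
        exact (lamz_hh z _ (by omega)).ge)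
      have hbX' : b * s ≤ X := by omega
      obtain ⟨⟨k1, k2⟩, k3, k4⟩ := habs (a + 1) b (hab.trans hbX') hbX'
      have k5 := abs_le.1 (h2 ((a + 1) * s) (hab.trans hbX'))
      have k6 := abs_le.1 (h2 (b * s) hbX')
      push_cast at k5 k6
      have k7 : mt * ((M' : ℝ) - M) - 2 * s * mt ≤ mt * ((b : ℝ) * s) - mt * ((a + 1) * s) := by
        have : (M' - M : ℝ) - 2 * s ≤ (b : ℝ) * s - (a + 1) * s := by
          have e1 : ((b : ℝ) + 1) * s = b * s + s := by ring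
          have e2 : ((a : ℝ) + 1) * s = a * s + s := by ring
          linarith
        have k8 := mul_le_mul_of_nonneg_left this hmt
        linarith
      linarith [k5.1, k5.2, k6.1, k6.2]
  rw [abs_le]
  constructor <;> linarith

end Pool.Agent.N469.LP
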