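import Pool.Agent.N469.LP.RepZ
import Pool.Agent.N469.LP.Win
import Pool.Agent.N469.LP.Cnt

set_option autoImplicit false

/-! Prime pairs `p`, `C p + Y` in progressions and windows, for all the `Y` near almost all smooth numbers. -/

namespace Pool.Agent.N469.LP
open Finset
open Pool.Agent.H373R2.T7
open Pool.Agent.N469.TL
open Pool.Agent.W93.PP (MT PS mem_PS Cnt MT_sing cnt_eq)
open Pool.Agent.H560R3.GB (sing)
open Pool.Agent.N469.SM (SS mem_SS one_mem_SS SS_mono card_SS_le card_SS_pos)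

/-- the number of primes `p` with `M < p ≤ M'`, `p ≡ x₀ mod q` and `C p + Y` prime -/
def cpw (C Y : ℤ) (q x₀ M M' : ℕ) : ℕ :=
  ((Ioc M M').filter fun n : ℕ => n.Prime ∧ n ≡ x₀ [MOD q] ∧ (C * (n : ℤ) + Y).toNat.Prime).card

/-- the density -/
noncomputable def dens (C Y : ℤ) (q : ℕ) : ℝ := sing (C * Y).natAbs / Cnt q (C * Y).natAbs

/-- all the windows and progressions are as they should be -/
def GoodL (ε : ℝ) (Bc Bq Bw : ℕ) (C : ℤ) (N : ℕ) (Y : ℤ) : Prop :=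
  ∀ q x₀ M M' : ℕ, 1 ≤ q → (q : ℝ) ≤ Real.log N ^ Bq → Nat.Coprime x₀ q → Int.gcd (C * x₀ + Y) q = 1 → M' ≤ Bc * N →
    (M : ℝ) + N / Real.log N ^ Bw ≤ M' → (∀ n ∈ Ioc M M', 0 < C * (n : ℤ) + Y) →
    |(cpw C Y q x₀ M M' : ℝ) - dens C Y q * (((M' : ℝ) - M) / Real.log N ^ 2)| ≤ ε * (dens C Y q * (((M' : ℝ) - M) / Real.log N ^ 2))

lemma cnt_pos (q h : ℕ) (hq : 1 ≤ q) (h2 : 2 ∣ h) : 0 < Cnt q h := by
  have h1 := cnt_eq q h hq
  have h3 : 0 < (Nat.totient q : ℝ) * ∏ p ∈ q.primeFactors, (if p ∣ h then 1 else (1 - 1 / ((p : ℝ) - 1))) := by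
    apply mul_pos
    · exact_mod_cast Nat.totient_pos.2 hq
    · apply prod_pos
      intro p hp
      split_ifs with h4
      · norm_num
      · have hpp := Nat.prime_of_mem_primeFactors hp
        have h5 : p ≠ 2 := fun h6 => h4 (by rw [h6]; exact h2)
        have h6 : 3 ≤ p := by
          have := hpp.two_le
          omega
        have h7 : (3 : ℝ) ≤ p := by exact_mod_cast h6
        have h8 : 1 / ((p : ℝ) - 1) < 1 := by
          rw [div_lt_one (by linarith)]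
          linarith
        linarith
  rw [← h1] at h3
  exact_mod_cast h3

lemma cnt_le (q h : ℕ) : Cnt q h ≤ q := by
  unfold Cnt
  exact (card_filter_le _ _).trans (by rw [card_range])

lemma cpw_eq (C Y : ℤ) (q x₀ M M' : ℕ) : cpw C Y q x₀ M M' = cp C Y ((Ioc M M').filter (fun n => n ≡ x₀ [MOD q])) := by
  unfold cpw cp
  rw [filter_filter]
  congr 1
  ext n
  simp only [mem_filter]
  tauto

lemma mod_iff (q x₀ n : ℕ) : n ≡ x₀ [MOD q] ↔ n ≡ x₀ % q [MOD q] := by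
  have h := Nat.mod_modEq x₀ q
  exact ⟨fun h1 => h1.trans h.symm, fun h1 => h1.trans h⟩

lemma GS_mod (F : ℤ → ℝ) (C Y : ℤ) (q x₀ t : ℕ) : GS F C Y q x₀ t = GS F C Y q (x₀ % q) t := by
  unfold GS
  apply sum_congr rfl
  intro n _
  by_cases h : n ≡ x₀ [MOD q]
  · rw [if_pos h, if_pos ((mod_iff q x₀ n).1 h)]
  · rw [if_neg h, if_neg (fun h' => h ((mod_iff q x₀ n).2 h'))]

lemma fin_calc (ε η F e x : ℝ) (hη : 0 < η) (hη1 : η ≤ 1 / 8) (hηε : 8 * η ≤ ε) (hF0 : 0 < F) (heF : 3 * e ≤ 3 * η * F)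
    (g1' : F - 3 * e ≤ (1 + η) * x) (g2' : (1 - η) * x ≤ F + 3 * e) : |x - F| ≤ ε * F := by
  have hx1 : (1 - 4 * η) * F ≤ x := by
    have q1 : (1 - 3 * η) * F ≤ (1 + η) * x := by linarith
    have q2 : (1 + η) * ((1 - 4 * η) * F) ≤ (1 + η) * x := by
      refine le_trans ?_ q1
      have : (1 + η) * ((1 - 4 * η) * F) = (1 - 3 * η) * F - 4 * η ^ 2 * F := by ring
      rw [this]
      have : 0 ≤ 4 * η ^ 2 * F := by positivity
      linarith
    exact le_of_mul_le_mul_left q2 (by linarith)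
  have hx2 : x ≤ (1 + 8 * η) * F := by
    have q1 : (1 - η) * x ≤ (1 + 3 * η) * F := by linarith
    have q2 : (1 - η) * x ≤ (1 - η) * ((1 + 8 * η) * F) := by
      refine q1.trans ?_
      have : (1 - η) * ((1 + 8 * η) * F) = (1 + 3 * η) * F + (4 * η - 8 * η ^ 2) * F := by ring
      rw [this]
      have : 0 ≤ (4 * η - 8 * η ^ 2) * F := mul_nonneg (by nlinarith) hF0.le
      linarith
    exact le_of_mul_le_mul_left q2 (by linarith)
  have q9 : 8 * η * F ≤ ε * F := mul_le_mul_of_nonneg_right hηε hF0.le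
  rw [abs_le]
  have q10 : 0 ≤ η * F := by positivity
  constructor <;> linarith

theorem det_good (ε : ℝ) (hε : 0 < ε) (C : ℤ) (hC : C ≠ 0) (Bc Bq Bw E1 : ℕ) (hE1 : Bq + Bw + 8 ≤ E1) : ∃ N₀ : ℕ, ∀ N : ℕ, N₀ ≤ N →
    ∀ z : ℕ, Real.log N ^ E1 ≤ z → (z : ℝ) ≤ Real.log N ^ (E1 + 1) →
    ∀ T : ℕ, Real.log N ^ (Bq + Bw + 6) ≤ T →
    ∀ Y : ℤ, Y ≠ 0 → Int.gcd C Y = 1 → 2 ∣ C * Y → |Y| ≤ Bc * N →
    (∀ q x₀ i : ℕ, 1 ≤ q → (q : ℝ) ≤ Real.log N ^ Bq → x₀ < q → i * (N / T + 1) ≤ (Bc + 1) * N →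
      |GS lamI C Y q x₀ (i * (N / T + 1)) - GS (lamzI z) C Y q x₀ (i * (N / T + 1))| ≤ N / Real.log N ^ (Bq + Bw + 4)) →
    GoodL ε Bc Bq Bw C N Y := by
  classical
  obtain ⟨η, hηd⟩ : ∃ η : ℝ, η = min ε 1 / 8 := ⟨_, rfl⟩
  have hη : 0 < η := by rw [hηd]; positivity
  have hη1 : η ≤ 1 / 8 := by
    rw [hηd]
    have := min_le_right ε 1
    linarith
  have hηε : 8 * η ≤ ε := by
    rw [hηd]
    have := min_le_left ε 1
    linarith
  obtain ⟨J, hJ⟩ : ∃ J, J = Bq + Bw + 3 := ⟨_, rfl⟩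
  obtain ⟨B, hB⟩ : ∃ B : ℕ, B = Bc + C.natAbs * Bc + Bc + 1 := ⟨_, rfl⟩
  obtain ⟨n1, h1⟩ := asym η hη (by linarith) B J (by omega)
  obtain ⟨n2, h2⟩ := HH_main (Bc + 1) (E1 + 1) Bq (J + 1)
  obtain ⟨n3, h3⟩ := Vz_inv_small (E1 + 1)
  obtain ⟨n4, h4⟩ := ev_L' (3 / η + (Bc : ℝ) + 4 * Real.log ((C.natAbs * Bc + 1 : ℕ) : ℝ) + 16)
  obtain ⟨n5, h5⟩ := ev_log' (J + 3) 1
  refine ⟨n1 + n2 + n3 + n4 + n5 + 4, fun N hN z hz1 hz2 T hT Y hY0 hg h2d hY hyp => ?_⟩
  have k1 := h1 N (by omega)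
  have k2 := h2 N (by omega) z
  have k3 := h3 N (by omega) z
  have hL := h4 N (by omega)
  have k5 := h5 N (by omega)
  have hN0 : (0 : ℝ) < N := by exact_mod_cast (by omega : 0 < N)
  obtain ⟨L, hLd⟩ : ∃ L, L = Real.log (N : ℝ) := ⟨_, rfl⟩
  unfold GoodL
  rw [one_mul] at k5
  have hJ4 : Bq + Bw + 4 = J + 1 := by omega
  have hJ6 : Bq + Bw + 6 = J + 3 := by omega
  rw [hJ4] at hyp
  rw [hJ6] at hT
  rw [← hLd] at hz1 hz2 hT hyp k1 k2 k3 hL k5 ⊢
  have p1 : 0 ≤ 3 / η := by positivity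
  have p2 : (0 : ℝ) ≤ Bc := Nat.cast_nonneg _
  have p3 : 0 ≤ Real.log ((C.natAbs * Bc + 1 : ℕ) : ℝ) := Real.log_natCast_nonneg _
  have hL16 : 16 ≤ L := by linarith
  have hL1 : 1 ≤ L := by linarith
  have hL0 : 0 < L := by linarith
  have hss : √(N : ℝ) * √(N : ℝ) = N := Real.mul_self_sqrt hN0.le
  have hs0 : 0 < √(N : ℝ) := Real.sqrt_pos.2 hN0
  have hz0 : (1 : ℝ) ≤ z := (one_le_pow₀ hL1).trans hz1
  have hzn : 1 ≤ z := by exact_mod_cast hz0
  have hV := k3 hzn hz2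
  have hT0 : (1 : ℝ) ≤ T := (one_le_pow₀ hL1).trans hT
  have hTn : 1 ≤ T := by exact_mod_cast hT0
  intro q x₀ M M' hq hqB hx₀ hxY hM' hMM hpos
  have hMM0 : (0 : ℝ) < N / L ^ Bw := by positivity
  have hMle : M ≤ M' := by
    have : (M : ℝ) ≤ M' := by linarith
    exact_mod_cast this
  obtain ⟨h, hh⟩ : ∃ h, h = (C * Y).natAbs := ⟨_, rfl⟩
  have hh2 : 2 ∣ h := by
    rw [hh]
    exact Int.natCast_dvd.1 (by exact_mod_cast h2d)
  have hh0 : h ≠ 0 := by
    rw [hh, Int.natAbs_ne_zero]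
    exact mul_ne_zero hC hY0
  have hc := cnt_pos q h hq hh2
  -- reduce the class
  obtain ⟨x₁, hx₁⟩ : ∃ x₁, x₁ = x₀ % q := ⟨_, rfl⟩
  have hx₁q : x₁ < q := by rw [hx₁]; exact Nat.mod_lt _ (by omega)
  have hx₁c : Nat.Coprime x₁ q := by
    have := (Nat.mod_modEq x₀ q).gcd_eq
    rw [← hx₁] at this
    unfold Nat.Coprime at hx₀ ⊢
    rw [this, hx₀]
  have hx₁Y : Int.gcd (C * x₁ + Y) q = 1 := by
    have e : C * (x₀ : ℤ) + Y = (C * x₁ + Y) + (q : ℤ) * (C * (x₀ / q : ℕ)) := by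
      have e1 : (x₀ : ℤ) = (x₁ : ℤ) + q * ((x₀ / q : ℕ) : ℤ) := by
        rw [hx₁]
        exact_mod_cast (Nat.mod_add_div x₀ q).symm
      conv_lhs => rw [e1]
      ring
    rw [e] at hxY
    rwa [Int.gcd_add_mul_left_left] at hxY
  -- the step
  obtain ⟨s, hs⟩ : ∃ s, s = N / T + 1 := ⟨_, rfl⟩
  rw [← hs] at hyp
  have hsr : (s : ℝ) ≤ 2 * (N / L ^ (J + 3)) := by
    rw [hs]
    push_cast
    have q1 : ((N / T : ℕ) : ℝ) ≤ N / T := Nat.cast_div_le
    have q2 : (N : ℝ) / T ≤ N / L ^ (J + 3) := div_le_div_of_nonneg_left hN0.le (by positivity) hT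
    have q3 : 1 ≤ N / L ^ (J + 3) := by
      rw [le_div_iff₀ (by positivity), one_mul]
      have : 1 ≤ √(N : ℝ) := (one_le_pow₀ hL1).trans k5
      calc L ^ (J + 3) ≤ √N := k5
        _ ≤ √N * √N := by nlinarith
        _ = N := hss
    linarith
  have hsN : s ≤ N := by
    have q1 : (s : ℝ) ≤ N := by
      refine hsr.trans ?_
      rw [← mul_div_assoc, div_le_iff₀ (by positivity)]
      have : (2 : ℝ) ≤ L ^ (J + 3) := by
        calc (2 : ℝ) ≤ L := by linarith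
          _ ≤ L ^ (J + 3) := le_self_pow₀ hL1 (by omega)
      nlinarith
    exact_mod_cast q1
  obtain ⟨mt, hmt⟩ : ∃ mt, mt = MT z q h := ⟨_, rfl⟩
  have hMTs := MT_sing z q h L hL1 hq (by
    have : (q : ℝ) ≤ z := by
      refine hqB.trans (le_trans ?_ hz1)
      exact pow_le_pow_right₀ hL1 (by omega)
    exact_mod_cast this) hh2 hh0 hc hV (by
    have q1 : 2 ^ (Nat.log 2 h) ≤ h := Nat.pow_log_le_self 2 hh0
    have q2 : (2 : ℝ) ^ (Nat.log 2 h) ≤ h := by exact_mod_cast q1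
    have q3 : (Nat.log 2 h : ℝ) * Real.log 2 ≤ Real.log h := by
      have := Real.log_le_log (by positivity) q2
      rwa [Real.log_pow] at this
    have q4 : h ≤ (C.natAbs * Bc + 1) * N := by
      rw [hh, Int.natAbs_mul]
      have : Y.natAbs ≤ Bc * N := by
        have h9 : ((Y.natAbs : ℕ) : ℤ) ≤ ((Bc * N : ℕ) : ℤ) := by
          rw [Int.natCast_natAbs]
          push_cast
          exact hY
        exact_mod_cast h9
      calc C.natAbs * Y.natAbs ≤ C.natAbs * (Bc * N) := Nat.mul_le_mul_left _ this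
        _ ≤ (C.natAbs * Bc + 1) * N := by nlinarith
    have q5 : Real.log h ≤ Real.log ((C.natAbs * Bc + 1 : ℕ) : ℝ) + L := by
      rw [hLd, ← Real.log_mul (by exact_mod_cast (by omega : (C.natAbs * Bc + 1 : ℕ) ≠ 0)) hN0.ne']
      apply Real.log_le_log (by exact_mod_cast Nat.pos_of_ne_zero hh0)
      exact_mod_cast q4
    have q6 := Real.log_two_gt_d9
    have q7 : (0 : ℝ) ≤ (Nat.log 2 h : ℝ) := Nat.cast_nonneg _
    have q8 : (Nat.log 2 h : ℝ) * 0.69 ≤ (Nat.log 2 h : ℝ) * Real.log 2 := mul_le_mul_of_nonneg_left (by linarith) q7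
    linarith) (by
    refine le_trans ?_ hz1
    calc 8 * L ≤ L * L := by nlinarith
      _ = L ^ 2 := by ring
      _ ≤ L ^ E1 := pow_le_pow_right₀ hL1 (by omega))
  obtain ⟨m1, m2, m3⟩ := hMTs
  obtain ⟨S, hS⟩ : ∃ S, S = sing h / Cnt q h := ⟨_, rfl⟩
  rw [← hS, ← hmt] at m1
  rw [← hS] at m2 m3
  have hSd : dens C Y q = S := by
    unfold dens
    rw [← hh, hS]
  rw [hSd]
  have hS1 : 1 / L ^ Bq ≤ S := by
    rw [hS]
    have q1 := Pool.Agent.W93.GB.one_le_sing h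
    have q2 : (Cnt q h : ℝ) ≤ L ^ Bq := le_trans (by exact_mod_cast cnt_le q h) hqB
    exact div_le_div₀ (by linarith) q1 (by exact_mod_cast hc) q2
  have hmt0 : 0 ≤ mt := by
    have q1 := abs_le.1 m1
    by_contra hneg
    push Not at hneg
    -- the product is nonnegative
    have q2 : 0 ≤ MT z q h := by
      unfold MT
      apply mul_nonneg
      · exact div_nonneg (inv_pos.2 (Vz_pos z)).le (Nat.cast_nonneg _)
      · apply prod_nonneg
        intro p hp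
        have hp2 : (2 : ℝ) ≤ p := by exact_mod_cast (mem_PS.1 hp).1.2.two_le
        have h7 : 1 / ((p : ℝ) - 1) ≤ 1 := by rw [div_le_one (by linarith)]; linarith
        linarith
    rw [← hmt] at q2
    linarith
  have hmt1 : mt ≤ 3 * L := by
    have q1 := abs_le.1 m1
    have q2 : 8 * L ^ 2 / z ≤ L := by
      rw [div_le_iff₀ (by linarith)]
      have : 8 * L ≤ z := by
        refine le_trans ?_ hz1
        calc 8 * L ≤ L * L := by nlinarith
          _ = L ^ 2 := by ring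
          _ ≤ L ^ E1 := pow_le_pow_right₀ hL1 (by omega)
      nlinarith
    linarith [q1.2]
  -- the window
  have hw := window C Y z q x₁ ((Bc + 1) * N) s (by rw [hs]; exact Nat.le_add_left 1 _) (N / L ^ (J + 1)) (N / L ^ (J + 1)) mt hmt0 (by positivity) (by positivity)
    (fun i hi => hyp q x₁ i hq hqB hx₁q hi)
    (fun t ht => by
      rw [← HH_GS, hmt, hh]
      exact k2 hzn hz2 q hq hqB x₁ hx₁c C Y hg hx₁Y t ht)
    M M' hMle (by
      have : (Bc + 1) * N = Bc * N + N := by ring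
      omega) hpos
  -- weights
  obtain ⟨W, hW⟩ : ∃ W, W = (Ioc M M').filter (fun n => n ≡ x₁ [MOD q]) := ⟨_, rfl⟩
  have hGW : GS lamI C Y q x₁ M' - GS lamI C Y q x₁ M = ∑ n ∈ W, ArithmeticFunction.vonMangoldt n * lamI (C * (n : ℤ) + Y) := by
    rw [GS_sub lamI C Y q x₁ hMle, hW, sum_filter]
    apply sum_congr rfl
    intro n _
    split_ifs
    · rfl
    · rw [zero_mul]
  have hcpw : cpw C Y q x₀ M M' = cp C Y W := by
    rw [cpw_eq, hW]
    congr 1
    ext n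
    rw [mem_filter, mem_filter, hx₁, ← mod_iff]
  obtain ⟨g1, g2⟩ := k1 C Y hC W (by
    intro n hn
    rw [hW, mem_filter, mem_Ioc] at hn
    have q1 : n ≤ Bc * N := by omega
    constructor
    · refine q1.trans (Nat.mul_le_mul_right _ (by omega))
    · have q2 : C * (n : ℤ) ≤ (C.natAbs : ℤ) * (Bc * N) := by
        have q3 : C * (n : ℤ) ≤ |C * (n : ℤ)| := le_abs_self _
        rw [abs_mul, Nat.abs_cast, Int.abs_eq_natAbs] at q3
        refine q3.trans ?_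
        apply mul_le_mul_of_nonneg_left _ (by positivity)
        exact_mod_cast q1
      have q4 := le_abs_self Y
      obtain ⟨c', hc'⟩ : ∃ c' : ℕ, c' = C.natAbs := ⟨_, rfl⟩
      rw [← hc'] at q2
      rw [hB, ← hc']
      have q5 : (0 : ℤ) ≤ (N : ℤ) := by positivity
      have q6 : (0 : ℤ) ≤ (Bc : ℤ) * N := by positivity
      have q8 : (((Bc + c' * Bc + Bc + 1) * N : ℕ) : ℤ) = (c' : ℤ) * (Bc * N) + (Bc : ℤ) * N + ((Bc : ℤ) * N + N) := by
        push_cast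
        ring
      rw [q8]
      linarith)
  rw [hcpw]
  rw [← hGW] at g1 g2
  obtain ⟨G, hG⟩ : ∃ G, G = GS lamI C Y q x₁ M' - GS lamI C Y q x₁ M := ⟨_, rfl⟩
  rw [← hG] at g1 g2 hw
  obtain ⟨c, hcd⟩ : ∃ c : ℝ, c = (cp C Y W : ℝ) := ⟨_, rfl⟩
  rw [← hcd] at g1 g2 ⊢
  obtain ⟨D, hD⟩ : ∃ D : ℝ, D = (M' : ℝ) - M := ⟨_, rfl⟩
  rw [← hD] at hw ⊢
  have hD1 : N / L ^ Bw ≤ D := by rw [hD]; linarith
  have hD2 : D ≤ Bc * N := by
    have q1 : (M' : ℝ) ≤ Bc * N := by exact_mod_cast hM'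
    have q2 : (0 : ℝ) ≤ M := Nat.cast_nonneg _
    rw [hD]
    linarith
  have hD0 : 0 < D := lt_of_lt_of_le hMM0 hD1
  -- the total error
  obtain ⟨e, he⟩ : ∃ e : ℝ, e = N / L ^ J := ⟨_, rfl⟩
  have he0 : 0 < e := by rw [he]; positivity
  have heL : (N : ℝ) / L ^ (J + 1) = e / L := by rw [he, pow_succ]; field_simp
  have hw2 : |G - mt * D| ≤ e := by
    refine hw.trans ?_
    rw [heL]
    have q1 : 2 * s * mt ≤ 12 * (e / L) := by
      calc 2 * (s : ℝ) * mt ≤ 2 * (2 * (N / L ^ (J + 3))) * (3 * L) := by gcongr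
        _ = 12 * (e / L) / L := by
            rw [he, show J + 3 = J + 1 + 1 + 1 by ring, pow_succ, pow_succ, pow_succ]
            field_simp
            ring
        _ ≤ 12 * (e / L) := div_le_self (by positivity) hL1
    have q2 : 16 * (e / L) ≤ e := by
      rw [← mul_div_assoc, div_le_iff₀ hL0]
      nlinarith
    linarith
  have hw3 : |mt * D - S * D| ≤ e := by
    rw [← sub_mul, abs_mul, abs_of_pos hD0]
    have q1 : 8 * L ^ 2 / z ≤ 1 / L ^ (J + 1) := by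
      rw [div_le_div_iff₀ (by linarith) (by positivity), one_mul]
      refine le_trans ?_ hz1
      calc 8 * L ^ 2 * L ^ (J + 1) ≤ L * L ^ 2 * L ^ (J + 1) := by
            have : (8 : ℝ) ≤ L := by linarith
            gcongr
        _ = L ^ (J + 4) := by ring
        _ ≤ L ^ E1 := pow_le_pow_right₀ hL1 (by omega)
    calc |mt - S| * D ≤ (1 / L ^ (J + 1)) * (Bc * N) := mul_le_mul (m1.trans q1) hD2 hD0.le (by positivity)
      _ = (Bc / L) * e := by rw [he, pow_succ]; field_simp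
      _ ≤ 1 * e := by
          apply mul_le_mul_of_nonneg_right _ he0.le
          rw [div_le_one hL0]
          linarith
      _ = e := one_mul _
  have hGS : |G - S * D| ≤ 2 * e := by
    have : G - S * D = (G - mt * D) + (mt * D - S * D) := by ring
    rw [this]
    refine (abs_add_le _ _).trans ?_
    linarith
  obtain ⟨F, hF⟩ : ∃ F, F = S * D := ⟨_, rfl⟩
  have hF0 : 0 < F := by
    rw [hF]
    apply mul_pos _ hD0
    exact lt_of_lt_of_le (by positivity) hS1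
  have heF : 3 * e ≤ 3 * η * F := by
    have q1 : N / L ^ (Bq + Bw) ≤ F := by
      rw [hF]
      calc N / L ^ (Bq + Bw) = (1 / L ^ Bq) * (N / L ^ Bw) := by rw [pow_add]; field_simp
        _ ≤ S * D := mul_le_mul hS1 hD1 hMM0.le (by linarith)
    have q2 : e = (N / L ^ (Bq + Bw)) / L ^ 3 := by
      rw [he, hJ, pow_add L (Bq + Bw) 3]
      field_simp
    have q3 : e ≤ η * F := by
      rw [q2]
      have q4 : 1 / L ^ 3 ≤ η := by
        have q5 : 1 / η ≤ L := by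
          have : 1 / η ≤ 3 / η := by gcongr; norm_num
          linarith
        have q6 : L ≤ L ^ 3 := le_self_pow₀ hL1 (by norm_num)
        rw [div_le_iff₀ (by positivity)]
        rw [div_le_iff₀ hη] at q5
        calc 1 ≤ L * η := q5
          _ ≤ L ^ 3 * η := mul_le_mul_of_nonneg_right q6 hη.le
          _ = η * L ^ 3 := mul_comm _ _
      calc (N / L ^ (Bq + Bw)) / L ^ 3 = (1 / L ^ 3) * (N / L ^ (Bq + Bw)) := by ring
        _ ≤ η * F := mul_le_mul q4 q1 (by positivity) hη.le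
    linarith
  have hFd : S * (D / L ^ 2) = F / L ^ 2 := by rw [hF]; ring
  rw [hFd]
  rw [← hF] at hGS
  have gs := abs_le.1 hGS
  rw [← he] at g1 g2
  have hL2 : 0 < L ^ 2 := by positivity
  obtain ⟨x, hx⟩ : ∃ x, x = L ^ 2 * c := ⟨_, rfl⟩
  have g1' : F - 3 * e ≤ (1 + η) * x := by rw [hx]; linarith
  have g2' : (1 - η) * x ≤ F + 3 * e := by rw [hx]; linarith
  have hfin := fin_calc ε η F e x hη hη1 hηε hF0 heF g1' g2'
  have hcx : c = x / L ^ 2 := by rw [hx]; field_simp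
  rw [hcx, ← sub_div, abs_div, abs_of_pos hL2, ← mul_div_assoc]
  exact div_le_div_of_nonneg_right hfin hL2.le

end Pool.Agent.N469.LP
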