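import Pool.Agent.N469.LP.Main
import Pool.Agent.W93.PP7

/-! The sieve model along a linear form. -/

namespace Pool.Agent.N469.LP
open Finset
open Pool.Agent.H373R2.T7
open Pool.Agent.W93.PP (MT PS mem_PS Cnt MT_sing)
open Pool.Agent.H560R3.GB (sing)

/-- the class `r mod p` is killed by `C r + Y` -/
def AL (C Y : ℤ) (p r : ℕ) : Prop := (p : ℤ) ∣ C * r + Y

lemma AL_mod (C Y : ℤ) (p n : ℕ) : AL C Y p (n % p) ↔ (p : ℤ) ∣ C * n + Y := by
  unfold AL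
  have e : (n : ℤ) = ((n % p : ℕ) : ℤ) + p * ((n / p : ℕ) : ℤ) := by
    have := Nat.mod_add_div n p
    exact_mod_cast this.symm
  have e2 : C * (n : ℤ) + Y = (C * ((n % p : ℕ) : ℤ) + Y) + p * (C * ((n / p : ℕ) : ℤ)) := by
    conv_lhs => rw [e]
    ring
  rw [e2]
  exact (Int.dvd_add_left (dvd_mul_right _ _)).symm

lemma rho_lin (C Y : ℤ) (hg : Int.gcd C Y = 1) (p : ℕ) (hp : p.Prime) :
    rho (AL C Y) p = if p ∣ (C * Y).natAbs then 0 else 1 := by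
  classical
  have hpZ : Prime (p : ℤ) := Nat.prime_iff_prime_int.1 hp
  have hd : p ∣ (C * Y).natAbs ↔ (p : ℤ) ∣ C * Y := by
    rw [Int.natCast_dvd]
  have hcop : ¬ ((p : ℤ) ∣ C ∧ (p : ℤ) ∣ Y) := by
    rintro ⟨h1, h2⟩
    have h3 : (p : ℤ) ∣ (Int.gcd C Y : ℕ) := Int.dvd_coe_gcd h1 h2
    rw [hg] at h3
    have h4 : p ∣ 1 := by exact_mod_cast h3
    exact hp.one_lt.ne' (Nat.dvd_one.1 h4)
  unfold rho
  split_ifs with h
  · rw [card_eq_zero]
    rw [filter_eq_empty_iff]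
    rintro r _ ⟨h1, h2⟩
    unfold AL at h2
    rw [hd] at h
    rcases hpZ.dvd_or_dvd h with h3 | h3
    · apply hcop
      refine ⟨h3, ?_⟩
      have h4 : (p : ℤ) ∣ C * r := Dvd.dvd.mul_right h3 _
      exact (Int.dvd_add_right h4).1 h2
    · have h4 : (p : ℤ) ∣ C * r := (Int.dvd_add_left h3).1 h2
      rcases hpZ.dvd_or_dvd h4 with h5 | h5
      · exact hcop ⟨h5, h3⟩
      · exact h1 (by exact_mod_cast h5)
  · rw [hd] at h
    have hC : ¬ (p : ℤ) ∣ C := fun h1 => h (Dvd.dvd.mul_right h1 _)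
    have hY : ¬ (p : ℤ) ∣ Y := fun h1 => h (Dvd.dvd.mul_left h1 _)
    rw [card_eq_one]
    -- the root
    have hcp : IsCoprime C (p : ℤ) := by
      rw [isCoprime_comm]
      exact (Prime.coprime_iff_not_dvd hpZ).2 hC
    obtain ⟨u, w, huw⟩ := hcp
    obtain ⟨x, hx⟩ : ∃ x : ℕ, x = ((-(u * Y)) % (p : ℤ)).toNat := ⟨_, rfl⟩
    have hp0 : (0 : ℤ) < p := by exact_mod_cast hp.pos
    have hx0 : 0 ≤ (-(u * Y)) % (p : ℤ) := Int.emod_nonneg _ hp0.ne'
    have hx1 : (-(u * Y)) % (p : ℤ) < p := Int.emod_lt_of_pos _ hp0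
    have hxz : (x : ℤ) = (-(u * Y)) % (p : ℤ) := by rw [hx, Int.toNat_of_nonneg hx0]
    have hroot : (p : ℤ) ∣ C * x + Y := by
      have h1 : (p : ℤ) ∣ x + u * Y := by
        have h2 := Int.emod_add_mul_ediv (-(u * Y)) (p : ℤ)
        refine ⟨-((-(u * Y)) / (p : ℤ)), ?_⟩
        rw [hxz]
        linarith
      have e : C * x + Y = C * (x + u * Y) + p * (w * Y) := by
        have : C * (x : ℤ) + Y = C * x + Y * (u * C + w * p) := by rw [huw, mul_one]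
        rw [this]
        ring
      rw [e]
      exact dvd_add (Dvd.dvd.mul_left h1 _) (dvd_mul_right _ _)
    refine ⟨x, ?_⟩
    ext r
    rw [mem_filter, mem_range, mem_singleton]
    constructor
    · rintro ⟨h1, _, h3⟩
      unfold AL at h3
      have h4 : (p : ℤ) ∣ C * ((r : ℤ) - x) := by
        have := dvd_sub h3 hroot
        have e : C * (r : ℤ) + Y - (C * x + Y) = C * ((r : ℤ) - x) := by ring
        rwa [e] at this
      rcases hpZ.dvd_or_dvd h4 with h5 | h5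
      · exact absurd h5 hC
      · have h6 : |(r : ℤ) - x| < p := by rw [abs_lt]; constructor <;> omega
        have := Int.eq_zero_of_abs_lt_dvd h5 h6
        omega
    · rintro rfl
      refine ⟨by omega, fun h5 => ?_, hroot⟩
      have h6 : (p : ℤ) ∣ C * (r : ℤ) := Dvd.dvd.mul_left (by exact_mod_cast h5) _
      exact hY ((Int.dvd_add_right h6).1 hroot)

lemma rho_lin_le (C Y : ℤ) (hg : Int.gcd C Y = 1) (p : ℕ) (hp : p.Prime) : rho (AL C Y) p ≤ 1 := by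
  rw [rho_lin C Y hg p hp]
  split_ifs <;> omega

/-- the main term -/
lemma prod_lin (C Y : ℤ) (hg : Int.gcd C Y = 1) (z q : ℕ) :
    (Vz z)⁻¹ / (Nat.totient q : ℝ) * ∏ p ∈ TT z q, (1 - (rho (AL C Y) p : ℝ) / (p - 1 : ℝ)) = MT z q (C * Y).natAbs := by
  unfold MT
  congr 1
  have e : PS z q (C * Y).natAbs = (TT z q).filter (fun p => ¬ p ∣ (C * Y).natAbs) := by
    ext p
    rw [mem_PS, mem_filter, mem_TT, mem_pz]
    tauto
  rw [e, prod_filter]
  apply prod_congr rfl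
  intro p hp
  rw [rho_lin C Y hg p (mem_pz.1 (TT_sub _ _ hp)).2]
  by_cases h : p ∣ (C * Y).natAbs
  · simp [h]
  · simp [h]

/-- the sum of the sieve model along the primes of a progression, without the condition that the argument is positive -/
noncomputable def HH (C Y : ℤ) (z q x₀ t : ℕ) : ℝ :=
  ∑ n ∈ Icc 1 t, (if n ≡ x₀ [MOD q] then ArithmeticFunction.vonMangoldt n else 0) *
    (if ∀ p ∈ pz z, ¬ (p : ℤ) ∣ C * (n : ℤ) + Y then (Vz z)⁻¹ else 0)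

open Classical in
lemma HH_eq (C Y : ℤ) (z q x₀ t : ℕ) (hx : Int.gcd (C * x₀ + Y) q = 1) :
    HH C Y z q x₀ t = (Vz z)⁻¹ * ∑ n ∈ (Icc 1 t).filter (fun n => n ≡ x₀ [MOD q] ∧ ∀ p ∈ TT z q, ¬ AL C Y p (n % p)),
      ArithmeticFunction.vonMangoldt n := by
  unfold HH
  rw [sum_filter, mul_sum]
  apply sum_congr rfl
  intro n _
  by_cases h1 : n ≡ x₀ [MOD q]
  · have h2 : (∀ p ∈ pz z, ¬ (p : ℤ) ∣ C * (n : ℤ) + Y) ↔ ∀ p ∈ TT z q, ¬ AL C Y p (n % p) := by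
      constructor
      · intro h p hp
        rw [AL_mod]
        exact h p (TT_sub _ _ hp)
      · intro h p hp hd
        by_cases hpq : p ∣ q
        · have h3 : (q : ℤ) ∣ (n : ℤ) - x₀ := by
            have := (Nat.modEq_iff_dvd.1 h1)
            have h4 := dvd_neg.2 this
            rwa [neg_sub] at h4
          have h4 : (p : ℤ) ∣ (n : ℤ) - x₀ := dvd_trans (by exact_mod_cast hpq) h3
          have h5 : (p : ℤ) ∣ C * x₀ + Y := by
            have h6 := dvd_sub hd (Dvd.dvd.mul_left h4 C)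
            have e : C * (n : ℤ) + Y - C * ((n : ℤ) - x₀) = C * x₀ + Y := by ring
            rwa [e] at h6
          have h6 : (p : ℤ) ∣ (Int.gcd (C * x₀ + Y) q : ℕ) := Int.dvd_coe_gcd h5 (by exact_mod_cast hpq)
          rw [hx] at h6
          have h7 : p ∣ 1 := by exact_mod_cast h6
          exact (mem_pz.1 hp).2.one_lt.ne' (Nat.dvd_one.1 h7)
        · exact h p (mem_TT.2 ⟨hp, hpq⟩) ((AL_mod C Y p n).2 hd)
    rw [if_pos h1]
    by_cases h3 : ∀ p ∈ pz z, ¬ (p : ℤ) ∣ C * (n : ℤ) + Y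
    · rw [if_pos h3, if_pos ⟨h1, h2.1 h3⟩, mul_comm]
    · rw [if_neg h3, if_neg (fun h => h3 (h2.2 h.2))]
      simp
  · rw [if_neg h1, zero_mul]
    have h4 : ¬ (n ≡ x₀ [MOD q] ∧ ∀ p ∈ TT z q, ¬ AL C Y p (n % p)) := fun h => h1 h.1
    rw [if_neg h4, mul_zero]

lemma HH_nonneg (C Y : ℤ) (z q x₀ t : ℕ) : 0 ≤ HH C Y z q x₀ t := by
  unfold HH
  apply sum_nonneg
  intro n _
  apply mul_nonneg
  · split_ifs
    · exact ArithmeticFunction.vonMangoldt_nonneg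
    · exact le_rfl
  · split_ifs
    · exact (inv_pos.2 (Vz_pos z)).le
    · exact le_rfl

lemma HH_le (C Y : ℤ) (z q x₀ t : ℕ) : HH C Y z q x₀ t ≤ (Vz z)⁻¹ * (6 * t) := by
  have h1 : HH C Y z q x₀ t ≤ ∑ n ∈ Icc 1 t, (Vz z)⁻¹ * ArithmeticFunction.vonMangoldt n := by
    unfold HH
    apply sum_le_sum
    intro n _
    have h2 : (0 : ℝ) ≤ ArithmeticFunction.vonMangoldt n := ArithmeticFunction.vonMangoldt_nonneg
    have h3 : 0 ≤ (Vz z)⁻¹ := (inv_pos.2 (Vz_pos z)).le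
    split_ifs
    · rw [mul_comm]
    · rw [mul_zero]; positivity
    · rw [zero_mul]; positivity
    · rw [zero_mul]; positivity
  refine h1.trans ?_
  rw [← mul_sum]
  exact mul_le_mul_of_nonneg_left (lam1_le t) (inv_pos.2 (Vz_pos z)).le

theorem HH_main (Bc Ez Bq D : ℕ) : ∃ N₀ : ℕ, ∀ N : ℕ, N₀ ≤ N → ∀ z : ℕ, 1 ≤ z → (z : ℝ) ≤ Real.log N ^ Ez →
    ∀ q : ℕ, 1 ≤ q → (q : ℝ) ≤ Real.log N ^ Bq → ∀ x₀ : ℕ, Nat.Coprime x₀ q → ∀ C Y : ℤ, Int.gcd C Y = 1 →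
    Int.gcd (C * x₀ + Y) q = 1 → ∀ t : ℕ, t ≤ Bc * N →
    |HH C Y z q x₀ t - MT z q (C * Y).natAbs * t| ≤ N / Real.log N ^ D := by
  classical
  obtain ⟨N1, h1⟩ := prog_main 1 (Ez + 1) (Bq + 1) (D + 2) le_rfl
  obtain ⟨n2, h2⟩ := ev_L' ((2 : ℝ) ^ (Ez + Bq + 4 + D) * (Bc + 1) + 8)
  obtain ⟨n3, h3⟩ := Vz_inv_small Ez
  obtain ⟨n4, h4⟩ := ev_log' (D + 2) 1
  refine ⟨max (max (N1 ^ 2) n2) (max (max n3 n4) 4), fun N hN z hz hzE q hq hqB x₀ hx₀ C Y hg hx t ht => ?_⟩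
  have b1 := le_trans (le_trans (le_max_left _ _) (le_max_left _ _)) hN
  have b2 := le_trans (le_trans (le_max_right _ _) (le_max_left _ _)) hN
  have b3 := le_trans (le_trans (le_trans (le_max_left _ _) (le_max_left _ _)) (le_max_right _ _)) hN
  have b4 := le_trans (le_trans (le_trans (le_max_right _ _) (le_max_left _ _)) (le_max_right _ _)) hN
  have hN4 : 4 ≤ N := le_trans (le_trans (le_max_right _ _) (le_max_right _ _)) hN
  have hL := h2 N b2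
  have hV := h3 N b3 z hz hzE
  have a4 := h4 N b4
  rw [one_mul] at a4
  obtain ⟨L, hLd⟩ : ∃ L, L = Real.log (N : ℝ) := ⟨_, rfl⟩
  rw [← hLd] at hL hV a4 hzE hqB ⊢
  have hp1 : (1 : ℝ) ≤ 2 ^ (Ez + Bq + 4 + D) := one_le_pow₀ (by norm_num)
  have hBc : (0 : ℝ) ≤ Bc := Nat.cast_nonneg _
  have hBp : (2 : ℝ) ^ (Ez + Bq + 4 + D) ≤ (2 : ℝ) ^ (Ez + Bq + 4 + D) * (Bc + 1) := le_mul_of_one_le_right (by positivity) (by linarith)
  have hL8 : 8 ≤ L := by nlinarith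
  have hL1 : 1 ≤ L := by linarith
  have hL0 : 0 < L := by linarith
  have hN0 : (0 : ℝ) < N := by exact_mod_cast (by omega : 0 < N)
  have hss : √(N : ℝ) * √(N : ℝ) = N := Real.mul_self_sqrt hN0.le
  have hs0 : 0 < √(N : ℝ) := Real.sqrt_pos.2 hN0
  have hVp : 0 ≤ (Vz z)⁻¹ := (inv_pos.2 (Vz_pos z)).le
  have hφ : (1 : ℝ) ≤ Nat.totient q := by exact_mod_cast Nat.totient_pos.2 hq
  have hMT0 : 0 ≤ MT z q (C * Y).natAbs ∧ MT z q (C * Y).natAbs ≤ (Vz z)⁻¹ := by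
    unfold MT
    have hh : ∀ p ∈ PS z q (C * Y).natAbs, 0 ≤ 1 - 1 / ((p : ℝ) - 1) ∧ 1 - 1 / ((p : ℝ) - 1) ≤ 1 := by
      intro p hp
      have hp2 : (2 : ℝ) ≤ p := by exact_mod_cast (mem_PS.1 hp).1.2.two_le
      have h7 : 1 / ((p : ℝ) - 1) ≤ 1 := by rw [div_le_one (by linarith)]; linarith
      have h8 : 0 ≤ 1 / ((p : ℝ) - 1) := div_nonneg zero_le_one (by linarith)
      constructor <;> linarith
    have g1 : 0 ≤ ∏ p ∈ PS z q (C * Y).natAbs, (1 - 1 / ((p : ℝ) - 1)) := prod_nonneg fun p hp => (hh p hp).1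
    have g2 : ∏ p ∈ PS z q (C * Y).natAbs, (1 - 1 / ((p : ℝ) - 1)) ≤ 1 := prod_le_one (fun p hp => (hh p hp).1) (fun p hp => (hh p hp).2)
    have g3 : (Vz z)⁻¹ / (Nat.totient q : ℝ) ≤ (Vz z)⁻¹ := div_le_self hVp hφ
    have g4 : 0 ≤ (Vz z)⁻¹ / (Nat.totient q : ℝ) := by positivity
    refine ⟨mul_nonneg g4 g1, ?_⟩
    calc _ ≤ (Vz z)⁻¹ * 1 := mul_le_mul g3 g2 g1 hVp
      _ = _ := mul_one _
  rcases lt_or_ge (t : ℝ) (√(N : ℝ)) with hts | hts
  · -- small t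
    have e1 := HH_nonneg C Y z q x₀ t
    have e2 := HH_le C Y z q x₀ t
    have ht0 : (0 : ℝ) ≤ t := Nat.cast_nonneg _
    have e3 : |HH C Y z q x₀ t - MT z q (C * Y).natAbs * t| ≤ (Vz z)⁻¹ * (6 * t) := by
      have h5 : 0 ≤ MT z q (C * Y).natAbs * t := mul_nonneg hMT0.1 ht0
      have h6 : MT z q (C * Y).natAbs * t ≤ (Vz z)⁻¹ * t := mul_le_mul_of_nonneg_right hMT0.2 ht0
      have h7 : 0 ≤ (Vz z)⁻¹ * t := mul_nonneg hVp ht0
      rw [abs_le]
      constructor <;> linarith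
    refine e3.trans ?_
    rw [le_div_iff₀ (by positivity)]
    calc (Vz z)⁻¹ * (6 * t) * L ^ D ≤ L * (L * √N) * L ^ D := by
          have : (6 : ℝ) * t ≤ L * √N := by nlinarith
          gcongr
      _ = √N * L ^ (D + 2) := by ring
      _ ≤ √N * √N := mul_le_mul_of_nonneg_left a4 hs0.le
      _ = N := hss
  · have ht1 : (1 : ℝ) ≤ √(N : ℝ) := (one_le_pow₀ hL1).trans a4
    have ht0 : (0 : ℝ) < t := by linarith
    have htN : N1 ≤ t := by
      have h6 : ((N1 : ℝ)) ≤ √(N : ℝ) := by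
        apply Real.le_sqrt_of_sq_le
        exact_mod_cast b1
      exact_mod_cast h6.trans hts
    have hlogt : L / 2 ≤ Real.log t := by
      have h6 : Real.log (√(N : ℝ)) = L / 2 := by rw [Real.log_sqrt hN0.le, ← hLd]
      rw [← h6]
      exact Real.log_le_log hs0 hts
    have hlt0 : 0 < Real.log t := by linarith
    have hpw : ∀ j : ℕ, j ≤ Ez + Bq + 1 → L ^ j ≤ Real.log t ^ (j + 1) := by
      intro j hj
      refine le_trans ?_ (pow_le_pow_left₀ (by linarith) hlogt _)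
      rw [div_pow, le_div_iff₀ (by positivity), pow_succ L j]
      apply mul_le_mul_of_nonneg_left _ (by positivity)
      have : (2 : ℝ) ^ (j + 1) ≤ 2 ^ (Ez + Bq + 4 + D) := pow_le_pow_right₀ (by norm_num) (by omega)
      linarith
    have key := h1 t htN z hz (hzE.trans (hpw Ez (by omega))) q hq (hqB.trans (hpw Bq (by omega))) x₀ hx₀ (AL C Y) (rho_lin_le C Y hg)
    rw [HH_eq C Y z q x₀ t hx, ← prod_lin C Y hg z q]
    obtain ⟨W, hW⟩ : ∃ W : ℝ, W = ∑ n ∈ (Icc 1 t).filter (fun n => n ≡ x₀ [MOD q] ∧ ∀ p ∈ TT z q, ¬ AL C Y p (n % p)),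
      ArithmeticFunction.vonMangoldt n := ⟨_, rfl⟩
    obtain ⟨P1, hP1⟩ : ∃ P1 : ℝ, P1 = ∏ p ∈ TT z q, (1 - (rho (AL C Y) p : ℝ) / (p - 1 : ℝ)) := ⟨_, rfl⟩
    rw [← hW, ← hP1] at key ⊢
    have e : (Vz z)⁻¹ * W - (Vz z)⁻¹ / (Nat.totient q : ℝ) * P1 * t = (Vz z)⁻¹ * (W - t / (Nat.totient q : ℝ) * P1) := by ring
    rw [e, abs_mul, abs_of_nonneg hVp]
    have hD : (t : ℝ) / Real.log t ^ (D + 2) ≤ (Bc * N) / (L / 2) ^ (D + 2) := by
      have h5 : (t : ℝ) ≤ Bc * N := by exact_mod_cast ht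
      have h6 : (L / 2) ^ (D + 2) ≤ Real.log t ^ (D + 2) := pow_le_pow_left₀ (by linarith) hlogt _
      exact div_le_div₀ (by positivity) h5 (by positivity) h6
    calc (Vz z)⁻¹ * |W - t / (Nat.totient q : ℝ) * P1| ≤ L * ((Bc * N) / (L / 2) ^ (D + 2)) :=
          mul_le_mul hV (key.trans hD) (abs_nonneg _) hL0.le
      _ = (2 ^ (D + 2) * Bc / L) * (N / L ^ D) := by
          rw [div_pow, pow_add L D 2]
          field_simp
      _ ≤ 1 * (N / L ^ D) := by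
          apply mul_le_mul_of_nonneg_right _ (by positivity)
          rw [div_le_one hL0]
          have h5 : (2 : ℝ) ^ (D + 2) ≤ 2 ^ (Ez + Bq + 4 + D) := pow_le_pow_right₀ (by norm_num) (by omega)
          have h6 : (2 : ℝ) ^ (D + 2) * Bc ≤ 2 ^ (Ez + Bq + 4 + D) * (Bc + 1) := by
            apply mul_le_mul h5 (by linarith) hBc (by positivity)
          linarith
      _ = _ := one_mul _

end Pool.Agent.N469.LP
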