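import Pool.Agent.N469.LP.Sieve

/-! Primes in a progression outside given classes modulo the small primes: the asymptotic formula. -/

namespace Pool.Agent.N469.LP
open Finset
open Pool.Agent.H373R2.T7

open Classical in
/-- the family of classes for all moduli -/
noncomputable def LF (A : ℕ → ℕ → Prop) (z r q r₀ m : ℕ) : Finset ℕ := if q ∣ m then LS A z r q r₀ (m / q) else ∅

lemma LF_fam {k : ℕ} (hk : 1 ≤ k) (A : ℕ → ℕ → Prop) (hA : ∀ p, p.Prime → rho A p ≤ k) (z r q r₀ : ℕ) (hq : 1 ≤ q) (hr₀ : Nat.Coprime r₀ q)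
    (X : ℝ) (hX : (k : ℝ) ^ r ≤ X) : H343E.Fam X (LF A z r q r₀) := by
  classical
  constructor
  · intro m b hb
    unfold LF at hb
    split_ifs at hb with hqm
    swap
    · simp at hb
    obtain ⟨d, rfl⟩ := hqm
    rw [Nat.mul_div_cancel_left d (by omega)] at hb
    unfold LS at hb
    split_ifs at hb with h
    swap
    · simp at hb
    rw [mem_filter, mem_range] at hb
    refine ⟨hb.1, ?_⟩
    have hd0 : d ≠ 0 := by
      rintro rfl
      simp at hb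
    apply Nat.Coprime.mul_right
    · have h1 := hb.2.1
      unfold Nat.Coprime at hr₀ ⊢
      rw [← hr₀]
      exact Nat.ModEq.gcd_eq h1
    · rw [Nat.coprime_iff_gcd_eq_one]
      by_contra hne
      obtain ⟨p, hp, hpb, hpq⟩ := Nat.Prime.not_coprime_iff_dvd.1 hne
      exact (hb.2.2 p (Nat.mem_primeFactors.2 ⟨hp, hpq, hd0⟩)).1 hpb
  · intro m
    have hX0 : (0 : ℝ) ≤ X := (pow_nonneg (Nat.cast_nonneg _) _).trans hX
    unfold LF
    split_ifs with hqm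
    swap
    · simpa using hX0
    by_cases h : ∃ S ⊆ TT z q, S.card ≤ r ∧ ∏ p ∈ S, p = m / q
    · obtain ⟨S, hS, hr, hd⟩ := h
      rw [← hd, LS_card A z r q r₀ hq S hS hr]
      refine le_trans ?_ hX
      push_cast
      calc ∏ p ∈ S, (rho A p : ℝ) ≤ ∏ _p ∈ S, (k : ℝ) := prod_le_prod (fun _ _ => Nat.cast_nonneg _)
            (fun p hp => by exact_mod_cast hA p (mem_pz.1 (TT_sub _ _ (hS hp))).2)
        _ = (k : ℝ) ^ S.card := by rw [prod_const]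
        _ ≤ (k : ℝ) ^ r := pow_le_pow_right₀ (by exact_mod_cast hk) hr
    · unfold LS
      rw [if_neg h]
      simpa using hX0

lemma sum_scale (q D : ℕ) (hq : 1 ≤ q) (F : ℕ → ℝ) (hF : ∀ m, 0 ≤ F m) :
    ∑ d ∈ Icc 1 D, F (q * d) ≤ ∑ m ∈ Icc 1 (q * D), F m := by
  have h1 : ∑ d ∈ Icc 1 D, F (q * d) = ∑ m ∈ (Icc 1 D).image (fun d => q * d), F m := by
    rw [sum_image]
    intro a _ b _ hab
    exact Nat.eq_of_mul_eq_mul_left (by omega) hab
  rw [h1]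
  apply sum_le_sum_of_subset_of_nonneg
  · intro m hm
    rw [mem_image] at hm
    obtain ⟨d, hd, rfl⟩ := hm
    rw [mem_Icc] at hd ⊢
    exact ⟨Nat.mul_pos hq hd.1, Nat.mul_le_mul_left q hd.2⟩
  · exact fun m _ _ => hF m

set_option maxHeartbeats 1000000 in
open Classical in
theorem prog_main (k E Bq U : ℕ) (hk : 1 ≤ k) : ∃ N0 : ℕ, ∀ N : ℕ, N0 ≤ N → ∀ z : ℕ, 1 ≤ z → (z : ℝ) ≤ Real.log N ^ E →
    ∀ q : ℕ, 1 ≤ q → (q : ℝ) ≤ Real.log N ^ Bq → ∀ r₀ : ℕ, Nat.Coprime r₀ q → ∀ A : ℕ → ℕ → Prop, (∀ p, p.Prime → rho A p ≤ k) →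
    |∑ n ∈ (Icc 1 N).filter (fun n => n ≡ r₀ [MOD q] ∧ ∀ p ∈ TT z q, ¬ A p (n % p)), ArithmeticFunction.vonMangoldt n -
      N / (Nat.totient q : ℝ) * ∏ p ∈ TT z q, (1 - (rho A p : ℝ) / (p - 1 : ℝ))| ≤ N / Real.log N ^ U := by
  obtain ⟨U2, hU2⟩ : ∃ U2, U2 = U + 2 := ⟨_, rfl⟩
  obtain ⟨N0, h0⟩ := choice (2 * k) E U2 4
  obtain ⟨C', hC'⟩ : ∃ C', C' = (3 * ((2 * k) * (1 + E)) + U2 + 1) * k := ⟨_, rfl⟩
  obtain ⟨U1, hU1⟩ : ∃ U1, U1 = C' + U + 2 := ⟨_, rfl⟩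
  obtain ⟨B, X0, hBV⟩ := H343E.unsmoothed U1
  obtain ⟨C, N1, hC, hpnt⟩ := pnt_lam (U + 2)
  obtain ⟨n1, h1⟩ := ev_log' (B + E + U + 2 * Bq + 6) 1
  obtain ⟨n2, h2⟩ := ev_L' (C + 40)
  refine ⟨max (max (max N0 ⌈X0⌉₊) (max N1 n1)) (max n2 4), fun N hN z hz hzE q hq hqB r₀ hr₀ A hA => ?_⟩
  have b1 := le_trans (le_trans (le_trans (le_max_left _ _) (le_max_left _ _)) (le_max_left _ _)) hN
  have b2 := le_trans (le_trans (le_trans (le_max_right _ _) (le_max_left _ _)) (le_max_left _ _)) hN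
  have b3 := le_trans (le_trans (le_trans (le_max_left _ _) (le_max_right _ _)) (le_max_left _ _)) hN
  have b4 := le_trans (le_trans (le_trans (le_max_right _ _) (le_max_right _ _)) (le_max_left _ _)) hN
  have b5 := le_trans (le_trans (le_max_left _ _) (le_max_right _ _)) hN
  have hN4 : 4 ≤ N := le_trans (le_trans (le_max_right _ _) (le_max_right _ _)) hN
  obtain ⟨r, hr1, hr2, hr3⟩ := h0 N b1 z hzE
  have hX0 : X0 ≤ (N : ℝ) := (Nat.le_ceil _).trans (by exact_mod_cast b2)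
  have hP := hpnt N b3
  have a1 := h1 N b4
  have hL := h2 N b5
  have hNr : (4 : ℝ) ≤ N := by exact_mod_cast hN4
  have hN0 : (0 : ℝ) < N := by linarith
  obtain ⟨L, hLd⟩ : ∃ L, L = Real.log N := ⟨_, rfl⟩
  rw [← hLd] at hr1 hr3 hP a1 hL hqB ⊢
  have hL40 : 40 ≤ L := by linarith
  have hL0 : 0 < L := by linarith
  have hL1 : 1 ≤ L := by linarith
  rw [one_mul] at a1
  have hss : √(N : ℝ) * √(N : ℝ) = N := Real.mul_self_sqrt hN0.le
  have hs0 : 0 < √(N : ℝ) := Real.sqrt_pos.2 hN0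
  have hφ : (1 : ℝ) ≤ Nat.totient q := by exact_mod_cast Nat.totient_pos.2 hq
  obtain ⟨D₀, hD⟩ : ∃ D₀ : ℕ, D₀ = (z + 1) ^ r := ⟨_, rfl⟩
  have hD1 : 1 ≤ D₀ := by rw [hD]; exact Nat.one_le_pow _ _ (by omega)
  have hD1r : (1 : ℝ) ≤ D₀ := by exact_mod_cast hD1
  have hDr : (D₀ : ℝ) = ((z : ℝ) + 1) ^ r := by rw [hD]; push_cast; ring
  have hD2 : (D₀ : ℝ) ^ 2 ≤ √N := by
    have h5 : ((D₀ : ℝ) ^ 2) ^ 2 ≤ N := by rw [← pow_mul, hDr]; exact hr2
    have h6 := Real.sqrt_le_sqrt h5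
    rwa [Real.sqrt_sq (by positivity)] at h6
  have hDs : (D₀ : ℝ) ≤ √N := le_trans (le_self_pow₀ hD1r (by norm_num)) hD2
  obtain ⟨X, hXd⟩ : ∃ X : ℝ, X = L ^ C' := ⟨_, rfl⟩
  have hX1 : 1 ≤ X := by rw [hXd]; exact one_le_pow₀ hL1
  have hkX : (k : ℝ) ^ r ≤ X := by rw [hXd, hC']; exact hr3 k
  have hpow : ∀ j, j ≤ B + E + U + 2 * Bq + 6 → L ^ j ≤ √(N : ℝ) := fun j hj => (pow_le_pow_right₀ hL1 hj).trans a1
  have hq1r : (1 : ℝ) ≤ q := by exact_mod_cast hq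
  have hqD2 : (((q * D₀ : ℕ)) : ℝ) ^ 2 ≤ N / L ^ B := by
    rw [le_div_iff₀ (by positivity)]
    push_cast
    calc ((q : ℝ) * D₀) ^ 2 * L ^ B = (q : ℝ) ^ 2 * (D₀ : ℝ) ^ 2 * L ^ B := by ring
      _ ≤ (L ^ Bq) ^ 2 * √N * L ^ B := by gcongr
      _ = √N * L ^ (2 * Bq + B) := by rw [← pow_mul, pow_add]; ring
      _ ≤ √N * √N := mul_le_mul_of_nonneg_left (hpow _ (by omega)) hs0.le
      _ = N := hss
  have hqD1 : (1 : ℝ) ≤ ((q * D₀ : ℕ) : ℝ) := by exact_mod_cast Nat.mul_pos hq hD1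
  have hbv := hBV N hX0 X hX1 (q * D₀) (by rw [← hLd]; exact (le_self_pow₀ hqD1 (by norm_num)).trans hqD2) (by
      rw [← hLd]
      refine hqD2.trans ?_
      apply div_le_div_of_nonneg_right _ (by positivity)
      exact le_mul_of_one_le_left hN0.le hX1) (LF A z r q r₀) (LF_fam hk A hA z r q r₀ hq hr₀ X hkX)
  rw [← hLd] at hbv
  have hEf : ∑ d ∈ Icc 1 D₀, Ef A N z r q r₀ d ≤ X * N / L ^ U1 := by
    refine le_trans ?_ hbv
    refine le_trans (le_of_eq ?_) (sum_scale q D₀ hq (fun m => ∑ a ∈ LF A z r q r₀ m, |H343E.psiAP N m a - H343E.psi1 N / (Nat.totient m : ℝ)|)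
      (fun m => sum_nonneg fun _ _ => abs_nonneg _))
    apply sum_congr rfl
    intro d _
    unfold Ef
    have e1 : LF A z r q r₀ (q * d) = LS A z r q r₀ d := by
      unfold LF
      rw [if_pos (dvd_mul_right _ _), Nat.mul_div_cancel_left d (by omega)]
    rw [e1]
    apply sum_congr rfl
    intro b _
    rw [lamAP_eq, lam1_eq']
  have hsv := sieve A N z r q r₀ k hq hA
  -- the sums
  obtain ⟨c0, hc0⟩ : ∃ c0 : ℝ, c0 = z * ((Nat.log 2 N + 1 : ℝ) * Real.log N) := ⟨_, rfl⟩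
  rw [← hc0] at hsv
  have hlog2 : (Nat.log 2 N : ℝ) ≤ 2 * L := by rw [hLd]; exact natlog_le N (by omega)
  have hzE' : (z : ℝ) ≤ L ^ E := by rw [hLd]; exact hzE
  have hc0' : c0 ≤ L ^ (E + 3) := by
    rw [hc0, ← hLd]
    calc (z : ℝ) * ((Nat.log 2 N + 1 : ℝ) * L) ≤ L ^ E * ((2 * L + 1) * L) := by gcongr
      _ ≤ L ^ E * L ^ 3 := by
          apply mul_le_mul_of_nonneg_left _ (by positivity)
          have h5 : 2 * L + 1 ≤ L * L := by nlinarith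
          calc (2 * L + 1) * L ≤ (L * L) * L := mul_le_mul_of_nonneg_right h5 hL0.le
            _ = L ^ 3 := by ring
      _ = L ^ (E + 3) := by rw [pow_add]
  have hc00 : 0 ≤ c0 := by rw [hc0, ← hLd]; positivity
  obtain ⟨P1, hP1⟩ : ∃ P1 : ℝ, P1 = ∏ p ∈ TT z q, (1 - (rho A p : ℝ) / (p - 1 : ℝ)) := ⟨_, rfl⟩
  have hP10 : 0 ≤ P1 ∧ P1 ≤ 1 := by
    have hh : ∀ p ∈ TT z q, 0 ≤ 1 - (rho A p : ℝ) / (p - 1 : ℝ) ∧ 1 - (rho A p : ℝ) / (p - 1 : ℝ) ≤ 1 := by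
      intro p hp
      have hpP := (mem_pz.1 (TT_sub _ _ hp)).2
      have hp2 : (2 : ℝ) ≤ p := by exact_mod_cast hpP.two_le
      have h5 := rho_le A p
      have h6 : (rho A p : ℝ) ≤ ((p - 1 : ℕ) : ℝ) := by exact_mod_cast h5
      rw [Nat.cast_sub hpP.one_le] at h6
      push_cast at h6
      have h7 : (rho A p : ℝ) / (p - 1 : ℝ) ≤ 1 := by rw [div_le_one (by linarith)]; exact h6
      have h8 : 0 ≤ (rho A p : ℝ) / (p - 1 : ℝ) := div_nonneg (Nat.cast_nonneg _) (by linarith)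
      constructor <;> linarith
    rw [hP1]
    exact ⟨prod_nonneg fun p hp => (hh p hp).1, prod_le_one (fun p hp => (hh p hp).1) (fun p hp => (hh p hp).2)⟩
  obtain ⟨W0, hW0⟩ : ∃ W0 : ℝ, W0 = ∑ n ∈ (Icc 1 N).filter (fun n : ℕ => n ≡ r₀ [MOD q] ∧ ∀ p ∈ TT z q, ¬ A p (n % p)), ArithmeticFunction.vonMangoldt n := ⟨_, rfl⟩
  obtain ⟨W1, hW1⟩ : ∃ W1 : ℝ, W1 = ∑ n ∈ ((Icc 1 N).filter (fun n : ℕ => n ≡ r₀ [MOD q] ∧ ∀ p ∈ pz z, ¬ p ∣ n)).filter
        (fun n : ℕ => ∀ p ∈ TT z q, ¬ A p (n % p)), ArithmeticFunction.vonMangoldt n := ⟨_, rfl⟩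
  rw [← hW0, ← hP1]
  rw [← hW1, ← hP1] at hsv
  have hdiff : |W0 - W1| ≤ c0 := by
    have h5 : W0 = ∑ n ∈ Icc 1 N, if (n ≡ r₀ [MOD q] ∧ ∀ p ∈ TT z q, ¬ A p (n % p)) then ArithmeticFunction.vonMangoldt n else 0 := by
      rw [hW0, sum_filter]
    have h6 : W1 = ∑ n ∈ Icc 1 N, if (n ≡ r₀ [MOD q] ∧ ∀ p ∈ pz z, ¬ p ∣ n) ∧ (∀ p ∈ TT z q, ¬ A p (n % p)) then
        ArithmeticFunction.vonMangoldt n else 0 := by
      rw [hW1, filter_filter, sum_filter]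
    rw [h5, h6, ← sum_sub_distrib]
    refine (abs_sum_le_sum_abs _ _).trans ?_
    have h7 : ∀ n ∈ Icc 1 N, |(if (n ≡ r₀ [MOD q] ∧ ∀ p ∈ TT z q, ¬ A p (n % p)) then ArithmeticFunction.vonMangoldt n else 0) -
        (if (n ≡ r₀ [MOD q] ∧ ∀ p ∈ pz z, ¬ p ∣ n) ∧ (∀ p ∈ TT z q, ¬ A p (n % p)) then
        ArithmeticFunction.vonMangoldt n else 0)| ≤ ∑ p ∈ pz z, if p ∣ n then ArithmeticFunction.vonMangoldt n else 0 := by
      intro n _
      have h8 : (0 : ℝ) ≤ ArithmeticFunction.vonMangoldt n := ArithmeticFunction.vonMangoldt_nonneg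
      have h9 : 0 ≤ ∑ p ∈ pz z, if p ∣ n then ArithmeticFunction.vonMangoldt n else 0 :=
        sum_nonneg fun p _ => by split_ifs <;> simp [h8]
      by_cases h10 : ∀ p ∈ pz z, ¬ p ∣ n
      · by_cases h11 : n ≡ r₀ [MOD q] ∧ ∀ p ∈ TT z q, ¬ A p (n % p)
        · rw [if_pos h11, if_pos ⟨⟨h11.1, h10⟩, h11.2⟩, sub_self, abs_zero]
          exact h9
        · rw [if_neg h11, if_neg (fun h => h11 ⟨h.1.1, h.2⟩), sub_self, abs_zero]
          exact h9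
      · rw [if_neg (c := (n ≡ r₀ [MOD q] ∧ ∀ p ∈ pz z, ¬ p ∣ n) ∧ (∀ p ∈ TT z q, ¬ A p (n % p))) (fun h => h10 h.1.2), sub_zero]
        push Not at h10
        obtain ⟨p, hp, hpn⟩ := h10
        have h11 : |(if (n ≡ r₀ [MOD q] ∧ ∀ p ∈ TT z q, ¬ A p (n % p)) then
          ArithmeticFunction.vonMangoldt n else 0)| ≤ ArithmeticFunction.vonMangoldt n := by
          split_ifs
          · rw [abs_of_nonneg h8]
          · rw [abs_zero]; exact h8
        refine h11.trans ?_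
        have h12 := single_le_sum (f := fun p => if p ∣ n then ArithmeticFunction.vonMangoldt n else (0 : ℝ))
          (s := pz z) (fun p _ => by split_ifs <;> simp [h8]) hp
        simp only [if_pos hpn] at h12
        exact h12
    refine (sum_le_sum h7).trans ?_
    rw [sum_comm]
    have h8 : ∀ p ∈ pz z, ∑ n ∈ Icc 1 N, (if p ∣ n then ArithmeticFunction.vonMangoldt n else 0) ≤
        (Nat.log 2 N + 1 : ℝ) * Real.log N := by
      intro p hp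
      rw [← sum_filter]
      exact lam_mult_prime N p (mem_pz.1 hp).2
    refine (sum_le_sum h8).trans ?_
    rw [sum_const, nsmul_eq_mul, hc0, ← hLd]
    apply mul_le_mul_of_nonneg_right _ (by positivity)
    exact_mod_cast card_pz_le z
  have hexp : Real.exp (3 * ((2 * k : ℕ) * (1 + Real.log z)) - r) ≤ 1 / L ^ U2 := hr1
  have hψ := lam1_le N
  have hψ0 : 0 ≤ lam1 N := sum_nonneg fun _ _ => ArithmeticFunction.vonMangoldt_nonneg
  have htot : |W0 - N / (Nat.totient q : ℝ) * P1| ≤ c0 + (((z : ℝ) + 1) ^ r * c0 + X * N / L ^ U1 + 2 * (6 * N) * (1 / L ^ U2)) + (C * (N / L ^ (U + 2)) + 2) := by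
    have e : W0 - N / (Nat.totient q : ℝ) * P1 = (W0 - W1) + (W1 - lam1 N / (Nat.totient q : ℝ) * P1) + (lam1 N - N) * (P1 / (Nat.totient q : ℝ)) := by ring
    rw [e]
    refine (abs_add_le _ _).trans (add_le_add ((abs_add_le _ _).trans (add_le_add hdiff ?_)) ?_)
    · refine hsv.trans ?_
      rw [← hD]
      apply add_le_add (add_le_add le_rfl hEf)
      gcongr
    · have h9 : 0 ≤ P1 / (Nat.totient q : ℝ) := div_nonneg hP10.1 (by positivity)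
      have h10 : P1 / (Nat.totient q : ℝ) ≤ 1 := (div_le_self hP10.1 hφ).trans hP10.2
      rw [abs_mul, abs_of_nonneg h9]
      calc |lam1 N - N| * (P1 / (Nat.totient q : ℝ)) ≤ |lam1 N - N| * 1 := mul_le_mul_of_nonneg_left h10 (abs_nonneg _)
        _ ≤ _ := by rw [mul_one]; exact hP
  -- sizes
  obtain ⟨T, hT⟩ : ∃ T : ℝ, T = N / L ^ (U + 2) := ⟨_, rfl⟩
  have hT0 : 0 < T := by rw [hT]; positivity
  have hsT : √(N : ℝ) * L ^ (E + 3) ≤ T := by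
    rw [hT, le_div_iff₀ (by positivity)]
    calc √(N : ℝ) * L ^ (E + 3) * L ^ (U + 2) = √(N : ℝ) * L ^ (E + 3 + (U + 2)) := by rw [mul_assoc, ← pow_add]
      _ ≤ √(N : ℝ) * √(N : ℝ) := mul_le_mul_of_nonneg_left (hpow _ (by omega)) hs0.le
      _ = N := hss
  have g1 : ((z : ℝ) + 1) ^ r * c0 ≤ T := by
    rw [← hDr]
    calc (D₀ : ℝ) * c0 ≤ √N * L ^ (E + 3) := mul_le_mul hDs hc0' hc00 hs0.le
      _ ≤ T := hsT
  have g2 : c0 ≤ T := by
    refine le_trans ?_ g1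
    exact le_mul_of_one_le_left hc00 (by rw [← hDr]; exact hD1r)
  have g3 : X * N / L ^ U1 = T := by
    rw [hT, hXd, hU1, show C' + U + 2 = C' + (U + 2) by ring, pow_add L C']
    field_simp
  have g4 : 2 * (6 * (N : ℝ)) * (1 / L ^ U2) = 12 * T := by rw [hT, hU2]; ring
  have g5 : (2 : ℝ) ≤ 2 * T := by
    have : 1 ≤ T := by
      refine le_trans ?_ hsT
      have h5 : 1 ≤ L ^ (E + 3) := one_le_pow₀ hL1
      have h6 : 1 ≤ √(N : ℝ) := (one_le_pow₀ hL1).trans (hpow 0 (by omega))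
      nlinarith
    linarith
  have hfin : |W0 - N / (Nat.totient q : ℝ) * P1| ≤ (C + 17) * T := by
    refine htot.trans ?_
    rw [g3, g4, ← hT]
    nlinarith
  refine hfin.trans ?_
  calc (C + 17) * T = ((C + 17) / L ^ 2) * (N / L ^ U) := by
        rw [hT, pow_add L U 2]
        field_simp
    _ ≤ 1 * (N / L ^ U) := by
        apply mul_le_mul_of_nonneg_right _ (by positivity)
        rw [div_le_one (by positivity)]
        nlinarith
    _ = _ := one_mul _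

end Pool.Agent.N469.LP
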