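import Pool.Agent.N469.LP.Fin
import Pool.Agent.N469.LP.Adm

set_option autoImplicit false

/-! Lemmas for the final statements. -/

namespace Pool.Agent.N469.LP
open Finset
open Pool.Agent.H560R3.GB (sing C₂)
open Pool.Agent.W93.PP (Cnt)

/-- the odd prime factors of `C Y` are those of `Y` if `C` is a power of two -/
lemma sing_pow (k : ℕ) (C Y : ℤ) (hC : C.natAbs = 2 ^ k) (hY : Y ≠ 0) :
    sing (C * Y).natAbs = 2 * C₂ * ∏ p ∈ Y.natAbs.primeFactors.filter (fun p => 2 < p), ((p : ℝ) - 1) / ((p : ℝ) - 2) := by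
  unfold sing
  congr 1
  have e : (C * Y).natAbs.primeFactors.filter (fun p => 2 < p) = Y.natAbs.primeFactors.filter (fun p => 2 < p) := by
    rw [Int.natAbs_mul, hC]
    ext p
    rw [mem_filter, mem_filter, Nat.mem_primeFactors, Nat.mem_primeFactors]
    constructor
    · rintro ⟨⟨h1, h2, h3⟩, h4⟩
      rcases h1.dvd_mul.1 h2 with h5 | h5
      · have := (Nat.prime_dvd_prime_iff_eq h1 Nat.prime_two).1 (h1.dvd_of_dvd_pow h5)
        omega
      · exact ⟨⟨h1, h5, by rwa [Int.natAbs_ne_zero]⟩, h4⟩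
    · rintro ⟨⟨h1, h2, h3⟩, h4⟩
      exact ⟨⟨h1, Dvd.dvd.mul_left h2 _, by positivity⟩, h4⟩
  rw [e]

lemma neg_real_abs (r : ℤ) (x : ℝ) (h : |(r : ℝ)| ≤ x) : |((-r : ℤ) : ℝ)| ≤ x := by
  rw [Int.cast_neg, abs_neg]
  exact h

/-- the density with the number of the admissible classes -/
lemma dens_eq (C Y : ℤ) (hg : Int.gcd C Y = 1) (q : ℕ) (hq : 1 ≤ q) : dens C Y q = sing (C * Y).natAbs / adm C Y q := by
  unfold dens
  rw [adm_eq C Y hg q hq]

lemma adm_one (C Y : ℤ) : adm C Y 1 = 1 := by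
  unfold adm
  have e : (range 1).filter (fun x : ℕ => Nat.Coprime x 1 ∧ Int.gcd (C * (x : ℤ) + Y) ((1 : ℕ) : ℤ) = 1) = range 1 := by
    apply filter_true_of_mem
    intro x _
    refine ⟨Nat.coprime_one_right x, ?_⟩
    simp
  rw [e, card_range]

/-- the union of two events -/
lemma or_event {P : Finset ℕ} {N : ℕ} {L : ℝ} (hL : 2 ≤ L) (U : ℕ) (E E1 E2 : ℕ → Prop) [DecidablePred E] [DecidablePred E1] [DecidablePred E2]
    (h : ∀ v, E v → E1 v ∨ E2 v)
    (h1 : ∑ v ∈ Pool.Agent.N469.SM.SS P N, (if E1 v then 1 / ((Pool.Agent.N469.SM.SS P N).card : ℝ) else 0) ≤ 1 / L ^ (U + 1))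
    (h2 : ∑ v ∈ Pool.Agent.N469.SM.SS P N, (if E2 v then 1 / ((Pool.Agent.N469.SM.SS P N).card : ℝ) else 0) ≤ 1 / L ^ (U + 1)) :
    ∑ v ∈ Pool.Agent.N469.SM.SS P N, (if E v then 1 / ((Pool.Agent.N469.SM.SS P N).card : ℝ) else 0) ≤ 1 / L ^ U := by
  have hp0 : (0 : ℝ) ≤ 1 / ((Pool.Agent.N469.SM.SS P N).card : ℝ) := by positivity
  have h3 : ∑ v ∈ Pool.Agent.N469.SM.SS P N, (if E v then 1 / ((Pool.Agent.N469.SM.SS P N).card : ℝ) else 0) ≤
      ∑ v ∈ Pool.Agent.N469.SM.SS P N, (if E1 v then 1 / ((Pool.Agent.N469.SM.SS P N).card : ℝ) else 0) +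
      ∑ v ∈ Pool.Agent.N469.SM.SS P N, (if E2 v then 1 / ((Pool.Agent.N469.SM.SS P N).card : ℝ) else 0) := by
    rw [← sum_add_distrib]
    apply sum_le_sum
    intro v _
    by_cases hE : E v
    · rw [if_pos hE]
      rcases h v hE with h4 | h4
      · rw [if_pos h4]
        have : (0 : ℝ) ≤ (if E2 v then 1 / ((Pool.Agent.N469.SM.SS P N).card : ℝ) else 0) := by split_ifs <;> simp
        linarith
      · rw [if_pos h4]
        have : (0 : ℝ) ≤ (if E1 v then 1 / ((Pool.Agent.N469.SM.SS P N).card : ℝ) else 0) := by split_ifs <;> simp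
        linarith
    · rw [if_neg hE]
      have a1 : (0 : ℝ) ≤ (if E2 v then 1 / ((Pool.Agent.N469.SM.SS P N).card : ℝ) else 0) := by split_ifs <;> simp
      have a2 : (0 : ℝ) ≤ (if E1 v then 1 / ((Pool.Agent.N469.SM.SS P N).card : ℝ) else 0) := by split_ifs <;> simp
      linarith
  refine h3.trans ((add_le_add h1 h2).trans ?_)
  have hL0 : 0 < L := by linarith
  rw [← two_mul, pow_succ, mul_one_div, div_le_div_iff₀ (by positivity) (by positivity)]
  have : 0 < L ^ U := by positivity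
  nlinarith

end Pool.Agent.N469.LP
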