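import Pool.Agent.N469.LP.Rep

set_option autoImplicit false

/-! Replacing the von Mangoldt function by its sieve model at the values `C n + Y` with `C` of any sign. -/

namespace Pool.Agent.N469.LP
open Finset
open Pool.Agent.H373R2.T7
open Pool.Agent.N469.TL
open Pool.Agent.N469.SM (SS mem_SS one_mem_SS SS_mono card_SS_le card_SS_pos)

lemma sum_refl (X : ℕ) (f : ℕ → ℝ) : ∑ n ∈ Icc 1 X, f (X + 1 - n) = ∑ n ∈ Icc 1 X, f n := by
  apply Finset.sum_nbij' (fun n => X + 1 - n) (fun n => X + 1 - n)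
  · intro n hn
    rw [mem_Icc] at hn ⊢
    omega
  · intro n hn
    rw [mem_Icc] at hn ⊢
    omega
  · intro n hn
    rw [mem_Icc] at hn
    omega
  · intro n hn
    rw [mem_Icc] at hn
    omega
  · intro n _
    rfl

theorem sm_repZ (μ : ℤ) (hμ : μ ≠ 0) (C : ℤ) (hC : C ≠ 0) (Kp Bc A T U : ℕ) (δ : ℝ) (hδ : 0 < δ) :
    ∃ B : ℕ, ∀ Ez : ℕ, ∃ N₀ : ℕ, ∀ N, N₀ ≤ N → ∀ P y, Cond δ Kp N P y → ∀ z : ℕ, Real.log N ^ B ≤ z → (z : ℝ) ≤ Real.log N ^ Ez →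
    ∀ E : ℕ → Prop, ∀ _ : DecidablePred E,
    (∃ (cc : ℤ) (L : ℕ) (g : Fin L → ℕ → ℝ), |cc| ≤ Bc * N ∧ (L : ℝ) ≤ Real.log N ^ T ∧
      (∀ l n, 1 ≤ n → n ≤ Bc * N → |g l n| ≤ Real.log N ^ T) ∧
      ∀ v, E v → ∃ r : ℤ, |(r : ℝ)| ≤ Real.log N ^ A ∧ ∃ l,
        (N : ℝ) / Real.log N ^ U < |∑ n ∈ Icc 1 (Bc * N), g l n *
          (lamI (C * (n : ℤ) + (cc + μ * (v : ℤ) + r)) - lamzI z (C * (n : ℤ) + (cc + μ * (v : ℤ) + r)))|) →
    ∑ v ∈ SS P N, (if E v then 1 / ((SS P N).card : ℝ) else 0) ≤ 1 / Real.log N ^ U := by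
  classical
  rcases lt_or_gt_of_ne hC with hneg | hpos
  · -- negative `C`
    obtain ⟨c, hc⟩ : ∃ c : ℕ, c = C.natAbs := ⟨_, rfl⟩
    have hCc : C = -(c : ℤ) := by omega
    have hc1 : 1 ≤ c := by omega
    obtain ⟨B, hB⟩ := sm_rep μ hμ c hc1 Kp (Bc + c * (Bc + 1)) A T U δ hδ
    refine ⟨B, fun Ez => ?_⟩
    obtain ⟨N0, h0⟩ := hB Ez
    refine ⟨N0 + 3, fun N hN P y hP z hz1 hz2 E _ hE => h0 N (by omega) P y hP z hz1 hz2 E _ ?_⟩
    obtain ⟨cc, L, g, hcc, hL, hg, hbad⟩ := hE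
    have hLN : 0 ≤ Real.log N ^ T := pow_nonneg (Real.log_natCast_nonneg N) _
    have hsub : Bc * N ≤ (Bc + c * (Bc + 1)) * N := Nat.mul_le_mul_right _ (by omega)
    refine ⟨cc - c * (Bc * N + 1), L, fun l n => if n ≤ Bc * N then g l (Bc * N + 1 - n) else 0, ?_, hL, ?_, ?_⟩
    · have hN1 : (1 : ℤ) ≤ N := by exact_mod_cast (by omega : 1 ≤ N)
      have h1 : |cc - c * ((Bc : ℤ) * N + 1)| ≤ |cc| + |(c : ℤ) * ((Bc : ℤ) * N + 1)| := abs_sub _ _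
      have h2 : |(c : ℤ) * ((Bc : ℤ) * N + 1)| = c * ((Bc : ℤ) * N + 1) := abs_of_nonneg (by positivity)
      have h3 : (c : ℤ) * 1 ≤ c * N := mul_le_mul_of_nonneg_left hN1 (by positivity)
      rw [h2] at h1
      push_cast
      nlinarith
    · intro l n h1 h2
      simp only
      split_ifs with h3
      · exact hg l _ (by omega) (by omega)
      · rw [abs_zero]; exact hLN
    · intro v hv
      obtain ⟨r, hr, l, hl⟩ := hbad v hv
      refine ⟨r, hr, l, lt_of_lt_of_eq hl ?_⟩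
      congr 1
      rw [← sum_refl (Bc * N)]
      have e : Icc 1 (Bc * N) = (Icc 1 ((Bc + c * (Bc + 1)) * N)).filter (fun n => n ≤ Bc * N) := by
        ext n
        rw [mem_filter, mem_Icc, mem_Icc]
        omega
      rw [e, sum_filter]
      apply sum_congr rfl
      intro n hn
      rw [mem_Icc] at hn
      beta_reduce
      split_ifs with h3
      · have e2 : C * ((Bc * N + 1 - n : ℕ) : ℤ) + (cc + μ * (v : ℤ) + r) = ((c * n : ℕ) : ℤ) + (cc - (c : ℤ) * ((Bc : ℤ) * (N : ℤ) + 1) + μ * (v : ℤ) + r) := by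
          rw [hCc, Nat.cast_sub (by omega)]
          push_cast
          ring
        rw [e2]
      · rw [zero_mul]
  · obtain ⟨c, hc⟩ : ∃ c : ℕ, c = C.natAbs := ⟨_, rfl⟩
    have hCc : C = (c : ℤ) := by omega
    have hc1 : 1 ≤ c := by omega
    obtain ⟨B, hB⟩ := sm_rep μ hμ c hc1 Kp Bc A T U δ hδ
    refine ⟨B, fun Ez => ?_⟩
    obtain ⟨N0, h0⟩ := hB Ez
    refine ⟨N0, fun N hN P y hP z hz1 hz2 E _ hE => h0 N (by omega) P y hP z hz1 hz2 E _ ?_⟩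
    obtain ⟨cc, L, g, hcc, hL, hg, hbad⟩ := hE
    refine ⟨cc, L, g, hcc, hL, hg, fun v hv => ?_⟩
    obtain ⟨r, hr, l, hl⟩ := hbad v hv
    refine ⟨r, hr, l, lt_of_lt_of_eq hl ?_⟩
    congr 1
    apply sum_congr rfl
    intro n _
    have e2 : C * (n : ℤ) + (cc + μ * (v : ℤ) + r) = ((c * n : ℕ) : ℤ) + (cc + μ * (v : ℤ) + r) := by
      rw [hCc]
      push_cast
      ring
    rw [e2]

end Pool.Agent.N469.LP
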