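import Pool.Agent.N469.LP.Multi

set_option autoImplicit false

/-! Schinzel's quantitative hypothesis for linear polynomials: the deterministic part. -/

namespace Pool.Agent.N469.LP
open Finset
open Pool.Agent.H373R2.T7
open Pool.Agent.H560R3.GB (sing C₂)
open Pool.Agent.W93.PP (Cnt cnt_eq)

/-- a chain of three approximations -/
lemma comb3 (ε Q m₁ m₂ m₃ : ℝ) (hε : 0 < ε) (hε1 : ε ≤ 1) (h3 : 0 < m₃) (a1 : |Q - m₁| ≤ ε / 8 * m₁) (a2 : |m₁ - m₂| ≤ ε / 8 * m₂)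
    (a3 : |m₂ - m₃| ≤ ε / 8 * m₃) : |Q - m₃| ≤ ε * m₃ := by
  have b1 := abs_le.1 a1
  have b2 := abs_le.1 a2
  have b3 := abs_le.1 a3
  have h2 : m₂ ≤ 2 * m₃ := by nlinarith
  have h2' : 0 ≤ m₂ := by nlinarith
  have h1 : m₁ ≤ 4 * m₃ := by nlinarith
  have c1 : ε / 8 * m₂ ≤ ε / 8 * (2 * m₃) := mul_le_mul_of_nonneg_left h2 (by positivity)
  have c2 : ε / 8 * m₁ ≤ ε / 8 * (4 * m₃) := mul_le_mul_of_nonneg_left h1 (by positivity)
  rw [abs_le]
  have h0 : 0 ≤ ε * m₃ := by positivity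
  constructor <;> linarith [b1.1, b1.2, b2.1, b2.2, b3.1, b3.2]

/-- the logarithms of numbers near `N` -/
lemma log_near (η : ℝ) (hη : 0 < η) (hη1 : η ≤ 1) (B J : ℕ) : ∃ N₀ : ℕ, ∀ N : ℕ, N₀ ≤ N → ∀ X : ℝ, N / Real.log N ^ J ≤ X → X ≤ B * N →
    |Real.log X ^ 2 - Real.log N ^ 2| ≤ η * Real.log N ^ 2 := by
  obtain ⟨n1, h1⟩ := ev_L' (64 * (J : ℝ) ^ 2 / η ^ 2 + 4 * Real.log (B + 1) / η + 8)
  refine ⟨n1 + 4, fun N hN X hX1 hX2 => ?_⟩
  have hL := h1 N (by omega)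
  have hN0 : (0 : ℝ) < N := by exact_mod_cast (by omega : 0 < N)
  obtain ⟨L, hLd⟩ : ∃ L, L = Real.log (N : ℝ) := ⟨_, rfl⟩
  rw [← hLd] at hL hX1 ⊢
  have hB0 : (0 : ℝ) ≤ B := Nat.cast_nonneg _
  have hlB : 0 ≤ Real.log ((B : ℝ) + 1) := Real.log_nonneg (by linarith)
  have p1 : 0 ≤ 64 * (J : ℝ) ^ 2 / η ^ 2 := by positivity
  have p2 : 0 ≤ 4 * Real.log (B + 1) / η := by positivity
  have hL8 : 8 ≤ L := by linarith
  have hL0 : 0 < L := by linarith
  have hX0 : 0 < X := lt_of_lt_of_le (by positivity) hX1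
  have u : (J : ℝ) * Real.log L ≤ η / 4 * L := by
    have u2 : Real.log L ≤ 2 * √L := by
      have h5 : Real.log (√L) = Real.log L / 2 := Real.log_sqrt hL0.le
      have h6 : Real.log (√L) ≤ √L := by
        have := Real.log_le_sub_one_of_pos (Real.sqrt_pos.2 hL0)
        linarith
      linarith
    have u3 : 8 * (J : ℝ) / η ≤ √L := by
      apply Real.le_sqrt_of_sq_le
      have : (8 * (J : ℝ) / η) ^ 2 = 64 * (J : ℝ) ^ 2 / η ^ 2 := by ring
      rw [this]
      linarith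
    rw [div_le_iff₀ hη] at u3
    have hsL : √L * √L = L := Real.mul_self_sqrt hL0.le
    have hsL0 : 0 ≤ √L := Real.sqrt_nonneg _
    calc (J : ℝ) * Real.log L ≤ J * (2 * √L) := mul_le_mul_of_nonneg_left u2 (Nat.cast_nonneg _)
      _ = (8 * (J : ℝ)) * √L / 4 := by ring
      _ ≤ (√L * η) * √L / 4 := by gcongr
      _ = η / 4 * (√L * √L) := by ring
      _ = η / 4 * L := by rw [hsL]
  have l1 : (1 - η / 4) * L ≤ Real.log X := by
    have h2 := Real.log_le_log (by positivity) hX1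
    rw [Real.log_div hN0.ne' (by positivity), Real.log_pow, ← hLd] at h2
    linarith
  have l2 : Real.log X ≤ (1 + η / 4) * L := by
    have h2 : Real.log X ≤ Real.log ((B + 1) * N) := Real.log_le_log hX0 (by nlinarith)
    rw [Real.log_mul (by linarith) hN0.ne', ← hLd] at h2
    have h3 : 4 * Real.log (B + 1) / η ≤ L := by linarith
    rw [div_le_iff₀ hη] at h3
    linarith
  have l0 : 0 ≤ (1 - η / 4) * L := mul_nonneg (by linarith) hL0.le
  have m1 := pow_le_pow_left₀ l0 l1 2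
  have m2 := pow_le_pow_left₀ (l0.trans l1) l2 2
  have e1 : ((1 - η / 4) * L) ^ 2 = L ^ 2 - (η / 2 - η ^ 2 / 16) * L ^ 2 := by ring
  have e2 : ((1 + η / 4) * L) ^ 2 = L ^ 2 + (η / 2 + η ^ 2 / 16) * L ^ 2 := by ring
  have hLL : 0 < L ^ 2 := by positivity
  have f1 : (η / 2 - η ^ 2 / 16) * L ^ 2 ≤ η * L ^ 2 := mul_le_mul_of_nonneg_right (by nlinarith) hLL.le
  have f2 : (η / 2 + η ^ 2 / 16) * L ^ 2 ≤ η * L ^ 2 := mul_le_mul_of_nonneg_right (by nlinarith) hLL.le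
  rw [abs_le]
  constructor <;> linarith

/-- the number of the positive integers `n` with `t - (a m n + b') > 0` for which `a n + b` and `t - (a m n + b')` are primes -/
noncomputable def Q1 (t b b' : ℤ) (a m : ℕ) : ℕ :=
  {n : ℕ | 1 ≤ n ∧ 0 < t - (a * m * n + b') ∧ (a * (n : ℤ) + b).toNat.Prime ∧ (t - (a * m * n + b')).toNat.Prime}.ncard

/-- the number of the positive integers `n` with `t - (a m n + b') > 0` -/
noncomputable def XX (t b' : ℤ) (a m : ℕ) : ℕ := {n : ℕ | 1 ≤ n ∧ 0 < t - (a * m * n + b')}.ncard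

lemma XX_eq (t b' : ℤ) (a m : ℕ) (ha : 1 ≤ a) (hm : 1 ≤ m) (ht : b' < t) : XX t b' a m = (t - b' - 1).toNat / (a * m) := by
  unfold XX
  have e : {n : ℕ | 1 ≤ n ∧ 0 < t - (a * m * n + b')} = ((Icc 1 ((t - b' - 1).toNat / (a * m)) : Finset ℕ) : Set ℕ) := by
    ext n
    simp only [coe_Icc, Set.mem_Icc, Set.mem_setOf_eq]
    apply and_congr_right
    intro _
    rw [Nat.le_div_iff_mul_le (Nat.mul_pos ha hm)]
    constructor
    · intro h
      have h2 : ((n * (a * m) : ℕ) : ℤ) = a * m * n := by push_cast; ring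
      omega
    · intro h
      have h2 : ((n * (a * m) : ℕ) : ℤ) = a * m * n := by push_cast; ring
      omega
  rw [e, Set.ncard_coe_finset, Nat.card_Icc]
  exact Nat.add_sub_cancel _ _

/-- the bijection -/
lemma Q1_eq (t b b' : ℤ) (a m : ℕ) (ha : 1 ≤ a) (hm : 1 ≤ m) (ht : b' < t) (x₀ X M₀ M' : ℕ) (hX : X = (t - b' - 1).toNat / (a * m))
    (hx : (x₀ : ℤ) ≡ b [ZMOD a]) (hM₀ : M₀ = b.toNat) (hM' : (M' : ℤ) = a * X + b) :
    Q1 t b b' a m = cpw (-(m : ℤ)) (t + m * b - b') a x₀ M₀ M' := by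
  have hX' : ∀ n : ℕ, 0 < t - ((a : ℤ) * m * n + b') ↔ n ≤ X := by
    intro n
    rw [hX, Nat.le_div_iff_mul_le (Nat.mul_pos ha hm)]
    have h2 : ((n * (a * m) : ℕ) : ℤ) = a * m * n := by push_cast; ring
    constructor
    · intro h
      omega
    · intro h
      omega
  have hval : ∀ n : ℕ, -(m : ℤ) * (a * (n : ℤ) + b) + (t + m * b - b') = t - (a * m * n + b') := by
    intro n
    ring
  have ha0 : (0 : ℤ) < a := by exact_mod_cast ha
  unfold Q1 cpw
  have e : {n : ℕ | 1 ≤ n ∧ 0 < t - ((a : ℤ) * m * n + b') ∧ (a * (n : ℤ) + b).toNat.Prime ∧ (t - (a * m * n + b')).toNat.Prime} =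
      (((Icc 1 X).filter (fun n : ℕ => (a * (n : ℤ) + b).toNat.Prime ∧ (t - (a * m * n + b')).toNat.Prime) : Finset ℕ) : Set ℕ) := by
    ext n
    simp only [coe_filter, mem_Icc, Set.mem_setOf_eq]
    rw [hX' n]
    tauto
  rw [e, Set.ncard_coe_finset]
  apply card_bij (fun (n : ℕ) _ => (a * (n : ℤ) + b).toNat)
  · intro n hn
    rw [mem_filter, mem_Icc] at hn
    obtain ⟨⟨h1, h2⟩, h3, h4⟩ := hn
    have h5 := h3.one_lt
    obtain ⟨p, hp⟩ : ∃ p, p = (a * (n : ℤ) + b).toNat := ⟨_, rfl⟩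
    have hpz : (p : ℤ) = a * n + b := by omega
    rw [← hp] at h3 ⊢
    rw [mem_filter, mem_Ioc]
    have h6 : (a : ℤ) * 1 ≤ a * n := mul_le_mul_of_nonneg_left (by exact_mod_cast h1) ha0.le
    have h7 : (a : ℤ) * n ≤ a * X := mul_le_mul_of_nonneg_left (by exact_mod_cast h2) ha0.le
    refine ⟨⟨by omega, by omega⟩, h3, ?_, ?_⟩
    · rw [← Int.natCast_modEq_iff]
      refine Int.ModEq.trans ?_ hx.symm
      rw [hpz]
      exact Int.modEq_iff_dvd.2 ⟨-n, by ring⟩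
    · rw [hpz, hval n]
      exact h4
  · intro n hn n' hn' he
    rw [mem_filter, mem_Icc] at hn hn'
    have h5 := hn.2.1.one_lt
    have h5' := hn'.2.1.one_lt
    have h6 : (a : ℤ) * n = a * n' := by omega
    exact_mod_cast mul_left_cancel₀ ha0.ne' h6
  · intro p hp
    rw [mem_filter, mem_Ioc] at hp
    obtain ⟨⟨h1, h2⟩, h3, h4, h5⟩ := hp
    have h6 : (p : ℤ) ≡ b [ZMOD a] := (Int.natCast_modEq_iff.2 h4).trans hx
    obtain ⟨k, hk⟩ := Int.modEq_iff_dvd.1 h6.symm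
    have hpk : (p : ℤ) = a * k + b := by linarith
    have hp1 := h3.one_lt
    have hpb : b < p := by omega
    have hk0 : 0 < k := by
      by_contra hneg
      have : (a : ℤ) * k ≤ 0 := mul_nonpos_of_nonneg_of_nonpos ha0.le (by omega)
      omega
    obtain ⟨n, hn⟩ := Int.eq_ofNat_of_zero_le hk0.le
    subst hn
    have hnX : n ≤ X := by
      have h7 : (a : ℤ) * n ≤ a * X := by
        have : (p : ℤ) ≤ M' := by exact_mod_cast h2
        linarith
      have := le_of_mul_le_mul_left h7 ha0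
      exact_mod_cast this
    have e2 : (a * (n : ℤ) + b).toNat = p := by omega
    refine ⟨n, ?_, e2⟩
    rw [mem_filter, mem_Icc, e2]
    refine ⟨⟨by omega, hnX⟩, h3, ?_⟩
    rw [← hval n, ← hpk]
    exact h5

/-- the singular series for `F = a n + b`, `G = a m n + b'` -/
noncomputable def SS0 (t b b' : ℤ) (a m : ℕ) : ℝ :=
  sing (-(m : ℤ) * (t + m * b - b')).natAbs * a / adm (-(m : ℤ)) (t + m * b - b') a

theorem schin_of (ε : ℝ) (hε : 0 < ε) (hε1 : ε ≤ 1) (A B D M W : ℕ) : ∃ N₀ : ℕ, ∀ N, N₀ ≤ N → ∀ t b b' : ℤ, ∀ a m : ℕ,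
    (N : ℝ) / Real.log N ^ W ≤ t → t ≤ B * N → 1 ≤ a → (a : ℝ) ≤ Real.log N ^ D → |(b : ℝ)| ≤ Real.log N ^ A → |(b' : ℝ)| ≤ Real.log N ^ A →
    1 ≤ m → m ≤ M → Int.gcd b a = 1 → Int.gcd (t - b') (a * m : ℕ) = 1 → ((2 : ℤ) ∣ a * m ∨ (2 : ℤ) ∣ t + b - b') →
    t + m * b - b' ≠ 0 ∧ Int.gcd (-(m : ℤ)) (t + m * b - b') = 1 ∧ 2 ∣ -(m : ℤ) * (t + m * b - b') ∧
    (GoodL (ε / 8) (B + 1) D (W + 1) (-(m : ℤ)) N (t + m * b - b') →
      |(Q1 t b b' a m : ℝ) - XX t b' a m / Real.log (XX t b' a m) ^ 2 * SS0 t b b' a m| ≤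
        ε * (XX t b' a m / Real.log (XX t b' a m) ^ 2 * SS0 t b b' a m) ∧ 0 < XX t b' a m / Real.log (XX t b' a m) ^ 2 * SS0 t b b' a m) := by
  obtain ⟨n0, h0⟩ := log_near (ε / 8) (by positivity) (by linarith) (B + 1) (W + D + 2)
  obtain ⟨n1, h1⟩ := ev_L' (8 * M + 8)
  obtain ⟨n2, h2⟩ := ev_log' (W + D + A + 3) (100 / ε)
  refine ⟨n0 + n1 + n2 + 4, fun N hN t b b' a m ht1 ht2 ha haL hb hb' hm hmM hgb hgt hpar => ?_⟩
  have k0 := h0 N (by omega)
  have hL := h1 N (by omega)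
  have hs := h2 N (by omega)
  have hN0 : (0 : ℝ) < N := by exact_mod_cast (by omega : 0 < N)
  have hN4 : (4 : ℝ) ≤ N := by exact_mod_cast (by omega : 4 ≤ N)
  obtain ⟨L, hLd⟩ : ∃ L, L = Real.log (N : ℝ) := ⟨_, rfl⟩
  unfold GoodL
  rw [← hLd] at k0 hL hs ht1 haL hb hb' ⊢
  have hMr : (1 : ℝ) ≤ M := by exact_mod_cast hm.trans hmM
  have hmr : (1 : ℝ) ≤ m := by exact_mod_cast hm
  have hmMr : (m : ℝ) ≤ M := by exact_mod_cast hmM
  have har : (1 : ℝ) ≤ a := by exact_mod_cast ha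
  have hL8 : 8 ≤ L := by linarith
  have hL1 : 1 ≤ L := by linarith
  have hL0 : 0 < L := by linarith
  have hss : √(N : ℝ) * √(N : ℝ) = N := Real.mul_self_sqrt hN0.le
  have p1 : 100 ≤ 100 / ε := by
    rw [le_div_iff₀ hε]
    linarith
  have hs1 : 1 ≤ √(N : ℝ) := by
    rw [Real.one_le_sqrt]
    linarith
  -- everything is small compared with `N / L ^ (W + 1)`
  have hbig : 100 / ε * L ^ (D + A + 2) ≤ N / L ^ (W + 1) := by
    rw [le_div_iff₀ (by positivity)]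
    calc 100 / ε * L ^ (D + A + 2) * L ^ (W + 1) = 100 / ε * L ^ (W + D + A + 3) := by
          rw [mul_assoc, ← pow_add]
          congr 2
          ring
      _ ≤ √N := hs
      _ ≤ √N * √N := by nlinarith
      _ = N := hss
  have hA1 : 1 ≤ L ^ A := one_le_pow₀ hL1
  have hD1 : 1 ≤ L ^ D := one_le_pow₀ hL1
  have hbig2 : 100 / ε * (L ^ A + L ^ D) ≤ N / L ^ (W + 1) := by
    refine le_trans ?_ hbig
    apply mul_le_mul_of_nonneg_left _ (by positivity)
    have e1 : L ^ (D + A + 2) = L ^ D * L ^ A * L ^ 2 := by rw [pow_add, pow_add]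
    have e2 : 2 ≤ L ^ 2 := by nlinarith
    have e3 : L ^ A ≤ L ^ D * L ^ A := le_mul_of_one_le_left (by positivity) hD1
    have e4 : L ^ D ≤ L ^ D * L ^ A := le_mul_of_one_le_right (by positivity) hA1
    rw [e1]
    have e5 : 0 ≤ L ^ D * L ^ A := by positivity
    nlinarith
  have hNW : (N : ℝ) / L ^ W = L * (N / L ^ (W + 1)) := by rw [pow_succ]; field_simp
  obtain ⟨Z, hZ⟩ : ∃ Z : ℝ, Z = N / L ^ (W + 1) := ⟨_, rfl⟩
  rw [← hZ] at hbig2 hNW ⊢
  have hZ0 : 0 < Z := by rw [hZ]; positivity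
  have hAD : 100 * (L ^ A + L ^ D) ≤ Z := by
    have : 100 * (L ^ A + L ^ D) ≤ 100 / ε * (L ^ A + L ^ D) := mul_le_mul_of_nonneg_right p1 (by positivity)
    linarith
  have hZ1 : 1 ≤ Z := by linarith
  have htL : (8 * M + 8) * Z ≤ t := by
    have : (8 * M + 8) * Z ≤ L * Z := mul_le_mul_of_nonneg_right (by linarith) hZ0.le
    linarith
  have hb1 := abs_le.1 hb
  have hb1' := abs_le.1 hb'
  have htb : (b' : ℝ) < t := by nlinarith
  have htbz : b' < t := by exact_mod_cast htb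
  -- `X`
  obtain ⟨X, hX⟩ : ∃ X : ℕ, X = (t - b' - 1).toNat / (a * m) := ⟨_, rfl⟩
  have hXX : XX t b' a m = X := by rw [hX]; exact XX_eq t b' a m ha hm htbz
  have hamp : 0 < a * m := Nat.mul_pos ha hm
  have d1 : (a : ℤ) * m * X ≤ t - b' - 1 := by
    have h5 : X * (a * m) ≤ (t - b' - 1).toNat := by rw [hX]; exact Nat.div_mul_le_self _ _
    have h6 : ((X * (a * m) : ℕ) : ℤ) = a * m * X := by push_cast; ring
    omega
  have d2 : t - b' - 1 < (a : ℤ) * m * X + a * m := by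
    have h5 : (t - b' - 1).toNat < X * (a * m) + a * m := by
      rw [hX]
      exact Nat.lt_div_mul_add hamp
    have h6 : ((X * (a * m) + a * m : ℕ) : ℤ) = a * m * X + a * m := by push_cast; ring
    omega
  have d1r : (a : ℝ) * m * X ≤ t - b' - 1 := by exact_mod_cast d1
  have d2r : (t : ℝ) - b' - 1 < (a : ℝ) * m * X + a * m := by exact_mod_cast d2
  have haX : 2 * Z ≤ (a : ℝ) * X := by
    have h5 : (t : ℝ) - b' - 1 - a * m ≤ m * (a * X) := by linarith [mul_comm (a : ℝ) m, mul_assoc (m : ℝ) a X]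
    have h6 : (m : ℝ) * (2 * Z) ≤ m * (a * X) := by
      refine le_trans ?_ h5
      have h7 : (a : ℝ) * m ≤ L ^ D * M := mul_le_mul haL hmMr (by linarith) (by positivity)
      have h8 : L ^ D * M ≤ Z * M := mul_le_mul_of_nonneg_right (by linarith) (by linarith)
      have h9 : (m : ℝ) * (2 * Z) ≤ M * (2 * Z) := mul_le_mul_of_nonneg_right hmMr (by positivity)
      nlinarith
    exact le_of_mul_le_mul_left h6 (by linarith)
  have hX1 : 1 ≤ (X : ℝ) := by
    have : (0 : ℝ) < X := by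
      have h5 : 0 < (a : ℝ) * X := by linarith
      by_contra hneg
      push Not at hneg
      have := mul_nonpos_of_nonneg_of_nonpos (by linarith : (0 : ℝ) ≤ a) hneg
      linarith
    exact_mod_cast (by exact_mod_cast this : 0 < X)
  have haXt : (a : ℝ) * X ≤ t - b' - 1 := by
    refine le_trans ?_ d1r
    have : (a : ℝ) * X * 1 ≤ a * X * m := mul_le_mul_of_nonneg_left hmr (by positivity)
    linarith [mul_right_comm (a : ℝ) X m]
  have htN : (t : ℝ) ≤ B * N := by exact_mod_cast ht2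
  have hZN : Z ≤ N := by rw [hZ]; exact div_le_self hN0.le (one_le_pow₀ hL1)
  -- the local conditions
  obtain ⟨Y, hY⟩ : ∃ Y : ℤ, Y = t + m * b - b' := ⟨_, rfl⟩
  rw [← hY]
  have hYr : (0 : ℝ) < Y := by
    rw [hY]
    push_cast
    have h5 : -(M * L ^ A) ≤ (m : ℝ) * b := by
      have h6 : (m : ℝ) * (-b) ≤ M * L ^ A := mul_le_mul_of_nonneg hmMr (by linarith) (by linarith) (by positivity)
      linarith
    have h6 : M * L ^ A ≤ M * Z := mul_le_mul_of_nonneg_left (by linarith) (by linarith)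
    nlinarith
  have hY0 : Y ≠ 0 := by
    rintro rfl
    simp at hYr
  have hcopam : IsCoprime (t - b') ((a * m : ℕ) : ℤ) := Int.isCoprime_iff_gcd_eq_one.2 hgt
  have hgm : Int.gcd (-(m : ℤ)) Y = 1 := by
    rw [← Int.isCoprime_iff_gcd_eq_one, IsCoprime.neg_left_iff]
    have h5 : IsCoprime (t - b') (m : ℤ) := by
      apply hcopam.of_isCoprime_of_dvd_right
      push_cast
      exact dvd_mul_left _ _
    have e : Y = (t - b') + m * b := by rw [hY]; ring
    rw [e]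
    exact (h5.symm.add_mul_left_right b)
  have hpar2 : (2 : ℤ) ∣ -(m : ℤ) * Y := by
    rw [neg_mul, dvd_neg]
    by_cases hm2 : (2 : ℤ) ∣ m
    · exact Dvd.dvd.mul_right hm2 _
    · apply Dvd.dvd.mul_left
      have hmo : ∃ k : ℤ, (m : ℤ) = 2 * k + 1 := ⟨(m : ℤ) / 2, by omega⟩
      obtain ⟨k, hk⟩ := hmo
      have hYe : Y = (t + b - b') + 2 * (k * b) := by rw [hY, hk]; ring
      rw [hYe]
      apply dvd_add _ (dvd_mul_right _ _)
      rcases hpar with h5 | h5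
      · have ha2 : (2 : ℤ) ∣ a := by
          rcases Int.prime_two.dvd_or_dvd h5 with h6 | h6
          · exact h6
          · exact absurd h6 hm2
        have hbo : ¬ (2 : ℤ) ∣ b := by
          intro h6
          have h7 := Int.dvd_coe_gcd h6 ha2
          rw [hgb] at h7
          norm_num at h7
        have hto : ¬ (2 : ℤ) ∣ t - b' := by
          intro h6
          have h8 : (2 : ℤ) ∣ ((a * m : ℕ) : ℤ) := by push_cast; exact Dvd.dvd.mul_right ha2 _
          have h7 := Int.dvd_coe_gcd h6 h8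
          rw [hgt] at h7
          norm_num at h7
        omega
      · exact h5
  refine ⟨hY0, hgm, hpar2, fun hgood => ?_⟩
  -- the class
  obtain ⟨x₀, hx₀⟩ : ∃ x₀ : ℕ, x₀ = (b % (a : ℤ)).toNat := ⟨_, rfl⟩
  have ha0 : (0 : ℤ) < a := by exact_mod_cast ha
  have hx₀z : (x₀ : ℤ) = b % (a : ℤ) := by
    rw [hx₀, Int.toNat_of_nonneg (Int.emod_nonneg _ ha0.ne')]
  have hx₀m : (x₀ : ℤ) ≡ b [ZMOD a] := by rw [hx₀z]; exact Int.mod_modEq _ _
  have hxc : Nat.Coprime x₀ a := by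
    have h5 : Int.gcd (x₀ : ℤ) a = 1 := by
      obtain ⟨k, hk⟩ := Int.modEq_iff_dvd.1 hx₀m
      have e : (x₀ : ℤ) = b + a * (-k) := by linarith
      rw [e, ← Int.isCoprime_iff_gcd_eq_one]
      exact (Int.isCoprime_iff_gcd_eq_one.2 hgb).add_mul_left_left _
    rwa [Int.gcd_natCast_natCast] at h5
  have hxY : Int.gcd (-(m : ℤ) * x₀ + Y) a = 1 := by
    obtain ⟨k, hk⟩ := Int.modEq_iff_dvd.1 hx₀m
    have e : -(m : ℤ) * x₀ + Y = (t - b') + a * (m * k) := by
      have : (x₀ : ℤ) = b - a * k := by linarith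
      rw [this, hY]
      ring
    rw [e, ← Int.isCoprime_iff_gcd_eq_one]
    have h5 : IsCoprime (t - b') (a : ℤ) := by
      apply hcopam.of_isCoprime_of_dvd_right
      push_cast
      exact dvd_mul_right _ _
    exact h5.add_mul_left_left _
  obtain ⟨M₀, hM₀⟩ : ∃ M₀ : ℕ, M₀ = b.toNat := ⟨_, rfl⟩
  have hpos : (0 : ℤ) ≤ a * X + b := by
    have : (0 : ℝ) ≤ a * X + b := by linarith
    exact_mod_cast this
  obtain ⟨M', hM'⟩ : ∃ M' : ℕ, (M' : ℤ) = a * X + b := ⟨(a * X + b).toNat, Int.toNat_of_nonneg hpos⟩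
  have hM'r : (M' : ℝ) = a * X + b := by exact_mod_cast hM'
  have hM₀r : (b : ℝ) ≤ M₀ ∧ 0 ≤ (M₀ : ℝ) ∧ (M₀ : ℝ) ≤ L ^ A := by
    refine ⟨by rw [hM₀]; exact_mod_cast Int.self_le_toNat b, Nat.cast_nonneg _, ?_⟩
    rcases le_or_gt 0 b with h5 | h5
    · have : ((M₀ : ℤ)) = b := by rw [hM₀]; exact Int.toNat_of_nonneg h5
      have : (M₀ : ℝ) = b := by exact_mod_cast this
      rw [this]
      exact hb1.2
    · have : M₀ = 0 := by omega
      rw [this, Nat.cast_zero]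
      linarith
  have hM'B : M' ≤ (B + 1) * N := by
    have h5 : (M' : ℝ) ≤ (B + 1) * N := by
      rw [hM'r]
      linarith
    exact_mod_cast h5
  have hkey := hgood a x₀ M₀ M' ha haL hxc hxY hM'B (by
    rw [hM'r]
    linarith [hM₀r.2.2]) (by
    intro n hn
    rw [mem_Ioc] at hn
    have h5 : (m : ℤ) * n ≤ m * M' := mul_le_mul_of_nonneg_left (by exact_mod_cast hn.2) (by positivity)
    have h6 : (m : ℤ) * M' = a * m * X + m * b := by rw [hM']; ring
    rw [hY]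
    linarith)
  have hQ := Q1_eq t b b' a m ha hm htbz x₀ X M₀ M' hX hx₀m hM₀ hM'
  rw [← hY] at hQ
  rw [← hQ] at hkey
  rw [hXX]
  -- the main terms
  obtain ⟨g, hg⟩ : ∃ g, g = dens (-(m : ℤ)) Y a := ⟨_, rfl⟩
  have hgd := dens_eq (-(m : ℤ)) Y hgm a ha
  have hg0 : 0 < g := by
    rw [hg]
    unfold dens
    apply div_pos
    · have := Pool.Agent.W93.GB.one_le_sing (-(m : ℤ) * Y).natAbs
      linarith
    · exact_mod_cast cnt_pos a _ ha (Int.natCast_dvd.1 (by exact_mod_cast hpar2))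
  rw [← hg] at hkey
  have hSS : SS0 t b b' a m = g * a := by
    unfold SS0
    rw [← hY, hg, hgd]
    ring
  rw [hSS]
  have hlX := k0 X (by
    rw [div_le_iff₀ (by positivity)]
    have h5 : (X : ℝ) * L ^ (W + D + 2) = (X * L ^ D) * L ^ (W + 1) * L := by
      rw [show W + D + 2 = D + ((W + 1) + 1) by ring, pow_add, pow_succ L (W + 1)]
      ring
    rw [h5]
    have h6 : Z ≤ X * L ^ D := by
      have : (a : ℝ) * X ≤ L ^ D * X := mul_le_mul_of_nonneg_right haL (by linarith)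
      linarith [mul_comm (X : ℝ) (L ^ D)]
    have h7 : (N : ℝ) = Z * L ^ (W + 1) := by rw [hZ]; field_simp
    calc (N : ℝ) = Z * L ^ (W + 1) := h7
      _ ≤ (X * L ^ D) * L ^ (W + 1) := mul_le_mul_of_nonneg_right h6 (by positivity)
      _ ≤ (X * L ^ D) * L ^ (W + 1) * L := le_mul_of_one_le_right (by positivity) hL1) (by
    have : (X : ℝ) ≤ a * X := le_mul_of_one_le_left (by linarith) har
    push_cast
    linarith)
  obtain ⟨l, hl⟩ : ∃ l, l = Real.log X := ⟨_, rfl⟩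
  rw [← hl] at hlX ⊢
  have hl2 : 0 < l ^ 2 := by
    have h5 := (abs_le.1 hlX).1
    have h6 : ε / 8 * L ^ 2 ≤ 1 / 8 * L ^ 2 := mul_le_mul_of_nonneg_right (by linarith) (by positivity)
    have h7 : 0 < L ^ 2 := by positivity
    linarith
  have hm3 : 0 < (X : ℝ) / l ^ 2 * (g * a) := by
    have : (0 : ℝ) < X := by linarith
    positivity
  refine ⟨comb3 ε _ (g * (((M' : ℝ) - M₀) / L ^ 2)) (g * ((a * X) / L ^ 2)) _ hε hε1 hm3 hkey ?_ ?_, hm3⟩
  · have e1 : g * (((M' : ℝ) - M₀) / L ^ 2) - g * ((a * X) / L ^ 2) = g / L ^ 2 * ((M' : ℝ) - M₀ - a * X) := by ring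
    have e2 : ε / 8 * (g * ((a * X) / L ^ 2)) = g / L ^ 2 * (ε / 8 * (a * X)) := by ring
    rw [e1, e2, abs_mul, abs_of_pos (show 0 < g / L ^ 2 by positivity)]
    apply mul_le_mul_of_nonneg_left _ (by positivity)
    have h5 : 2 * L ^ A ≤ ε / 8 * (a * X) := by
      have h6 : 100 / ε * L ^ A ≤ a * X := by
        have : 100 / ε * L ^ A ≤ 100 / ε * (L ^ A + L ^ D) := mul_le_mul_of_nonneg_left (by linarith) (by positivity)
        linarith
      rw [div_mul_eq_mul_div, div_le_iff₀ hε] at h6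
      have h7 : 0 ≤ L ^ A := by positivity
      linarith
    rw [hM'r, abs_le]
    constructor <;> linarith [hM₀r.1, hM₀r.2.1, hM₀r.2.2]
  · have hl0 : l ≠ 0 := by
      intro h
      rw [h] at hl2
      norm_num at hl2
    have e1 : g * ((a * X) / L ^ 2) - X / l ^ 2 * (g * a) = (g * a * X) / (L ^ 2 * l ^ 2) * (l ^ 2 - L ^ 2) := by
      field_simp
      try ring
    have e2 : ε / 8 * (X / l ^ 2 * (g * a)) = (g * a * X) / (L ^ 2 * l ^ 2) * (ε / 8 * L ^ 2) := by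
      field_simp
      try ring
    have h6 : (0 : ℝ) < X := by linarith
    rw [e1, e2, abs_mul, abs_of_pos (show 0 < (g * a * X) / (L ^ 2 * l ^ 2) by positivity)]
    exact mul_le_mul_of_nonneg_left hlX (by positivity)

end Pool.Agent.N469.LP
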