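import Mathlib
import Pool.Agent.H373R2.T7.TupleMain2

/-! Primes in a progression outside given classes modulo the small primes (adapted from `Pool.Agent.H373R2.T7.TupleMain`). -/

namespace Pool.Agent.N469.LP
open Finset
open Pool.Agent.H373R2.T7

open Classical in
/-- the number of the nonzero classes `r mod p` with `A p r` -/
noncomputable def rho (A : ℕ → ℕ → Prop) (p : ℕ) : ℕ := ((range p).filter (fun r => ¬ p ∣ r ∧ A p r)).card

lemma rho_le (A : ℕ → ℕ → Prop) (p : ℕ) : rho A p ≤ p - 1 := by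
  classical
  unfold rho
  have h : (range p).filter (fun r => ¬ p ∣ r ∧ A p r) ⊆ Ico 1 p := by
    intro r hr
    rw [mem_filter, mem_range] at hr
    rw [mem_Ico]
    refine ⟨?_, hr.1⟩
    rcases Nat.eq_zero_or_pos r with h | h
    · exact absurd (h ▸ dvd_zero _) hr.2.1
    · exact h
  refine (card_le_card h).trans ?_
  simp

/-- the primes used for sieving -/
def TT (z q : ℕ) : Finset ℕ := (pz z).filter fun p => ¬ p ∣ q

lemma TT_sub (z q : ℕ) : TT z q ⊆ pz z := filter_subset _ _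

lemma mem_TT {z q p : ℕ} : p ∈ TT z q ↔ p ∈ pz z ∧ ¬ p ∣ q := mem_filter

open Classical in
/-- the family of classes modulo `q * d` -/
noncomputable def LS (A : ℕ → ℕ → Prop) (z r q r₀ d : ℕ) : Finset ℕ :=
  if ∃ S ⊆ TT z q, S.card ≤ r ∧ ∏ p ∈ S, p = d then
    (range (q * d)).filter (fun b => b ≡ r₀ [MOD q] ∧ ∀ p ∈ d.primeFactors, ¬ p ∣ b ∧ A p (b % p)) else ∅

open Classical in
lemma LS_eq (A : ℕ → ℕ → Prop) (z r q r₀ : ℕ) (S : Finset ℕ) (hS : S ⊆ TT z q) (hr : S.card ≤ r) :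
    LS A z r q r₀ (∏ p ∈ S, p) = (range (q * ∏ p ∈ S, p)).filter (fun b => b ≡ r₀ [MOD q] ∧ ∀ p ∈ S, ¬ p ∣ b ∧ A p (b % p)) := by
  unfold LS
  rw [if_pos ⟨S, hS, hr, rfl⟩]
  apply filter_congr
  intro b _
  rw [primeFactors_prod' S (fun p hp => (mem_pz.1 (TT_sub _ _ (hS hp))).2)]

lemma LS_card (A : ℕ → ℕ → Prop) (z r q r₀ : ℕ) (hq : 1 ≤ q) (S : Finset ℕ) (hS : S ⊆ TT z q) (hr : S.card ≤ r) :
    (LS A z r q r₀ (∏ p ∈ S, p)).card = ∏ p ∈ S, rho A p := by
  classical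
  rw [LS_eq A z r q r₀ S hS hr]
  have h := crt_aux (fun p b => ¬ p ∣ b ∧ A p b) S (fun p hp => (mem_pz.1 (TT_sub _ _ (hS hp))).2) q hq
    (fun p hp => (mem_TT.1 (hS hp)).2) r₀
  have e : ∏ p ∈ S, rho A p = ∏ p ∈ S, ((range p).filter (fun b => ¬ p ∣ b ∧ A p b)).card := by
    apply prod_congr rfl
    intro p _
    unfold rho
    congr 1
  rw [e, ← h]
  congr 1
  apply filter_congr
  intro b _
  have h1 : ∀ p : ℕ, (p ∣ b ↔ p ∣ b % p) := by
    intro p
    rw [Nat.dvd_iff_mod_eq_zero, Nat.dvd_iff_mod_eq_zero, Nat.mod_mod]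
  constructor
  · rintro ⟨h0, h⟩
    refine ⟨h0, fun p hp => ?_⟩
    obtain ⟨h3, h4⟩ := h p hp
    exact ⟨fun h5 => h3 ((h1 p).2 h5), h4⟩
  · rintro ⟨h0, h⟩
    refine ⟨h0, fun p hp => ?_⟩
    obtain ⟨h3, h4⟩ := h p hp
    exact ⟨fun h5 => h3 ((h1 p).1 h5), h4⟩

/-- the error term in progressions -/
noncomputable def Ef (A : ℕ → ℕ → Prop) (N z r q r₀ d : ℕ) : ℝ :=
  ∑ b ∈ LS A z r q r₀ d, |lamAP N (q * d) b - lam1 N / (Nat.totient (q * d) : ℝ)|

lemma Ef_nonneg (A : ℕ → ℕ → Prop) (N z r q r₀ d : ℕ) : 0 ≤ Ef A N z r q r₀ d := sum_nonneg fun _ _ => abs_nonneg _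

open Classical in
theorem sieve (A : ℕ → ℕ → Prop) (N z r q r₀ k : ℕ) (hq : 1 ≤ q) (hk : ∀ p, p.Prime → rho A p ≤ k) :
    |∑ n ∈ ((Icc 1 N).filter (fun n : ℕ => n ≡ r₀ [MOD q] ∧ ∀ p ∈ pz z, ¬ p ∣ n)).filter
        (fun n : ℕ => ∀ p ∈ TT z q, ¬ A p (n % p)), ArithmeticFunction.vonMangoldt n -
          lam1 N / (Nat.totient q : ℝ) * ∏ p ∈ TT z q, (1 - (rho A p : ℝ) / (p - 1 : ℝ))| ≤
      ((z : ℝ) + 1) ^ r * (z * ((Nat.log 2 N + 1 : ℝ) * Real.log N)) + ∑ d ∈ Icc 1 ((z + 1) ^ r), Ef A N z r q r₀ d +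
      2 * lam1 N * Real.exp (3 * ((2 * k : ℕ) * (1 + Real.log z)) - r) := by
  have hφ : (1 : ℝ) ≤ Nat.totient q := by exact_mod_cast Nat.totient_pos.2 hq
  have hpp : ∀ S ⊆ TT z q, ∀ p ∈ S, p.Prime := fun S hS p hp => (mem_pz.1 (TT_sub _ _ (hS hp))).2
  have hlN : 0 ≤ (Nat.log 2 N + 1 : ℝ) * Real.log N := by
    have := Real.log_natCast_nonneg N
    positivity
  have hψ : 0 ≤ lam1 N := sum_nonneg fun _ _ => ArithmeticFunction.vonMangoldt_nonneg
  have key := sieve_gen' ((Icc 1 N).filter (fun n => n ≡ r₀ [MOD q] ∧ ∀ p ∈ pz z, ¬ p ∣ n)) (fun n => ArithmeticFunction.vonMangoldt n)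
    (fun _ _ => ArithmeticFunction.vonMangoldt_nonneg) (fun p n => A p (n % p)) (TT z q)
    (fun p => (rho A p : ℝ) / (p - 1 : ℝ)) (fun p hp => by
      have hp2 : (2 : ℝ) ≤ p := by exact_mod_cast (mem_pz.1 (TT_sub _ _ hp)).2.two_le
      constructor
      · apply div_nonneg (Nat.cast_nonneg _); linarith
      · rw [div_le_one (by linarith)]
        have h1 := rho_le A p
        have h2 : (rho A p : ℝ) ≤ ((p - 1 : ℕ) : ℝ) := by exact_mod_cast h1
        rw [Nat.cast_sub (mem_pz.1 (TT_sub _ _ hp)).2.one_le] at h2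
        push_cast at h2
        exact h2) (lam1 N / (Nat.totient q : ℝ)) (by positivity)
    (fun S => z * ((Nat.log 2 N + 1 : ℝ) * Real.log N) + Ef A N z r q r₀ (∏ p ∈ S, p)) r (by
      intro S hS hr
      have hSp := hpp S hS
      obtain ⟨d, hd⟩ : ∃ d, d = ∏ p ∈ S, p := ⟨_, rfl⟩
      have hd1 : 1 ≤ d := by rw [hd]; exact Nat.pos_of_ne_zero (prod_ne_zero_iff.2 fun p hp => (hSp p hp).ne_zero)
      have hqd : 0 < q * d := Nat.mul_pos hq hd1
      have hpd : ∀ p ∈ S, p ∣ q * d := fun p hp => by rw [hd]; exact Dvd.dvd.mul_left (dvd_prod_of_mem _ hp) q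
      obtain ⟨W', hW'⟩ : ∃ W' : ℝ, W' = ∑ n ∈ (Icc 1 N).filter (fun n : ℕ => n ≡ r₀ [MOD q] ∧ ∀ p ∈ S, ¬ p ∣ n ∧ A p (n % p)),
        ArithmeticFunction.vonMangoldt n := ⟨_, rfl⟩
      have h1 : W' = ∑ b ∈ LS A z r q r₀ d, lamAP N (q * d) b := by
        rw [hW', ← sum_fiberwise_of_maps_to (t := LS A z r q r₀ d) (g := fun n => n % (q * d))]
        · apply sum_congr rfl
          intro b hb
          rw [hd, LS_eq A z r q r₀ S hS hr, ← hd, mem_filter, mem_range] at hb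
          unfold lamAP
          apply sum_congr _ (fun _ _ => rfl)
          ext n
          rw [mem_filter, mem_filter, mem_filter]
          constructor
          · rintro ⟨⟨h1, h2⟩, h3⟩
            refine ⟨h1, ?_⟩
            unfold Nat.ModEq
            rw [h3, Nat.mod_eq_of_lt hb.1]
          · rintro ⟨h1, h2⟩
            have h2' : n ≡ b [MOD (q * d)] := h2
            unfold Nat.ModEq at h2
            rw [Nat.mod_eq_of_lt hb.1] at h2
            refine ⟨⟨h1, (h2'.of_mul_right d).trans hb.2.1, fun p hp => ?_⟩, h2⟩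
            obtain ⟨h3, h4⟩ := hb.2.2 p hp
            have h5 : n % p = b % p := by
              obtain ⟨e, he⟩ := hpd p hp
              have h6 : n ≡ b [MOD (p * e)] := by rw [← he]; exact h2'
              exact h6.of_mul_right e
            refine ⟨fun h6 => h3 ?_, by rw [h5]; exact h4⟩
            rw [Nat.dvd_iff_mod_eq_zero] at h6 ⊢
            rw [← h5, h6]
        · intro n hn
          rw [mem_filter] at hn
          rw [hd, LS_eq A z r q r₀ S hS hr, ← hd, mem_filter, mem_range]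
          refine ⟨Nat.mod_lt _ hqd, ?_, fun p hp => ?_⟩
          · refine Nat.ModEq.trans ?_ hn.2.1
            exact (Nat.mod_modEq n (q * d)).of_mul_right d
          · obtain ⟨h3, h4⟩ := hn.2.2 p hp
            have h5 : n % (q * d) % p = n % p := Nat.mod_mod_of_dvd _ (hpd p hp)
            refine ⟨fun h6 => h3 ((dvd_mod_iff n (q * d) p (hpd p hp)).1 h6), by rw [h5]; exact h4⟩
      have hcop : Nat.Coprime q d := by
        rw [hd]
        apply Nat.Coprime.prod_right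
        intro p hp
        rw [Nat.coprime_comm]
        exact (Nat.Prime.coprime_iff_not_dvd (hSp p hp)).2 (mem_TT.1 (hS hp)).2
      have h2 : lam1 N / (Nat.totient q : ℝ) * ∏ p ∈ S, ((rho A p : ℝ) / (p - 1 : ℝ)) =
          ∑ b ∈ LS A z r q r₀ d, lam1 N / (Nat.totient (q * d) : ℝ) := by
        rw [sum_const, nsmul_eq_mul, Nat.totient_mul hcop, hd, LS_card A z r q r₀ hq S hS hr, totient_prod S hSp, prod_div_distrib]
        push_cast
        have h3 : ∏ p ∈ S, ((p - 1 : ℕ) : ℝ) = ∏ p ∈ S, ((p : ℝ) - 1) := by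
          apply prod_congr rfl
          intro p hp
          rw [Nat.cast_sub (hSp p hp).one_le]
          push_cast
          ring
        rw [h3]
        ring
      have h3 : |W' - lam1 N / (Nat.totient q : ℝ) * ∏ p ∈ S, ((rho A p : ℝ) / (p - 1 : ℝ))| ≤ Ef A N z r q r₀ d := by
        rw [h1, h2, ← sum_sub_distrib]
        exact abs_sum_le_sum_abs _ _
      -- comparison of W and W'
      obtain ⟨W, hW⟩ : ∃ W : ℝ, W = ∑ n ∈ ((Icc 1 N).filter (fun n : ℕ => n ≡ r₀ [MOD q] ∧ ∀ p ∈ pz z, ¬ p ∣ n)).filter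
        (fun n : ℕ => ∀ p ∈ S, A p (n % p)), ArithmeticFunction.vonMangoldt n := ⟨_, rfl⟩
      have h4 : |W - W'| ≤ z * ((Nat.log 2 N + 1 : ℝ) * Real.log N) := by
        have h5 : W = ∑ n ∈ Icc 1 N, if (n ≡ r₀ [MOD q] ∧ ∀ p ∈ pz z, ¬ p ∣ n) ∧ (∀ p ∈ S, A p (n % p)) then
            ArithmeticFunction.vonMangoldt n else 0 := by
          rw [hW, filter_filter, sum_filter]
        have h6 : W' = ∑ n ∈ Icc 1 N, if (n ≡ r₀ [MOD q] ∧ ∀ p ∈ S, ¬ p ∣ n ∧ A p (n % p)) then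
            ArithmeticFunction.vonMangoldt n else 0 := by
          rw [hW', sum_filter]
        rw [h5, h6, ← sum_sub_distrib]
        refine (abs_sum_le_sum_abs _ _).trans ?_
        have h7 : ∀ n ∈ Icc 1 N, |(if (n ≡ r₀ [MOD q] ∧ ∀ p ∈ pz z, ¬ p ∣ n) ∧ (∀ p ∈ S, A p (n % p)) then
            ArithmeticFunction.vonMangoldt n else 0) - (if (n ≡ r₀ [MOD q] ∧ ∀ p ∈ S, ¬ p ∣ n ∧ A p (n % p)) then
            ArithmeticFunction.vonMangoldt n else 0)| ≤ ∑ p ∈ pz z, if p ∣ n then ArithmeticFunction.vonMangoldt n else 0 := by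
          intro n _
          have h8 : (0 : ℝ) ≤ ArithmeticFunction.vonMangoldt n := ArithmeticFunction.vonMangoldt_nonneg
          have h9 : 0 ≤ ∑ p ∈ pz z, if p ∣ n then ArithmeticFunction.vonMangoldt n else 0 :=
            sum_nonneg fun p _ => by split_ifs <;> simp [h8]
          by_cases h10 : ∀ p ∈ pz z, ¬ p ∣ n
          · by_cases h11 : n ≡ r₀ [MOD q] ∧ ∀ p ∈ S, A p (n % p)
            · rw [if_pos ⟨⟨h11.1, h10⟩, h11.2⟩, if_pos ⟨h11.1, fun p hp => ⟨h10 p (TT_sub _ _ (hS hp)), h11.2 p hp⟩⟩, sub_self, abs_zero]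
              exact h9
            · rw [if_neg (fun h => h11 ⟨h.1.1, h.2⟩), if_neg (fun h => h11 ⟨h.1, fun p hp => (h.2 p hp).2⟩), sub_self, abs_zero]
              exact h9
          · rw [if_neg (fun h => h10 h.1.2), zero_sub, abs_neg]
            push Not at h10
            obtain ⟨p, hp, hpn⟩ := h10
            have h11 : |(if (n ≡ r₀ [MOD q] ∧ ∀ p ∈ S, ¬ p ∣ n ∧ A p (n % p)) then
              ArithmeticFunction.vonMangoldt n else 0)| ≤ ArithmeticFunction.vonMangoldt n := by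
              split_ifs
              · rw [abs_of_nonneg h8]
              · rw [abs_zero]; exact h8
            refine h11.trans ?_
            have h12 := single_le_sum (f := fun p => if p ∣ n then ArithmeticFunction.vonMangoldt n else (0 : ℝ))
              (s := pz z) (fun p _ => by split_ifs <;> simp [h8]) hp
            simp only [if_pos hpn] at h12
            exact h12
        refine (sum_le_sum h7).trans ?_
        rw [sum_comm]
        have h8 : ∀ p ∈ pz z, ∑ n ∈ Icc 1 N, (if p ∣ n then ArithmeticFunction.vonMangoldt n else 0) ≤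
            (Nat.log 2 N + 1 : ℝ) * Real.log N := by
          intro p hp
          rw [← sum_filter]
          exact lam_mult_prime N p (mem_pz.1 hp).2
        refine (sum_le_sum h8).trans ?_
        rw [sum_const, nsmul_eq_mul]
        apply mul_le_mul_of_nonneg_right _ hlN
        exact_mod_cast card_pz_le z
      rw [← hW, ← hd]
      have h5 : W - lam1 N / (Nat.totient q : ℝ) * ∏ p ∈ S, ((rho A p : ℝ) / (p - 1 : ℝ)) =
          (W - W') + (W' - lam1 N / (Nat.totient q : ℝ) * ∏ p ∈ S, ((rho A p : ℝ) / (p - 1 : ℝ))) := by ring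
      rw [h5]
      exact (abs_add_le _ _).trans (add_le_add h4 h3))
  refine key.trans ?_
  have hpow : ∀ j, (TT z q).powersetCard j ⊆ (pz z).powersetCard j := fun j => powersetCard_mono (TT_sub z q)
  have e1 : ∑ j ∈ range (r + 1), ∑ S ∈ (TT z q).powersetCard j, (z * ((Nat.log 2 N + 1 : ℝ) * Real.log N) + Ef A N z r q r₀ (∏ p ∈ S, p)) ≤
      ∑ j ∈ range (r + 1), ∑ S ∈ (pz z).powersetCard j, (z * ((Nat.log 2 N + 1 : ℝ) * Real.log N) + Ef A N z r q r₀ (∏ p ∈ S, p)) :=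
    sum_le_sum fun j _ => sum_le_sum_of_subset_of_nonneg (hpow j) fun S _ _ => by
      have := Ef_nonneg A N z r q r₀ (∏ p ∈ S, p)
      positivity
  have e2 : ∑ j ∈ range (r + 1), ∑ S ∈ (pz z).powersetCard j, (z * ((Nat.log 2 N + 1 : ℝ) * Real.log N) + Ef A N z r q r₀ (∏ p ∈ S, p)) =
      ((∑ j ∈ range (r + 1), ((pz z).powersetCard j).card : ℕ) : ℝ) * (z * ((Nat.log 2 N + 1 : ℝ) * Real.log N)) +
      ∑ j ∈ range (r + 1), ∑ S ∈ (pz z).powersetCard j, Ef A N z r q r₀ (∏ p ∈ S, p) := by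
    push_cast
    rw [sum_mul, ← sum_add_distrib]
    apply sum_congr rfl
    intro j _
    rw [sum_add_distrib, sum_const, nsmul_eq_mul]
  have h1 := card_small (pz z) r
  have h2 : (((pz z).card : ℝ) + 1) ^ r ≤ ((z : ℝ) + 1) ^ r := by
    have : ((pz z).card : ℝ) ≤ z := by exact_mod_cast card_pz_le z
    gcongr
  have h3 : ((∑ j ∈ range (r + 1), ((pz z).powersetCard j).card : ℕ) : ℝ) * (z * ((Nat.log 2 N + 1 : ℝ) * Real.log N)) ≤
      ((z : ℝ) + 1) ^ r * (z * ((Nat.log 2 N + 1 : ℝ) * Real.log N)) :=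
    mul_le_mul_of_nonneg_right (h1.trans h2) (by positivity)
  have h4 := sum_small_le z r (fun d => Ef A N z r q r₀ d) (fun d => Ef_nonneg A N z r q r₀ d)
  have h5 : es (fun p => (rho A p : ℝ) / (p - 1 : ℝ)) (TT z q) r ≤ Real.exp (3 * ((2 * k : ℕ) * (1 + Real.log z)) - r) := by
    have hg : ∀ p ∈ TT z q, (rho A p : ℝ) / (p - 1 : ℝ) ≤ (2 * k : ℕ) * (1 / (p : ℝ)) := by
      intro p hp
      have hpP := (mem_pz.1 (TT_sub _ _ hp)).2
      have hp2 : (2 : ℝ) ≤ p := by exact_mod_cast hpP.two_le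
      have h6 : (rho A p : ℝ) ≤ k := by exact_mod_cast hk p hpP
      have hk : (0 : ℝ) ≤ k := Nat.cast_nonneg _
      rw [mul_one_div, div_le_div_iff₀ (by linarith) (by linarith)]
      push_cast
      nlinarith
    refine (es_le (fun p hp => by
      have hp2 : (2 : ℝ) ≤ p := by exact_mod_cast (mem_pz.1 (TT_sub _ _ hp)).2.two_le
      apply div_nonneg (Nat.cast_nonneg _); linarith) r).trans ?_
    apply Real.exp_le_exp.2
    have h6 := sum_le_sum hg
    rw [← mul_sum] at h6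
    have h7 := sum_pz_le z
    have h7' : ∑ p ∈ TT z q, 1 / (p : ℝ) ≤ ∑ p ∈ pz z, 1 / (p : ℝ) :=
      sum_le_sum_of_subset_of_nonneg (TT_sub z q) fun _ _ _ => by positivity
    have h8 : ((2 * k : ℕ) : ℝ) * ∑ p ∈ TT z q, 1 / (p : ℝ) ≤ ((2 * k : ℕ) : ℝ) * (1 + Real.log z) :=
      mul_le_mul_of_nonneg_left (h7'.trans h7) (Nat.cast_nonneg _)
    linarith
  have h6 : 2 * (lam1 N / (Nat.totient q : ℝ)) * es (fun p => (rho A p : ℝ) / (p - 1 : ℝ)) (TT z q) r ≤
      2 * lam1 N * Real.exp (3 * ((2 * k : ℕ) * (1 + Real.log z)) - r) := by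
    have a1 : lam1 N / (Nat.totient q : ℝ) ≤ lam1 N := div_le_self hψ hφ
    have a2 : 0 ≤ es (fun p => (rho A p : ℝ) / (p - 1 : ℝ)) (TT z q) r := es_nonneg (fun p hp => by
      have hp2 : (2 : ℝ) ≤ p := by exact_mod_cast (mem_pz.1 (TT_sub _ _ hp)).2.two_le
      apply div_nonneg (Nat.cast_nonneg _); linarith) r
    exact mul_le_mul (by linarith) h5 a2 (by positivity)
  linarith

end Pool.Agent.N469.LP
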